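import Pool.Agent.Work.MP_c58d8b_pr.Stmts2

set_option autoImplicit false

namespace Pool.Agent.Work.MP_c58d8b_pr.NABOVE

open MeasureTheory ProbabilityTheory Set
open Pool.Agent.Work.MP_c58d8b_pr

universe u

variable {V : Type u}

theorem ball_sub (hb : Basics.{u}) (G : SimpleGraph V) (γ : Equiv.Perm V) (hγ : IsAut G γ)
    {K : Set V} {o : V} {r : ℕ} (hK : K ⊆ ball G r o) : γ '' K ⊆ ball G r (γ o) := by
  rintro _ ⟨k, hk, rfl⟩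
  have h := hK hk
  show G.dist (γ o) (γ k) ≤ r
  rw [hb.dist_image V G γ hγ]
  exact h

theorem prf (hb : Basics.{u}) (hp : PushStmt.{u}) (hf : FillStmt.{u}) (hd : DynStmt.{u}) :
    AboveStmt.{u} := by
  intro V G Γ ξ hG hLF hP hT h3 hE
  obtain ⟨K, hKf, hKne, hKc, hKinf, C₁, hC₁, C₂, hC₂, C₃, hC₃, h12, h13, h23⟩ := hf V G hG hLF h3
  have hc : ξ K ∈ Comps G K := hE.comps K hKf
  obtain ⟨R₀, hR₀, hne⟩ : ∃ R₀ ∈ Comps G K, R₀ ≠ ξ K := by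
    by_cases h : C₁ = ξ K
    · exact ⟨C₂, hC₂, fun h' => h12 (h.trans h'.symm)⟩
    · exact ⟨C₁, hC₁, h⟩
  obtain ⟨hp1, hp2⟩ := hp V G Γ K hG hLF hP hT hKf hKne hKc
  obtain ⟨g, hg, hgd, hgR⟩ := hp2 R₀ hR₀ (hKinf R₀ hR₀)
  obtain ⟨D, hD, R, hR, hKD, hgR', hgT⟩ := hp1 g hg hgd
  obtain ⟨k₀, hk₀⟩ := hKne
  have hRR : R = R₀ := hb.comps_eq V G K R hR R₀ hR₀
    ⟨g k₀, hgR' ⟨k₀, hk₀, rfl⟩, hgR ⟨k₀, hk₀, rfl⟩⟩
  subst hRR
  have hgDR : g '' Dᶜ ⊆ R := hgT.2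
  have hDc : D = ξ K := by
    by_contra hDne
    have hcD : ξ K ⊆ Dᶜ := by
      intro y hy hyD
      exact hDne (hb.comps_eq V G K D hD (ξ K) hc ⟨y, hyD, hy⟩)
    have h1 : ξ (g '' K) ⊆ R := by
      rw [hE.inv g hg K hKf]
      exact (image_mono hcD).trans hgDR
    have hfin : (K ∪ g '' K).Finite := hKf.union (hKf.image _)
    obtain ⟨z, hz⟩ := (hE.inf (K ∪ g '' K) hfin).nonempty
    have h2 : z ∈ ξ K := hE.mono K (K ∪ g '' K) subset_union_left hfin hz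
    have h3 : z ∈ R := h1 (hE.mono (g '' K) (K ∪ g '' K) subset_union_right hfin hz)
    exact hne (hb.comps_eq V G K R hR (ξ K) hc ⟨z, h3, h2⟩)
  subst hDc
  have ha : (g⁻¹ : Equiv.Perm V) '' Rᶜ ⊆ ξ K := by
    rintro _ ⟨y, hy, rfl⟩
    by_contra hcon
    apply hy
    apply hgDR
    exact ⟨(g⁻¹ : Equiv.Perm V) y, hcon, by simp⟩
  have haΓ : g⁻¹ ∈ Γ := Γ.inv_mem hg
  generalize g⁻¹ = a at ha haΓ
  obtain ⟨-, hdis, hlim⟩ := hd V G Γ K hG hLF hP hKf ⟨k₀, hk₀⟩ (ξ K) hc R hR hne a haΓ ha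
  -- the radius
  obtain ⟨r, hr⟩ : ∃ r : ℕ, K ⊆ ball G r k₀ := by
    obtain ⟨r, hr⟩ := (hKf.image (fun y => G.dist k₀ y)).bddAbove
    exact ⟨r, fun y hy => hr ⟨y, hy, rfl⟩⟩
  have hpow : ∀ n : ℕ, a ^ n ∈ Γ := fun n => Γ.pow_mem haΓ n
  have hinj : Function.Injective (fun n : ℕ => (a ^ n) k₀) := by
    intro m n hmn
    by_contra h
    exact Set.disjoint_left.1 (hdis m n h) ⟨k₀, hk₀, rfl⟩ ⟨k₀, hk₀, hmn.symm⟩
  have hbf : ∀ (x : V) (s : ℕ), (ball G s x).Finite := fun x s => hb.ball_finite V G hG hLF x s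
  have hξ : ∀ n : ℕ, ξ (ball G r ((a ^ n) k₀)) ⊆ (a ^ n) '' ξ K := by
    intro n
    rw [← hE.inv (a ^ n) (hpow n) K hKf]
    exact hE.mono _ _ (ball_sub hb G (a ^ n) (hP _ (hpow n)) hr) (hbf _ _)
  refine ⟨r, fun x F hF => ?_⟩
  obtain ⟨N, hN⟩ := hlim {x} (Set.finite_singleton x)
  have hB : (ball G (r + 1) x ∪ ⋃ f ∈ F, ball G (r + 1) f).Finite :=
    (hbf x (r + 1)).union (hF.biUnion (fun f _ => hbf f (r + 1)))
  have hB' : ((fun n : ℕ => (a ^ n) k₀) ⁻¹'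
      (ball G (r + 1) x ∪ ⋃ f ∈ F, ball G (r + 1) f)).Finite := hB.preimage hinj.injOn
  obtain ⟨M, hM⟩ := hB'.bddAbove
  have hn : (a ^ (max N (M + 1))) k₀ ∉ (ball G (r + 1) x ∪ ⋃ f ∈ F, ball G (r + 1) f) := by
    intro h
    have h4 : max N (M + 1) ≤ M := hM h
    have h5 : M + 1 ≤ max N (M + 1) := le_max_right _ _
    omega
  refine ⟨(a ^ (max N (M + 1))) k₀, ?_, ?_⟩
  · rintro (h | h)
    · apply hn
      left
      have h6 : G.dist ((a ^ (max N (M + 1))) k₀) x ≤ r := h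
      show G.dist x _ ≤ r + 1
      rw [SimpleGraph.dist_comm]
      omega
    · exact Set.disjoint_left.1 (hN _ (le_max_left _ _)) (hξ _ h) rfl
  · rw [Set.disjoint_left]
    intro f hf1 hf2
    apply hn
    right
    refine Set.mem_biUnion hf2 ?_
    have h7 : G.dist ((a ^ (max N (M + 1))) k₀) f ≤ r + 1 := hf1
    show G.dist f _ ≤ r + 1
    rw [SimpleGraph.dist_comm]
    exact h7

end Pool.Agent.Work.MP_c58d8b_pr.NABOVE
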