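import Pool.Agent.Work.MP_c58d8b_pr.Stmts

set_option autoImplicit false

namespace Pool.Agent.Work.MP_c58d8b_pr.NBASICS

open Pool.Agent.Work.MP_c58d8b_pr
open MeasureTheory ProbabilityTheory Set
open scoped ENNReal unitInterval

universe u

variable {V : Type u}

theorem within_mono (G : SimpleGraph V) {A B : Set V} (h : A ⊆ B) : within G A ≤ within G B := by
  intro x y hxy
  exact ⟨hxy.1, h hxy.2.1, h hxy.2.2⟩

theorem within_le (G : SimpleGraph V) (A : Set V) : within G A ≤ G := by
  intro x y hxy
  exact hxy.1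

theorem reach_mono (G : SimpleGraph V) {A B : Set V} (h : A ⊆ B) {x y : V}
    (hr : (within G A).Reachable x y) : (within G B).Reachable x y :=
  hr.mono (within_mono G h)

theorem walk_mem (G : SimpleGraph V) {A : Set V} {x y : V} (p : (within G A).Walk x y) :
    x ∈ A → y ∈ A := by
  induction p with
  | nil => exact id
  | cons h _ ih => intro _; exact ih h.2.2

theorem reach_mem (G : SimpleGraph V) {A : Set V} {x y : V} (h : (within G A).Reachable x y)
    (hx : x ∈ A) : y ∈ A := by
  obtain ⟨p⟩ := h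
  exact walk_mem G p hx

theorem comp_disj (G : SimpleGraph V) {K C : Set V} (hC : C ∈ Comps G K) {y : V} (hy : y ∈ C) :
    y ∉ K := by
  obtain ⟨x, hx, rfl⟩ := hC
  exact reach_mem G hy hx

theorem comp_eq_of_mem (G : SimpleGraph V) {K C : Set V} (hC : C ∈ Comps G K) {y : V}
    (hy : y ∈ C) : C = comp G K y := by
  obtain ⟨x, hx, rfl⟩ := hC
  have hxy : (within G Kᶜ).Reachable x y := hy
  ext z
  constructor
  · intro hz
    have hxz : (within G Kᶜ).Reachable x z := hz
    exact hxy.symm.trans hxz
  · intro hz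
    have hyz : (within G Kᶜ).Reachable y z := hz
    exact hxy.trans hyz

theorem mem_comp_self (G : SimpleGraph V) (K : Set V) (x : V) : x ∈ comp G K x :=
  SimpleGraph.Reachable.refl x

theorem comp_mem_Comps (G : SimpleGraph V) {K : Set V} {x : V} (hx : x ∉ K) :
    comp G K x ∈ Comps G K := ⟨x, hx, rfl⟩

theorem comps_closed' (G : SimpleGraph V) {K C : Set V} (hC : C ∈ Comps G K) {x y : V}
    (hx : x ∈ C) (hxy : G.Adj x y) (hy : y ∉ K) : y ∈ C := by
  have hxK : x ∉ K := comp_disj G hC hx
  rw [comp_eq_of_mem G hC hx]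
  have h : (within G Kᶜ).Adj x y := ⟨hxy, hxK, hy⟩
  exact h.reachable

theorem walk_within_comp (G : SimpleGraph V) {K C : Set V} (hC : C ∈ Comps G K) {x y : V}
    (p : (within G Kᶜ).Walk x y) : x ∈ C → (within G C).Reachable x y := by
  induction p with
  | nil => intro _; exact SimpleGraph.Reachable.refl _
  | cons h _ ih =>
    intro hx
    have hz := comps_closed' G hC hx h.1 h.2.2
    have hadj : (within G C).Adj _ _ := ⟨h.1, hx, hz⟩
    exact hadj.reachable.trans (ih hz)

theorem comps_conn' (G : SimpleGraph V) {K C : Set V} (hC : C ∈ Comps G K) : Conn G C := by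
  intro x hx y hy
  rw [comp_eq_of_mem G hC hx] at hy
  obtain ⟨p⟩ := (hy : (within G Kᶜ).Reachable x y)
  exact walk_within_comp G hC p hx

theorem comps_eq' (G : SimpleGraph V) {K C C' : Set V} (hC : C ∈ Comps G K)
    (hC' : C' ∈ Comps G K) {z : V} (hz : z ∈ C) (hz' : z ∈ C') : C = C' := by
  rw [comp_eq_of_mem G hC hz, comp_eq_of_mem G hC' hz']

theorem conn_subset' (G : SimpleGraph V) {K A C : Set V} (hA : Conn G A) (hAK : Disjoint A K)
    (hC : C ∈ Comps G K) (h : (A ∩ C).Nonempty) : A ⊆ C := by
  obtain ⟨a, haA, haC⟩ := h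
  intro b hb
  rw [comp_eq_of_mem G hC haC]
  have hsub : A ⊆ Kᶜ := Set.subset_compl_iff_disjoint_right.mpr hAK
  exact reach_mono G hsub (hA a haA b hb)

theorem walk_adj (G : SimpleGraph V) {K C : Set V} (hC : C ∈ Comps G K) {x k : V}
    (p : G.Walk x k) : x ∈ C → k ∈ K → ∃ u ∈ C, ∃ v ∈ K, G.Adj u v := by
  induction p with
  | nil => intro hx hk; exact absurd hk (comp_disj G hC hx)
  | @cons a b c h _ ih =>
    intro hx hk
    by_cases hb : b ∈ K
    · exact ⟨a, hx, b, hb, h⟩
    · exact ih (comps_closed' G hC hx h hb) hk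

theorem comps_nonempty' (G : SimpleGraph V) {K C : Set V} (hC : C ∈ Comps G K) : C.Nonempty := by
  obtain ⟨x, hx, rfl⟩ := hC
  exact ⟨x, mem_comp_self G K x⟩

theorem comps_adj' (G : SimpleGraph V) {K C : Set V} (hG : G.Connected) (hK : K.Nonempty)
    (hC : C ∈ Comps G K) : ∃ x ∈ C, ∃ y ∈ K, G.Adj x y := by
  obtain ⟨x, hx⟩ := comps_nonempty' G hC
  obtain ⟨k, hk⟩ := hK
  obtain ⟨p⟩ := hG.preconnected x k
  exact walk_adj G hC p hx hk

theorem comps_finite' (G : SimpleGraph V) {K : Set V} (hG : G.Connected) (hL : LocFinite G)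
    (hK : K.Finite) : (Comps G K).Finite := by
  rcases K.eq_empty_or_nonempty with rfl | hne
  · refine (Set.finite_singleton (Set.univ : Set V)).subset ?_
    rintro C ⟨x, -, rfl⟩
    rw [Set.mem_singleton_iff, Set.eq_univ_iff_forall]
    intro y
    have h1 : G ≤ within G (∅ : Set V)ᶜ := by
      intro a b hab
      exact ⟨hab, by simp, by simp⟩
    exact (hG.preconnected x y).mono h1
  · have hfin : (⋃ y ∈ K, G.neighborSet y).Finite := hK.biUnion (fun y _ => hL y)
    refine (hfin.image (fun x => comp G K x)).subset ?_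
    intro C hC
    obtain ⟨x, hx, y, hy, hxy⟩ := comps_adj' G hG hne hC
    refine ⟨x, ?_, (comp_eq_of_mem G hC hx).symm⟩
    simp only [Set.mem_iUnion]
    exact ⟨y, hy, hxy.symm⟩

theorem compl_conn' (G : SimpleGraph V) {K C : Set V} (hG : G.Connected) (hK : K.Nonempty)
    (hKc : Conn G K) (hC : C ∈ Comps G K) : Conn G Cᶜ := by
  obtain ⟨k, hk⟩ := hK
  have hKC : K ⊆ Cᶜ := fun z hz hzC => comp_disj G hC hzC hz
  have key : ∀ x ∈ Cᶜ, (within G Cᶜ).Reachable x k := by
    intro x hx
    by_cases hxK : x ∈ K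
    · exact reach_mono G hKC (hKc x hxK k hk)
    · have hC' := comp_mem_Comps G hxK
      have hxC' := mem_comp_self G K x
      obtain ⟨u, hu, v, hv, huv⟩ := comps_adj' G hG ⟨k, hk⟩ hC'
      have hsub : comp G K x ⊆ Cᶜ := by
        intro z hz hzC
        apply hx
        rw [comps_eq' G hC hC' hzC hz]
        exact hxC'
      have h1 : (within G Cᶜ).Reachable x u :=
        reach_mono G hsub (comps_conn' G hC' x hxC' u hu)
      have h2 : (within G Cᶜ).Adj u v := ⟨huv, hsub hu, hKC hv⟩
      have h3 : (within G Cᶜ).Reachable v k := reach_mono G hKC (hKc v hv k hk)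
      exact h1.trans (h2.reachable.trans h3)
  intro x hx y hy
  exact (key x hx).trans (key y hy).symm

/-- the map induced by an automorphism -/
def homIm (G : SimpleGraph V) (γ : Equiv.Perm V) (hγ : IsAut G γ) (A : Set V) :
    within G A →g within G (γ '' A) where
  toFun := γ
  map_rel' := by
    intro a b hab
    exact ⟨(hγ a b).2 hab.1, Set.mem_image_of_mem _ hab.2.1, Set.mem_image_of_mem _ hab.2.2⟩

theorem reach_image (G : SimpleGraph V) {γ : Equiv.Perm V} (hγ : IsAut G γ) {A : Set V} {x y : V}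
    (h : (within G A).Reachable x y) : (within G (γ '' A)).Reachable (γ x) (γ y) :=
  h.map (homIm G γ hγ A)

theorem isAut_inv (G : SimpleGraph V) {γ : Equiv.Perm V} (hγ : IsAut G γ) : IsAut G γ⁻¹ := by
  intro x y
  rw [← hγ]
  simp

theorem inv_image_image (γ : Equiv.Perm V) (A : Set V) : (γ⁻¹ : Equiv.Perm V) '' (γ '' A) = A := by
  rw [Set.image_image]
  simp

theorem reach_image_iff (G : SimpleGraph V) {γ : Equiv.Perm V} (hγ : IsAut G γ) {A : Set V}
    {x y : V} : (within G (γ '' A)).Reachable (γ x) (γ y) ↔ (within G A).Reachable x y := by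
  constructor
  · intro h
    have h1 := reach_image G (isAut_inv G hγ) h
    rw [inv_image_image] at h1
    simpa using h1
  · exact reach_image G hγ

theorem comp_image (G : SimpleGraph V) {γ : Equiv.Perm V} (hγ : IsAut G γ) (K : Set V) (x : V) :
    γ '' comp G K x = comp G (γ '' K) (γ x) := by
  have hc : (γ '' K)ᶜ = γ '' Kᶜ := (Set.image_compl_eq γ.bijective).symm
  ext z
  constructor
  · rintro ⟨y, hy, rfl⟩
    have : (within G (γ '' K)ᶜ).Reachable (γ x) (γ y) := by
      rw [hc]
      exact reach_image G hγ hy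
    exact this
  · intro hz
    have hz' : (within G (γ '' K)ᶜ).Reachable (γ x) z := hz
    rw [hc] at hz'
    refine ⟨γ⁻¹ z, ?_, by simp⟩
    have : (within G (γ '' Kᶜ)).Reachable (γ x) (γ (γ⁻¹ z)) := by simpa using hz'
    exact (reach_image_iff G hγ).1 this

theorem dist_le_image (G : SimpleGraph V) {γ : Equiv.Perm V} (hγ : IsAut G γ) {x y : V}
    (h : G.Reachable x y) : G.dist (γ x) (γ y) ≤ G.dist x y := by
  obtain ⟨p, hp⟩ := h.exists_walk_length_eq_dist
  let f : G →g G := { toFun := γ, map_rel' := fun {a b} hab => (hγ a b).2 hab }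
  have h1 : G.dist (γ x) (γ y) ≤ (p.map f).length := SimpleGraph.dist_le (p.map f)
  rw [SimpleGraph.Walk.length_map] at h1
  omega

theorem reachable_image (G : SimpleGraph V) {γ : Equiv.Perm V} (hγ : IsAut G γ) {x y : V}
    (h : G.Reachable x y) : G.Reachable (γ x) (γ y) := by
  let f : G →g G := { toFun := γ, map_rel' := fun {a b} hab => (hγ a b).2 hab }
  exact h.map f

theorem dist_image' (G : SimpleGraph V) {γ : Equiv.Perm V} (hγ : IsAut G γ) (x y : V) :
    G.dist (γ x) (γ y) = G.dist x y := by
  by_cases h : G.Reachable x y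
  · apply le_antisymm (dist_le_image G hγ h)
    have h1 := dist_le_image G (isAut_inv G hγ) (reachable_image G hγ h)
    simpa using h1
  · have h' : ¬ G.Reachable (γ x) (γ y) := by
      intro h2
      apply h
      have h3 := reachable_image G (isAut_inv G hγ) h2
      simpa using h3
    rw [SimpleGraph.dist_eq_zero_of_not_reachable h, SimpleGraph.dist_eq_zero_of_not_reachable h']

theorem walkball_finite (G : SimpleGraph V) (hL : LocFinite G) (r : ℕ) :
    ∀ x : V, {y | ∃ p : G.Walk x y, p.length ≤ r}.Finite := by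
  induction r with
  | zero =>
    intro x
    refine (Set.finite_singleton x).subset ?_
    rintro y ⟨p, hp⟩
    have : p.length = 0 := by omega
    exact (SimpleGraph.Walk.eq_of_length_eq_zero this).symm
  | succ r ih =>
    intro x
    have hfin : ({x} ∪ ⋃ z ∈ G.neighborSet x, {y | ∃ p : G.Walk z y, p.length ≤ r}).Finite :=
      (Set.finite_singleton x).union ((hL x).biUnion (fun z _ => ih z))
    refine hfin.subset ?_
    rintro y ⟨p, hp⟩
    cases p with
    | nil => exact Or.inl rfl
    | @cons _ z _ h q =>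
      right
      simp only [Set.mem_iUnion]
      refine ⟨z, h, q, ?_⟩
      simp only [SimpleGraph.Walk.length_cons] at hp
      omega

theorem ball_finite' (G : SimpleGraph V) (hG : G.Connected) (hL : LocFinite G) (x : V) (r : ℕ) :
    {y | G.dist x y ≤ r}.Finite := by
  refine (walkball_finite G hL r x).subset ?_
  intro y hy
  obtain ⟨p, hp⟩ := (hG.preconnected x y).exists_walk_length_eq_dist
  exact ⟨p, by rw [hp]; exact hy⟩

theorem countable' (G : SimpleGraph V) (hG : G.Connected) (hL : LocFinite G) : Countable V := by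
  obtain ⟨x⟩ := hG.nonempty
  rw [← Set.countable_univ_iff]
  have : (Set.univ : Set V) = ⋃ r : ℕ, {y | G.dist x y ≤ r} := by
    ext y
    simp only [Set.mem_univ, Set.mem_iUnion, Set.mem_setOf_eq, true_iff]
    exact ⟨_, le_rfl⟩
  rw [this]
  exact Set.countable_iUnion (fun r => (ball_finite' G hG hL x r).countable)

theorem prf : Basics.{u} where
  ball_finite := fun V G hG hL x r => ball_finite' G hG hL x r
  countable := fun V G hG hL => countable' G hG hL
  comps_disjoint := fun V G K C hC => by
    rw [Set.disjoint_left]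
    intro y hy
    exact comp_disj G hC hy
  comps_eq := fun V G K C hC C' hC' ⟨z, hz, hz'⟩ => comps_eq' G hC hC' hz hz'
  exists_comp := fun V G K x hx => ⟨comp G K x, comp_mem_Comps G hx, mem_comp_self G K x⟩
  comps_nonempty := fun V G K C hC => comps_nonempty' G hC
  comps_conn := fun V G K C hC => comps_conn' G hC
  comps_closed := fun V G K C hC x hx y hxy hy => comps_closed' G hC hx hxy hy
  conn_subset := fun V G K A hA hAK C hC h => conn_subset' G hA hAK hC h
  comps_mono := fun V G K L hKL C hC => by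
    obtain ⟨x, hx, rfl⟩ := hC
    refine ⟨comp G K x, comp_mem_Comps G (fun h => hx (hKL h)), ?_⟩
    intro y hy
    exact reach_mono G (Set.compl_subset_compl.2 hKL) hy
  comps_adj := fun V G K hG hK C hC => comps_adj' G hG hK hC
  comps_finite := fun V G K hG hL hK => comps_finite' G hG hL hK
  compl_conn := fun V G K hG hK hKc C hC => compl_conn' G hG hK hKc hC
  comps_image := fun V G γ hγ K C hC => by
    obtain ⟨x, hx, rfl⟩ := hC
    refine ⟨γ x, ?_, comp_image G hγ K x⟩
    rintro ⟨y, hy, hxy⟩
    exact hx (γ.injective hxy ▸ hy)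
  conn_image := fun V G γ hγ A hA => by
    rintro _ ⟨x, hx, rfl⟩ _ ⟨y, hy, rfl⟩
    exact reach_image G hγ (hA x hx y hy)
  dist_image := fun V G γ hγ x y => dist_image' G hγ x y

end Pool.Agent.Work.MP_c58d8b_pr.NBASICS
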