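import Pool.Agent.Work.MP_c58d8b_pr.Stmts2

set_option autoImplicit false

namespace Pool.Agent.Work.MP_c58d8b_pr.NCLOSED

open MeasureTheory ProbabilityTheory Set
open scoped ENNReal unitInterval

universe u

variable {V : Type u}

/-- The edges which touch the ball of radius `r` around `v`. -/
def touch (G : SimpleGraph V) (r : ℕ) (v : V) : Set (Sym2 V) :=
  {e | e ∈ G.edgeSet ∧ ∃ y ∈ e, y ∈ ball G r v}

lemma touch_ball {G : SimpleGraph V} (hG : G.Connected) {r : ℕ} {v : V} {e : Sym2 V}
    (he : e ∈ touch G r v) : ∀ y ∈ e, y ∈ ball G (r + 1) v := by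
  obtain ⟨hE, z, hz, hzb⟩ := he
  induction e using Sym2.ind with
  | _ a b =>
    have hab : G.Adj a b := hE
    simp only [ball, mem_setOf_eq] at hzb ⊢
    have key : ∀ c d : V, G.Adj c d → G.dist v c ≤ r → G.dist v d ≤ r + 1 := by
      intro c d hcd h
      have h1 := hG.dist_triangle (u := v) (v := c) (w := d)
      have h2 : G.dist c d = 1 := SimpleGraph.dist_eq_one_iff_adj.2 hcd
      omega
    intro y hy
    rcases Sym2.mem_iff.1 hz with rfl | rfl <;> rcases Sym2.mem_iff.1 hy with rfl | rfl
    · omega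
    · exact key _ _ hab hzb
    · exact key _ _ hab.symm hzb
    · omega

lemma touch_finite (hb : Basics.{u}) {G : SimpleGraph V} (hG : G.Connected) (hl : LocFinite G)
    (r : ℕ) (v : V) : (touch G r v).Finite := by
  have hf : (ball G (r + 1) v).Finite := hb.ball_finite V G hG hl v (r + 1)
  refine ((hf.prod hf).image (fun q : V × V => s(q.1, q.2))).subset ?_
  intro e he
  have h := touch_ball hG he
  induction e using Sym2.ind with
  | _ a b =>
    exact ⟨(a, b), ⟨h a (Sym2.mem_mk_left a b), h b (Sym2.mem_mk_right a b)⟩, rfl⟩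

lemma touch_disjoint {G : SimpleGraph V} (hG : G.Connected) {r : ℕ} {v w : V}
    (h : Disjoint (ball G (r + 1) v) (ball G (r + 1) w)) :
    Disjoint (touch G r v) (touch G r w) := by
  rw [Set.disjoint_left]
  intro e he he'
  induction e using Sym2.ind with
  | _ a b =>
    exact Set.disjoint_left.1 h (touch_ball hG he a (Sym2.mem_mk_left a b))
      (touch_ball hG he' a (Sym2.mem_mk_left a b))

lemma touch_image (hb : Basics.{u}) {G : SimpleGraph V} (γ : Equiv.Perm V)
    (hγ : IsAut G γ) (r : ℕ) (v : V) :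
    touch G r (γ v) = Sym2.map γ '' touch G r v := by
  have hd := hb.dist_image V G γ hγ
  ext e
  constructor
  · rintro ⟨hE, y, hy, hyb⟩
    refine ⟨Sym2.map γ.symm e, ⟨?_, γ.symm y, ?_, ?_⟩, ?_⟩
    · induction e using Sym2.ind with
      | _ a b =>
        have : G.Adj a b := hE
        rw [Sym2.map_mk]
        change G.Adj (γ.symm a) (γ.symm b)
        rw [← hγ]
        simpa using this
    · exact Sym2.mem_map.2 ⟨y, hy, rfl⟩
    · simp only [ball, mem_setOf_eq] at hyb ⊢
      rw [← hd]
      simpa using hyb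
    · rw [Sym2.map_map]
      simp
  · rintro ⟨e', ⟨hE, y, hy, hyb⟩, rfl⟩
    refine ⟨?_, γ y, Sym2.mem_map.2 ⟨y, hy, rfl⟩, ?_⟩
    · induction e' using Sym2.ind with
      | _ a b =>
        rw [Sym2.map_mk]
        change G.Adj (γ a) (γ b)
        rw [hγ]
        exact hE
    · simp only [ball, mem_setOf_eq] at hyb ⊢
      rw [hd]
      exact hyb

lemma closedAt_of_disjoint {G : SimpleGraph V} {r : ℕ} {s : Set (Sym2 V)} {v : V}
    (hs : s ⊆ G.edgeSet) (h : Disjoint s (touch G r v)) : closedAt G r s v := by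
  intro e he y hy hyb
  exact Set.disjoint_left.1 h he ⟨hs he, y, hy, hyb⟩

lemma meas_disjoint {ι : Type u} {E : Set ι} (hE : E.Finite) :
    MeasurableSet {s : Set ι | Disjoint s E} := by
  have : {s : Set ι | Disjoint s E} = ⋂ e ∈ E, {s : Set ι | e ∈ s}ᶜ := by
    ext s
    simp only [mem_setOf_eq, mem_iInter, mem_compl_iff]
    rw [Set.disjoint_right]
  rw [this]
  exact hE.measurableSet_biInter fun e _ =>
    (measurableSet_setOf.2 (measurable_set_mem e)).compl

theorem prf (hb : Basics.{u}) (hc : CylStmt.{u}) (hi : IndepStmt.{u}) : ClosedStmt.{u} := by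
  intro V _ G Γ hG hl hP hT p hp r W hW
  -- the sequence
  obtain ⟨v, hvW, hvd⟩ : ∃ v : ℕ → V, (∀ n, v n ∈ W) ∧ ∀ m n, m < n →
      Disjoint (ball G (r + 1) (v n)) (ball G (r + 1) (v m)) := by
    apply exists_seq_of_forall_finset_exists (P := fun x => x ∈ W)
      (r := fun x y => Disjoint (ball G (r + 1) y) (ball G (r + 1) x))
    intro S _
    obtain ⟨y, hyW, hy⟩ := hW (⋃ x ∈ S, ball G (r + 1) x)
      (S.finite_toSet.biUnion fun x _ => hb.ball_finite V G hG hl x (r + 1))
    refine ⟨y, hyW, fun x hx => hy.mono_right ?_⟩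
    exact Set.subset_biUnion_of_mem (u := fun x => ball G (r + 1) x) hx
  set D := (touch G r (v 0)).ncard with hD
  have hcard : ∀ n, (touch G r (v n)).ncard = D := by
    intro n
    obtain ⟨γ, hγ, hγv⟩ := hT (v 0) (v n)
    rw [← hγv, touch_image hb γ (fun x y => hP γ hγ x y),
      Set.ncard_image_of_injective _ (Sym2.map.injective γ.injective)]
  set q : ℝ≥0∞ := ENNReal.ofReal (1 - (p : ℝ)) ^ D with hq
  have hq0 : 0 < q := by
    apply ENNReal.pow_pos
    simpa using hp
  have hprob : IsProbabilityMeasure (perc G p) := by unfold perc; infer_instance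
  have hdis : ∀ n, perc G p {s | Disjoint s (touch G r (v n))} = q := by
    intro n
    have hf := touch_finite hb hG hl r (v n)
    have h := hc V G p hf.toFinset (by rw [hf.coe_toFinset]; exact fun e he => he.1)
    rw [hf.coe_toFinset] at h
    rw [h, hq, ← hcard n, Set.ncard_eq_toFinset_card _ hf]
  have hnd : ∀ n, perc G p {s | ¬ Disjoint s (touch G r (v n))} = 1 - q := by
    intro n
    have hm := meas_disjoint (touch_finite hb hG hl r (v n))
    have h := prob_compl_eq_one_sub (μ := perc G p) hm
    rw [hdis n] at h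
    exact h
  set A : ℕ → Set (Set (Sym2 V)) := fun n => {s | ∀ k < n, ¬ Disjoint s (touch G r (v k))}
    with hA
  have hAm : ∀ n, MeasurableSet (A n) := by
    intro n
    have : A n = ⋂ k ∈ Set.Iio n, {s : Set (Sym2 V) | Disjoint s (touch G r (v k))}ᶜ := by
      ext s
      simp [hA]
    rw [this]
    exact (Set.finite_Iio n).measurableSet_biInter fun k _ =>
      (meas_disjoint (touch_finite hb hG hl r (v k))).compl
  have hAn : ∀ n, perc G p (A n) ≤ (1 - q) ^ n := by
    intro n
    induction n with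
    | zero =>
      rw [pow_zero]
      exact prob_le_one
    | succ n ih =>
      set S : Set (Sym2 V) := ⋃ k ∈ Set.Iio n, touch G r (v k) with hS
      have hST : Disjoint S (touch G r (v n)) := by
        rw [hS, Set.disjoint_iUnion₂_left]
        intro k hk
        exact (touch_disjoint hG (hvd k n hk)).symm
      have h1 := hi (Sym2 V) G.edgeSet p S (touch G r (v n)) hST (A n)
        {s | ¬ Disjoint s (touch G r (v n))} (hAm n)
        (meas_disjoint (touch_finite hb hG hl r (v n))).compl
      have hEq1 : {s : Set (Sym2 V) | s ∩ S ∈ A n} = A n := by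
        ext s
        simp only [hA, mem_setOf_eq]
        refine forall₂_congr fun k hk => not_congr ?_
        have hkS : touch G r (v k) ⊆ S :=
          Set.subset_biUnion_of_mem (u := fun k => touch G r (v k)) (show k ∈ Set.Iio n from hk)
        rw [Set.disjoint_iff_inter_eq_empty, Set.disjoint_iff_inter_eq_empty, Set.inter_assoc,
          Set.inter_eq_self_of_subset_right hkS]
      have hEq2 : {s : Set (Sym2 V) | s ∩ touch G r (v n) ∈
          {s : Set (Sym2 V) | ¬ Disjoint s (touch G r (v n))}} =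
          {s : Set (Sym2 V) | ¬ Disjoint s (touch G r (v n))} := by
        ext s
        simp only [mem_setOf_eq]
        rw [Set.disjoint_iff_inter_eq_empty, Set.disjoint_iff_inter_eq_empty, Set.inter_assoc,
          Set.inter_self]
      have hEq3 : {s : Set (Sym2 V) | s ∩ S ∈ A n ∧ s ∩ touch G r (v n) ∈
          {s : Set (Sym2 V) | ¬ Disjoint s (touch G r (v n))}} = A (n + 1) := by
        have : {s : Set (Sym2 V) | s ∩ S ∈ A n ∧ s ∩ touch G r (v n) ∈
          {s : Set (Sym2 V) | ¬ Disjoint s (touch G r (v n))}} =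
          {s : Set (Sym2 V) | s ∩ S ∈ A n} ∩ {s : Set (Sym2 V) | s ∩ touch G r (v n) ∈
          {s : Set (Sym2 V) | ¬ Disjoint s (touch G r (v n))}} := rfl
        rw [this, hEq1, hEq2]
        ext s
        simp only [hA, mem_inter_iff, mem_setOf_eq, Nat.lt_succ_iff_lt_or_eq]
        constructor
        · rintro ⟨h, h'⟩ k (hk | rfl)
          · exact h k hk
          · exact h'
        · intro h
          exact ⟨fun k hk => h k (Or.inl hk), h n (Or.inr rfl)⟩
      rw [hEq3, hEq1, hEq2] at h1
      change perc G p (A (n + 1)) = perc G p (A n) *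
        perc G p {s | ¬ Disjoint s (touch G r (v n))} at h1
      rw [h1, hnd n, pow_succ]
      gcongr
  have hnull : perc G p {s | ∀ k, ¬ Disjoint s (touch G r (v k))} = 0 := by
    have h1 : (1 - q) < 1 := ENNReal.sub_lt_self ENNReal.one_ne_top one_ne_zero hq0.ne'
    have h2 := ENNReal.tendsto_pow_atTop_nhds_zero_of_lt_one h1
    have h3 : ∀ n, perc G p {s | ∀ k, ¬ Disjoint s (touch G r (v k))} ≤ (1 - q) ^ n := by
      intro n
      refine (measure_mono ?_).trans (hAn n)
      intro s hs k _
      exact hs k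
    exact le_antisymm (ge_of_tendsto' h2 h3) bot_le
  have hae1 : ∀ᵐ s ∂(perc G p), s ⊆ G.edgeSet := setBernoulli_ae_subset
  have hae2 : ∀ᵐ s ∂(perc G p), ¬ ∀ k, ¬ Disjoint s (touch G r (v k)) := by
    rw [ae_iff]
    simpa using hnull
  filter_upwards [hae1, hae2] with s hs1 hs2
  push Not at hs2
  obtain ⟨k, hk⟩ := hs2
  exact ⟨v k, hvW k, closedAt_of_disjoint hs1 hk⟩

end Pool.Agent.Work.MP_c58d8b_pr.NCLOSED
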