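import Pool.Agent.Work.MP_c58d8b_pr.Stmts2

set_option autoImplicit false

namespace Pool.Agent.Work.MP_c58d8b_pr.NCONST

open MeasureTheory ProbabilityTheory Set

universe u

variable {V : Type u}

theorem mem_hull_of_adj (hb : Basics.{u}) (G : SimpleGraph V) (ξ : Set V → Set V)
    (hG : G.Connected) (lG : LocFinite G) (hξ : ∀ K : Set V, K.Finite → ξ K ∈ Comps G K) (r : ℕ)
    (s : Set (Sym2 V)) (hs : s ⊆ G.edgeSet) (x x' v : V) (hxx : s(x, x') ∈ s)
    (hv : closedAt G r s v) (hx : x ∈ hull G ξ r v) : x' ∈ hull G ξ r v := by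
  have h1 : x ∉ ball G r v := hv _ hxx x (by simp)
  have h2 : x' ∉ ball G r v := hv _ hxx x' (by simp)
  have hadj : G.Adj x x' := hs hxx
  have hfin : (ball G r v).Finite := hb.ball_finite V G hG lG v r
  rcases hx with h | h
  · exact absurd h h1
  · exact Or.inr (hb.comps_closed V G _ _ (hξ _ hfin) x h x' hadj h2)

theorem up_eq (hb : Basics.{u}) (G : SimpleGraph V) (ξ : Set V → Set V)
    (hG : G.Connected) (lG : LocFinite G) (hξ : ∀ K : Set V, K.Finite → ξ K ∈ Comps G K) (r : ℕ)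
    (s : Set (Sym2 V)) (hs : s ⊆ G.edgeSet) (x x' : V)
    (h : (SimpleGraph.fromEdgeSet s).Reachable x x') :
    Up G ξ r {v | closedAt G r s v} x = Up G ξ r {v | closedAt G r s v} x' := by
  obtain ⟨w⟩ := h
  induction w with
  | nil => rfl
  | @cons a b c hab w ih =>
    rw [← ih]
    have hab' : s(a, b) ∈ s := by
      rw [SimpleGraph.fromEdgeSet_adj] at hab
      exact hab.1
    have hba' : s(b, a) ∈ s := by rw [Sym2.eq_swap]; exact hab'
    ext v
    simp only [Up, mem_ofPred_eq]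
    constructor
    · rintro ⟨hv, hx⟩
      exact ⟨hv, fun h => hx (mem_hull_of_adj hb G ξ hG lG hξ r s hs b a v hba' hv h)⟩
    · rintro ⟨hv, hx⟩
      exact ⟨hv, fun h => hx (mem_hull_of_adj hb G ξ hG lG hξ r s hs a b v hab' hv h)⟩

theorem prf (hb : Basics.{u}) : ConstStmt.{u} := by
  intro V G ξ hG lG hξ r s hs x x' hx'
  unfold Low
  rw [up_eq hb G ξ hG lG hξ r s hs x x' hx']

end Pool.Agent.Work.MP_c58d8b_pr.NCONST
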