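import Pool.Agent.Work.MP_c58d8b_pr.Stmts

/-!
# The union bound over choice functions (item CUT of MP_c58d8b_pr)
-/

set_option autoImplicit false

namespace Pool.Agent.Work.MP_c58d8b_pr.NCUT

open MeasureTheory ProbabilityTheory Set
open scoped ENNReal unitInterval

universe u

/-- The image of a choice function. -/
noncomputable def im {V : Type u} (B : Finset (List Bool)) (f : ∀ a ∈ B, Sym2 V) :
    Finset (Sym2 V) :=
  open Classical in B.attach.image fun b => f b.1 b.2

theorem mem_im {V : Type u} {B : Finset (List Bool)} {f : ∀ a ∈ B, Sym2 V} {e : Sym2 V} :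
    e ∈ im B f ↔ ∃ b, ∃ h : b ∈ B, f b h = e := by
  classical
  unfold im
  simp only [Finset.mem_image, Finset.mem_attach, true_and, Subtype.exists]

theorem card_le {V : Type u} {B : Finset (List Bool)} {E : List Bool → Finset (Sym2 V)} {M : ℕ}
    (hM : ∀ (e : Sym2 V) (B : Finset (List Bool)), (∀ b ∈ B, e ∈ E b) → B.card ≤ M)
    {f : ∀ a ∈ B, Sym2 V} (hf : f ∈ (open Classical in B.pi E)) :
    B.card ≤ M * (im B f).card := by
  classical
  have h1 : B.card = B.attach.card := (Finset.card_attach).symm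
  rw [h1]
  unfold im
  refine Finset.card_le_mul_card_image _ _ fun e _ => ?_
  have h2 : (B.attach.filter fun b => f b.1 b.2 = e).card =
      ((B.attach.filter fun b => f b.1 b.2 = e).image Subtype.val).card :=
    (Finset.card_image_of_injective _ Subtype.val_injective).symm
  rw [h2]
  refine hM e _ fun b hb => ?_
  rw [Finset.mem_image] at hb
  obtain ⟨c, hc, rfl⟩ := hb
  rw [Finset.mem_filter] at hc
  rw [← hc.2]
  exact Finset.mem_pi.1 hf c.1 c.2

theorem prf (hc : CylStmt.{u}) : CutStmt.{u} := by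
  intro V _ G p E L M β hE hL hM hβ hp B
  classical
  have hsub : (⋂ b ∈ B, {s : Set (Sym2 V) | ¬ (E b : Set (Sym2 V)) ⊆ s}) ⊆
      ⋃ f ∈ B.pi E, {s | Disjoint s (im B f : Set (Sym2 V))} := by
    intro s hs
    rw [mem_iInter₂] at hs
    have hs' : ∀ b ∈ B, ∃ e, e ∈ E b ∧ e ∉ s := by
      intro b hb
      have h := hs b hb
      have h' : ¬ (E b : Set (Sym2 V)) ⊆ s := h
      rw [Set.not_subset] at h'
      obtain ⟨e, he, hes⟩ := h'
      exact ⟨e, by simpa using he, hes⟩
    choose f hf1 hf2 using hs'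
    rw [mem_iUnion₂]
    refine ⟨f, Finset.mem_pi.2 fun b hb => hf1 b hb, ?_⟩
    change Disjoint s (im B f : Set (Sym2 V))
    rw [Set.disjoint_left]
    intro e hes he
    rw [Finset.mem_coe, mem_im] at he
    obtain ⟨b, hb, rfl⟩ := he
    exact hf2 b hb hes
  have hone : ∀ f ∈ B.pi E, perc G p {s | Disjoint s (im B f : Set (Sym2 V))} ≤ β ^ B.card := by
    intro f hf
    have hed : (im B f : Set (Sym2 V)) ⊆ G.edgeSet := by
      intro e he
      rw [Finset.mem_coe, mem_im] at he
      obtain ⟨b, hb, rfl⟩ := he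
      exact hE b (by simpa using Finset.mem_pi.1 hf b hb)
    rw [hc V G p (im B f) hed]
    calc ENNReal.ofReal (1 - (p : ℝ)) ^ (im B f).card
        ≤ (β ^ M) ^ (im B f).card := pow_le_pow_left' hp _
      _ = β ^ (M * (im B f).card) := (pow_mul _ _ _).symm
      _ ≤ β ^ B.card := pow_le_pow_right_of_le_one' hβ (card_le hM hf)
  calc perc G p (⋂ b ∈ B, {s | ¬ (E b : Set (Sym2 V)) ⊆ s})
      ≤ perc G p (⋃ f ∈ B.pi E, {s | Disjoint s (im B f : Set (Sym2 V))}) := measure_mono hsub
    _ ≤ ∑ f ∈ B.pi E, perc G p {s | Disjoint s (im B f : Set (Sym2 V))} :=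
        measure_biUnion_finset_le _ _
    _ ≤ ∑ _f ∈ B.pi E, β ^ B.card := Finset.sum_le_sum hone
    _ = ((B.pi E).card : ℝ≥0∞) * β ^ B.card := by rw [Finset.sum_const, nsmul_eq_mul]
    _ ≤ ((L ^ B.card : ℕ) : ℝ≥0∞) * β ^ B.card := by
        gcongr
        rw [Finset.card_pi]
        exact Finset.prod_le_pow_card _ _ _ fun b _ => hL b
    _ = (L * β) ^ B.card := by
        rw [mul_pow]
        push_cast
        rfl

end Pool.Agent.Work.MP_c58d8b_pr.NCUT
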