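import Pool.Agent.Work.MP_c58d8b_pr.Stmts

set_option autoImplicit false

namespace Pool.Agent.Work.MP_c58d8b_pr.NCYL

open MeasureTheory ProbabilityTheory Set
open scoped ENNReal unitInterval

universe u

theorem prf : CylStmt.{u} := by
  intro V _ G p B hB
  classical
  unfold perc
  rw [setBernoulli_apply']
  have h1 : ((fun q : Sym2 V → Prop ↦ {i | q i}) ⁻¹' {s | Disjoint s (B : Set (Sym2 V))})
      = Set.pi (B : Set (Sym2 V)) (fun _ => ({False} : Set Prop)) := by
    ext q
    simp only [Set.mem_preimage, Set.mem_ofPred_eq, Set.mem_pi, Finset.mem_coe,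
      Set.mem_singleton_iff]
    rw [Set.disjoint_left]
    constructor
    · intro h i hi
      have h2 : ¬ q i := fun h3 => h h3 hi
      simpa using h2
    · intro h i hi hiB
      have h2 := h i hiB
      rw [Set.mem_ofPred_eq, h2] at hi
      exact hi
  rw [h1, Measure.infinitePi_pi _ (by intro i hi; exact MeasurableSet.of_discrete)]
  have h3 : ∀ i ∈ B, (unitInterval.toNNReal p • Measure.dirac (i ∈ G.edgeSet)
      + unitInterval.toNNReal (σ p) • Measure.dirac False : Measure Prop) {False}
      = ENNReal.ofReal (1 - (p : ℝ)) := by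
    intro i hi
    have h4 : i ∈ G.edgeSet := hB hi
    have h5 : ((unitInterval.toNNReal (σ p) : NNReal) : ℝ≥0∞) = ENNReal.ofReal (1 - (p : ℝ)) := by
      rw [← ENNReal.ofReal_coe_nnreal, unitInterval.coe_toNNReal, unitInterval.coe_symm_eq]
    simpa [h4] using h5
  rw [Finset.prod_congr rfl h3, Finset.prod_const]

end Pool.Agent.Work.MP_c58d8b_pr.NCYL
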