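import Pool.Agent.Work.MP_c58d8b_pr.Stmts

set_option autoImplicit false

namespace Pool.Agent.Work.MP_c58d8b_pr.NSPECIAL

open MeasureTheory ProbabilityTheory Set

universe u

variable {V : Type u}

theorem isAut_of_mem {G : SimpleGraph V} {Γ : Subgroup (Equiv.Perm V)} (hΓ : Preserves Γ G)
    {g : Equiv.Perm V} (hg : g ∈ Γ) : IsAut G g := fun x y => hΓ g hg x y

theorem image_mul (g h : Equiv.Perm V) (A : Set V) : (g * h) '' A = g '' (h '' A) := by
  rw [Set.image_image]; rfl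

/-- A walk which starts outside a set and ends inside it enters the set. -/
theorem walk_enters {G : SimpleGraph V} (A : Set V) {x y : V} (w : G.Walk x y)
    (hx : x ∉ A) (hy : y ∈ A) : ∃ u ∈ w.support, u ∉ A ∧ ∃ v ∈ A, G.Adj u v := by
  induction w with
  | nil => exact absurd hy hx
  | @cons a b c hab w ih =>
    by_cases hb : b ∈ A
    · exact ⟨a, by simp, hx, b, hb, hab⟩
    · obtain ⟨u, hu, h1, h2⟩ := ih hb hy
      exact ⟨u, by simp [hu], h1, h2⟩

theorem prf (hb : Basics.{u}) (hp : PushStmt.{u}) : SpecialStmt.{u} := by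
  intro V G Γ K hG hLF hΓ hT hKf hKn hKc hInf c hc hR0 hspec
  obtain ⟨R₀, hR₀, hR₀c⟩ := hR0
  obtain ⟨hp1, hp2⟩ := hp V G Γ K hG hLF hΓ hT hKf hKn hKc
  obtain ⟨k₀, hk₀⟩ := hKn
  -- the element `a`
  obtain ⟨a, ha, haR⟩ : ∃ a ∈ Γ, a '' R₀ᶜ ⊆ c := by
    obtain ⟨g, hg, hgd, hgK⟩ := hp2 R₀ hR₀ (hInf R₀ hR₀)
    obtain ⟨D, hD, R, hR, hKD, hKR, hgT⟩ := hp1 g hg hgd
    have hRR : R = R₀ := hb.comps_eq V G K R hR R₀ hR₀
      ⟨g k₀, hKR ⟨k₀, hk₀, rfl⟩, hgK ⟨k₀, hk₀, rfl⟩⟩
    subst hRR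
    have hDc : D = c := by
      rcases hspec D hD R hR ⟨g, hgT⟩ with h | h
      · exact h
      · exact absurd h hR₀c
    subst hDc
    refine ⟨g⁻¹, Γ.inv_mem hg, ?_⟩
    rintro _ ⟨x, hx, rfl⟩
    by_contra hcon
    apply hx
    have := hgT.2 ⟨g⁻¹ x, hcon, rfl⟩
    simpa using this
  have hcR : c ⊆ R₀ᶜ := by
    intro x hx hx'
    exact hR₀c (hb.comps_eq V G K R₀ hR₀ c hc ⟨x, hx', hx⟩)
  have hKR : K ⊆ R₀ᶜ := by
    intro x hx hx'
    exact (Set.disjoint_left.1 (hb.comps_disjoint V G K R₀ hR₀)) hx' hx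
  have hac : a '' c ⊆ c := (Set.image_mono hcR).trans haR
  have haK : a '' K ⊆ c := (Set.image_mono hKR).trans haR
  have hcK : Disjoint c K := hb.comps_disjoint V G K c hc
  have han : ∀ n : ℕ, a ^ n ∈ Γ := fun n => Γ.pow_mem ha n
  set A : ℕ → Set V := fun n => (a ^ n : Equiv.Perm V) '' c with hA
  set P : ℕ → Set V := fun n => (a ^ n : Equiv.Perm V) '' K with hP
  have hAsucc : ∀ n, A (n + 1) ⊆ A n := by
    intro n
    simp only [hA, pow_succ, image_mul]
    exact Set.image_mono hac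
  have hAanti : Antitone A := antitone_nat_of_succ_le hAsucc
  have hA0 : ∀ n, A n ⊆ c := by
    intro n
    have := hAanti (Nat.zero_le n)
    simpa [hA] using this
  have hPA : ∀ n, P (n + 1) ⊆ A n := by
    intro n
    simp only [hA, hP, pow_succ, image_mul]
    exact Set.image_mono haK
  have hAPd : ∀ n, Disjoint (A n) (P n) := by
    intro n
    simp only [hA, hP]
    exact (Set.disjoint_image_iff (Equiv.injective _)).2 hcK
  have hPdis : ∀ m n, n < m → Disjoint (P m) (P n) := by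
    intro m n hnm
    obtain ⟨k, rfl⟩ : ∃ k, m = k + 1 := ⟨m - 1, by omega⟩
    refine Disjoint.mono_left ((hPA k).trans (hAanti (by omega : n ≤ k))) (hAPd n)
  have hAcomp : ∀ n, A n ∈ Comps G (P n) := fun n =>
    hb.comps_image V G _ (isAut_of_mem hΓ (han n)) K c hc
  have hAconn : ∀ n, Conn G (A n) := fun n => hb.comps_conn V G _ _ (hAcomp n)
  have hAinf : ∀ n, (A n).Infinite := fun n => (hInf c hc).image (Equiv.injective _).injOn
  have hAne : ∀ n, (A n).Nonempty := fun n => (hAinf n).nonempty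
  -- the intersection of all `A n` is empty
  have hint : ∀ y, ∃ n, y ∉ A n := by
    intro y
    by_contra hcon
    push Not at hcon
    obtain ⟨w⟩ := hG.preconnected k₀ y
    have hk : ∀ n, k₀ ∉ A n := fun n h => Set.disjoint_left.1 hcK (hA0 n h) hk₀
    have hex : ∀ n, ∃ u ∈ w.support, u ∈ P n := by
      intro n
      obtain ⟨u, hu, hu1, v, hv, huv⟩ := walk_enters (A n) w (hk n) (hcon n)
      refine ⟨u, hu, ?_⟩
      by_contra hup
      exact hu1 (hb.comps_closed V G (P n) (A n) (hAcomp n) v hv u huv.symm hup)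
    choose f hf1 hf2 using hex
    have hinj : Function.Injective f := by
      intro m n hmn
      rcases lt_trichotomy m n with h | h | h
      · exact absurd (hf2 n) (by
          rw [← hmn]; exact fun h' => Set.disjoint_left.1 (hPdis n m h) h' (hf2 m))
      · exact h
      · exact absurd (hf2 m) (by
          rw [hmn]; exact fun h' => Set.disjoint_left.1 (hPdis m n h) h' (hf2 n))
    have hfin : (Set.range f).Finite :=
      (List.finite_toSet w.support).subset (by rintro _ ⟨n, rfl⟩; exact hf1 n)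
    exact Set.infinite_range_of_injective hinj hfin
  -- a finite set misses `A n` for large `n`
  have hmiss : ∀ F : Set V, F.Finite → ∃ n, ∀ m, n ≤ m → Disjoint (A m) F := by
    intro F hF
    choose n hn using hint
    obtain ⟨N, hN⟩ : BddAbove (n '' F) := (hF.image n).bddAbove
    refine ⟨N, fun m hm => Set.disjoint_left.2 fun x hx hxF => ?_⟩
    exact hn x (hAanti ((hN ⟨x, hxF, rfl⟩).trans hm) hx)
  -- the component chosen by the end
  have hex : ∀ F : Set V, F.Finite → ∃ C ∈ Comps G F, ∃ n, A n ⊆ C := by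
    intro F hF
    obtain ⟨n, hn⟩ := hmiss F hF
    obtain ⟨x, hx⟩ := hAne n
    have hxF : x ∉ F := Set.disjoint_left.1 (hn n le_rfl) hx
    obtain ⟨C, hC, hxC⟩ := hb.exists_comp V G F x hxF
    exact ⟨C, hC, n, hb.conn_subset V G F (A n) (hAconn n) (hn n le_rfl) C hC ⟨x, hx, hxC⟩⟩
  have huniq : ∀ F : Set V, ∀ C ∈ Comps G F, ∀ C' ∈ Comps G F, ∀ n n', A n ⊆ C → A n' ⊆ C' →
      C = C' := by
    intro F C hC C' hC' n n' h h'
    obtain ⟨x, hx⟩ := hAne (max n n')
    exact hb.comps_eq V G F C hC C' hC'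
      ⟨x, h (hAanti (le_max_left _ _) hx), h' (hAanti (le_max_right _ _) hx)⟩
  set ξ : Set V → Set V := fun F => {x | ∃ C ∈ Comps G F, (∃ n, A n ⊆ C) ∧ x ∈ C} with hξ
  have hξeq : ∀ F : Set V, ∀ C ∈ Comps G F, ∀ n, A n ⊆ C → ξ F = C := by
    intro F C hC n hn
    ext x
    constructor
    · rintro ⟨C', hC', ⟨n', hn'⟩, hx⟩
      rwa [huniq F C hC C' hC' n n' hn hn']
    · intro hx
      exact ⟨C, hC, ⟨n, hn⟩, hx⟩
  refine ⟨ξ, ?_, ?_, ?_⟩
  · intro F hF
    obtain ⟨C, hC, n, hn⟩ := hex F hF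
    rw [hξeq F C hC n hn]
    exact ⟨hC, (hAinf n).mono hn⟩
  · intro F L hFL hL
    obtain ⟨C, hC, n, hn⟩ := hex L hL
    obtain ⟨C', hC', hCC'⟩ := hb.comps_mono V G F L hFL C hC
    rw [hξeq L C hC n hn, hξeq F C' hC' n (hn.trans hCC')]
    exact hCC'
  · intro γ hγ F hF
    obtain ⟨C, hC, n, hn⟩ := hex F hF
    rw [hξeq F C hC n hn]
    -- find `m` with `A m ⊆ γ '' A n`
    have hkey : ∃ m, A m ⊆ γ '' A n := by
      set b : Equiv.Perm V := γ * a ^ n with hbdef
      have hbΓ : b ∈ Γ := Γ.mul_mem hγ (han n)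
      obtain ⟨M, hM⟩ := hmiss (b '' K) (hKf.image _)
      refine ⟨M + 1, ?_⟩
      set h : Equiv.Perm V := b⁻¹ * a ^ (M + 1) with hh
      have hhΓ : h ∈ Γ := Γ.mul_mem (Γ.inv_mem hbΓ) (han _)
      have hbh : ∀ S : Set V, b '' (h '' S) = (a ^ (M + 1) : Equiv.Perm V) '' S := by
        intro S
        rw [← image_mul, hh, mul_inv_cancel_left]
      have hd1 : Disjoint (h '' K) K := by
        rw [← Set.disjoint_image_iff (Equiv.injective b), hbh]
        exact (hM M le_rfl).mono_left (hPA M)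
      have hd2 : Disjoint (h '' c) K := by
        rw [← Set.disjoint_image_iff (Equiv.injective b), hbh]
        exact hM (M + 1) (by omega)
      obtain ⟨D, hD, R, hR, hKD, hKR', hhT⟩ := hp1 h hhΓ hd1
      have hDc : D ≠ c := by
        rintro rfl
        exact Set.disjoint_left.1 hd2 (hKD hk₀) hk₀
      have hRc : R = c := by
        rcases hspec D hD R hR ⟨h, hhT⟩ with h' | h'
        · exact absurd h' hDc
        · exact h'
      subst hRc
      have hcD : R ⊆ Dᶜ := by
        intro x hx hx'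
        exact hDc (hb.comps_eq V G K D hD R hR ⟨x, hx', hx⟩)
      have hhc : h '' R ⊆ R := (Set.image_mono hcD).trans hhT.2
      have h3 := Set.image_mono (f := b) hhc
      rw [hbh, hbdef, image_mul] at h3
      exact h3
    obtain ⟨m, hm⟩ := hkey
    exact hξeq (γ '' F) (γ '' C) (hb.comps_image V G γ (isAut_of_mem hΓ hγ) F C hC) m
      (hm.trans (Set.image_mono hn))

end Pool.Agent.Work.MP_c58d8b_pr.NSPECIAL
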