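import Pool.Agent.Work.MP_c58d8b_pr.Stmts2
import Pool.Agent.Work.MP_c58d8b_pr.I_SPECIAL

set_option autoImplicit false

namespace Pool.Agent.Work.MP_c58d8b_pr.NDYN

open MeasureTheory ProbabilityTheory Set
open Pool.Agent.Work.MP_c58d8b_pr.NSPECIAL

universe u

variable {V : Type u}

theorem prf (hb : Basics.{u}) : DynStmt.{u} := by
  intro V G Γ K hG hLF hΓ hKf hKn c hc R₀ hR₀ hR₀c a ha haR
  obtain ⟨k₀, hk₀⟩ := hKn
  have hcR : c ⊆ R₀ᶜ := by
    intro x hx hx'
    exact hR₀c (hb.comps_eq V G K R₀ hR₀ c hc ⟨x, hx', hx⟩)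
  have hKR : K ⊆ R₀ᶜ := by
    intro x hx hx'
    exact (Set.disjoint_left.1 (hb.comps_disjoint V G K R₀ hR₀)) hx' hx
  have hac : a '' c ⊆ c := (Set.image_mono hcR).trans haR
  have haK : a '' K ⊆ c := (Set.image_mono hKR).trans haR
  have hcK : Disjoint c K := hb.comps_disjoint V G K c hc
  have han : ∀ n : ℕ, a ^ n ∈ Γ := fun n => Γ.pow_mem ha n
  set A : ℕ → Set V := fun n => (a ^ n : Equiv.Perm V) '' c with hA
  set P : ℕ → Set V := fun n => (a ^ n : Equiv.Perm V) '' K with hP
  have hAsucc : ∀ n, A (n + 1) ⊆ A n := by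
    intro n
    simp only [hA, pow_succ, image_mul]
    exact Set.image_mono hac
  have hAanti : Antitone A := antitone_nat_of_succ_le hAsucc
  have hA0 : ∀ n, A n ⊆ c := by
    intro n
    have := hAanti (Nat.zero_le n)
    simpa [hA] using this
  have hPA : ∀ n, P (n + 1) ⊆ A n := by
    intro n
    simp only [hA, hP, pow_succ, image_mul]
    exact Set.image_mono haK
  have hAPd : ∀ n, Disjoint (A n) (P n) := by
    intro n
    simp only [hA, hP]
    exact (Set.disjoint_image_iff (Equiv.injective _)).2 hcK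
  have hPdis : ∀ m n, n < m → Disjoint (P m) (P n) := by
    intro m n hnm
    obtain ⟨k, rfl⟩ : ∃ k, m = k + 1 := ⟨m - 1, by omega⟩
    refine Disjoint.mono_left ((hPA k).trans (hAanti (by omega : n ≤ k))) (hAPd n)
  have hAcomp : ∀ n, A n ∈ Comps G (P n) := fun n =>
    hb.comps_image V G _ (isAut_of_mem hΓ (han n)) K c hc
  have hint : ∀ y, ∃ n, y ∉ A n := by
    intro y
    by_contra hcon
    push Not at hcon
    obtain ⟨w⟩ := hG.preconnected k₀ y
    have hk : ∀ n, k₀ ∉ A n := fun n h => Set.disjoint_left.1 hcK (hA0 n h) hk₀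
    have hex : ∀ n, ∃ u ∈ w.support, u ∈ P n := by
      intro n
      obtain ⟨u, hu, hu1, v, hv, huv⟩ := walk_enters (A n) w (hk n) (hcon n)
      refine ⟨u, hu, ?_⟩
      by_contra hup
      exact hu1 (hb.comps_closed V G (P n) (A n) (hAcomp n) v hv u huv.symm hup)
    choose f hf1 hf2 using hex
    have hinj : Function.Injective f := by
      intro m n hmn
      rcases lt_trichotomy m n with h | h | h
      · exact absurd (hf2 n) (by
          rw [← hmn]; exact fun h' => Set.disjoint_left.1 (hPdis n m h) h' (hf2 m))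
      · exact h
      · exact absurd (hf2 m) (by
          rw [hmn]; exact fun h' => Set.disjoint_left.1 (hPdis m n h) h' (hf2 n))
    have hfin : (Set.range f).Finite :=
      (List.finite_toSet w.support).subset (by rintro _ ⟨n, rfl⟩; exact hf1 n)
    exact Set.infinite_range_of_injective hinj hfin
  refine ⟨hAsucc, ?_, ?_⟩
  · intro m n hmn
    rcases lt_or_gt_of_ne hmn with h | h
    · exact (hPdis n m h).symm
    · exact hPdis m n h
  · intro F hF
    choose n hn using hint
    obtain ⟨N, hN⟩ : BddAbove (n '' F) := (hF.image n).bddAbove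
    refine ⟨N, fun m hm => Set.disjoint_left.2 fun x hx hxF => ?_⟩
    exact hn x (hAanti ((hN ⟨x, hxF, rfl⟩).trans hm) hx)

end Pool.Agent.Work.MP_c58d8b_pr.NDYN
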