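import Pool.Agent.Work.MP_c58d8b_pr.Stmts2

set_option autoImplicit false

/-! Item EQV: the set of lowest closed vertices above a vertex is equivariant. -/

namespace Pool.Agent.Work.MP_c58d8b_pr.NEQV

open MeasureTheory ProbabilityTheory Set
open scoped ENNReal unitInterval

universe u

variable {V : Type u}

theorem ball_map (hb : Basics.{u}) {G : SimpleGraph V} {γ : Equiv.Perm V} (hγ : IsAut G γ) (r : ℕ)
    (v : V) : ball G r (γ v) = γ '' ball G r v := by
  ext y
  rw [Equiv.image_eq_preimage_symm]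
  simp only [ball, mem_setOf_eq, mem_preimage]
  have h := hb.dist_image V G γ hγ v (γ.symm y)
  rw [Equiv.apply_symm_apply] at h
  rw [h]

theorem hull_map (hb : Basics.{u}) {G : SimpleGraph V} {Γ : Subgroup (Equiv.Perm V)}
    {ξ : Set V → Set V} (hc : G.Connected) (hl : LocFinite G) (hΓ : Preserves Γ G)
    (hξ : IsFixedEnd G Γ ξ) {γ : Equiv.Perm V} (hγ : γ ∈ Γ) (r : ℕ) (v : V) :
    hull G ξ r (γ v) = γ '' hull G ξ r v := by
  unfold hull
  rw [image_union, ball_map hb (hΓ γ hγ),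
    hξ.inv γ hγ (ball G r v) (hb.ball_finite V G hc hl v r)]

theorem closedAt_map (hb : Basics.{u}) {G : SimpleGraph V} {γ : Equiv.Perm V} (hγ : IsAut G γ)
    (r : ℕ) (s : Set (Sym2 V)) (v : V) :
    closedAt G r (Sym2.map γ '' s) (γ v) ↔ closedAt G r s v := by
  unfold closedAt
  constructor
  · intro h e he y hy hyb
    refine h (Sym2.map γ e) (mem_image_of_mem _ he) (γ y) (Sym2.mem_map.2 ⟨y, hy, rfl⟩) ?_
    rw [ball_map hb hγ]
    exact mem_image_of_mem _ hyb
  · rintro h _ ⟨e, he, rfl⟩ y hy hyb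
    obtain ⟨a, ha, rfl⟩ := Sym2.mem_map.1 hy
    rw [ball_map hb hγ, mem_image_equiv, Equiv.symm_apply_apply] at hyb
    exact h e he a ha hyb

theorem up_map (hb : Basics.{u}) {G : SimpleGraph V} {Γ : Subgroup (Equiv.Perm V)}
    {ξ : Set V → Set V} (hc : G.Connected) (hl : LocFinite G) (hΓ : Preserves Γ G)
    (hξ : IsFixedEnd G Γ ξ) {γ : Equiv.Perm V} (hγ : γ ∈ Γ) (r : ℕ) (s : Set (Sym2 V)) (x v : V) :
    γ v ∈ Up G ξ r {v | closedAt G r (Sym2.map γ '' s) v} (γ x) ↔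
      v ∈ Up G ξ r {v | closedAt G r s v} x := by
  simp only [Up, mem_setOf_eq]
  rw [closedAt_map hb (hΓ γ hγ), hull_map hb hc hl hΓ hξ hγ, mem_image_equiv,
    Equiv.symm_apply_apply]

theorem prf (hb : Basics.{u}) : EqvStmt.{u} := by
  intro V G Γ ξ hc hl hΓ hξ γ hγ r s x
  ext y
  obtain ⟨v, rfl⟩ := γ.surjective y
  rw [mem_image_equiv, Equiv.symm_apply_apply]
  simp only [Low, mem_setOf_eq]
  rw [up_map hb hc hl hΓ hξ hγ]
  refine and_congr Iff.rfl ?_
  constructor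
  · intro h u hu hd
    refine h (γ u) ((up_map hb hc hl hΓ hξ hγ r s x u).2 hu) ?_
    rw [ball_map hb (hΓ γ hγ), hull_map hb hc hl hΓ hξ hγ]
    exact (disjoint_image_iff γ.injective).2 hd
  · intro h u hu hd
    obtain ⟨w, rfl⟩ := γ.surjective u
    refine h w ((up_map hb hc hl hΓ hξ hγ r s x w).1 hu) ?_
    rw [ball_map hb (hΓ γ hγ), hull_map hb hc hl hΓ hξ hγ] at hd
    exact (disjoint_image_iff γ.injective).1 hd

end Pool.Agent.Work.MP_c58d8b_pr.NEQV
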