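import Pool.Agent.Work.MP_c58d8b_pr.Stmts

set_option autoImplicit false

namespace Pool.Agent.Work.MP_c58d8b_pr.NFILL

open MeasureTheory ProbabilityTheory Set

universe u

variable {V : Type u}

theorem within_mono (G : SimpleGraph V) {A B : Set V} (h : A ⊆ B) : within G A ≤ within G B :=
  fun _ _ hab => ⟨hab.1, h hab.2.1, h hab.2.2⟩

theorem walk_within (G : SimpleGraph V) (A : Set V) {a b : V} (p : G.Walk a b)
    (h : ∀ z ∈ p.support, z ∈ A) : (within G A).Reachable a b := by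
  induction p with
  | nil => exact SimpleGraph.Reachable.refl _
  | @cons u v w hadj p ih =>
    have h1 : u ∈ A := h u (by simp)
    have h2 : v ∈ A := h v (by simp)
    have h3 : (within G A).Adj u v := ⟨hadj, h1, h2⟩
    exact h3.reachable.trans (ih fun z hz => h z (by simp [hz]))

theorem conn_of_base (G : SimpleGraph V) (A : Set V) (o : V)
    (h : ∀ x ∈ A, (within G A).Reachable o x) : Conn G A :=
  fun x hx y hy => (h x hx).symm.trans (h y hy)

theorem exists_K1 (G : SimpleGraph V) (hG : G.Connected) (o : V) (K₀ : Set V) (hK : K₀.Finite) :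
    ∃ K : Set V, K₀ ⊆ K ∧ o ∈ K ∧ K.Finite ∧ Conn G K := by
  classical
  have hw : ∀ x : V, Nonempty (G.Walk o x) := fun x => hG.preconnected o x
  let w : ∀ x : V, G.Walk o x := fun x => (hw x).some
  let K : Set V := {o} ∪ ⋃ x ∈ K₀, {z | z ∈ (w x).support}
  have hsub : ∀ x ∈ K₀, ∀ z ∈ (w x).support, z ∈ K := by
    intro x hx z hz
    refine Or.inr ?_
    simp only [mem_iUnion]
    exact ⟨x, hx, hz⟩
  refine ⟨K, ?_, Or.inl rfl, ?_, ?_⟩
  · intro x hx
    exact hsub x hx x (SimpleGraph.Walk.end_mem_support _)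
  · refine (finite_singleton o).union (hK.biUnion fun x _ => ?_)
    exact List.finite_toSet (w x).support
  · refine conn_of_base G K o ?_
    intro y hy
    rcases hy with hy | hy
    · have : y = o := hy
      subst this
      exact SimpleGraph.Reachable.refl _
    · simp only [mem_iUnion] at hy
      obtain ⟨x, hx, hy⟩ := hy
      refine walk_within G K ((w x).takeUntil y hy) ?_
      intro z hz
      exact hsub x hx z ((w x).support_takeUntil_subset_support hy hz)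

theorem prf (hb : Basics.{u}) : FillStmt.{u} := by
  classical
  intro V G hG hlf h3
  obtain ⟨K₀, hK₀, C₁, hC₁, C₂, hC₂, C₃, hC₃, i₁, i₂, i₃, n12, n13, n23⟩ := h3
  obtain ⟨o⟩ := hG.nonempty
  obtain ⟨K₁, h01, ho, hK₁, hconn⟩ := exists_K1 G hG o K₀ hK₀
  have hfin₁ : (Comps G K₁).Finite := hb.comps_finite V G K₁ hG hlf hK₁
  -- infinite components of `G - K₀` contain infinite components of `G - K₁`
  have key : ∀ C ∈ Comps G K₀, C.Infinite → ∃ C' ∈ Comps G K₁, C'.Infinite ∧ C' ⊆ C := by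
    intro C hC hinf
    by_contra hcon
    push Not at hcon
    apply hinf
    have hcov : C ⊆ K₁ ∪ ⋃₀ {C' ∈ Comps G K₁ | C' ⊆ C} := by
      intro x hx
      by_cases hxK : x ∈ K₁
      · exact Or.inl hxK
      · refine Or.inr ?_
        obtain ⟨C', hC', hxC'⟩ := hb.exists_comp V G K₁ x hxK
        obtain ⟨C'', hC'', hsub⟩ := hb.comps_mono V G K₀ K₁ h01 C' hC'
        have : C'' = C := hb.comps_eq V G K₀ C'' hC'' C hC ⟨x, hsub hxC', hx⟩
        subst this
        exact ⟨C', ⟨hC', hsub⟩, hxC'⟩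
    refine Set.Finite.subset (hK₁.union ?_) hcov
    refine Set.Finite.sUnion (hfin₁.subset fun C' hC' => hC'.1) ?_
    intro C' hC'
    by_contra hinf'
    exact hcon C' hC'.1 hinf' hC'.2
  obtain ⟨D₁, hD₁, j₁, s₁⟩ := key C₁ hC₁ i₁
  obtain ⟨D₂, hD₂, j₂, s₂⟩ := key C₂ hC₂ i₂
  obtain ⟨D₃, hD₃, j₃, s₃⟩ := key C₃ hC₃ i₃
  have hne : ∀ C ∈ Comps G K₀, ∀ C' ∈ Comps G K₀, C ≠ C' → ∀ D D' : Set V, D.Infinite →
      D ⊆ C → D' ⊆ C' → D ≠ D' := by
    intro C hC C' hC' hCC D D' hD hs hs' hDD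
    subst hDD
    obtain ⟨x, hx⟩ := hD.nonempty
    exact hCC (hb.comps_eq V G K₀ C hC C' hC' ⟨x, hs hx, hs' hx⟩)
  -- the set `K₂`
  let F : Set (Set V) := {C ∈ Comps G K₁ | C.Finite}
  let K₂ : Set V := K₁ ∪ ⋃₀ F
  have h12 : K₁ ⊆ K₂ := subset_union_left
  have hK₂ : K₂.Finite :=
    hK₁.union (Set.Finite.sUnion (hfin₁.subset fun C hC => hC.1) fun C hC => hC.2)
  have hdisj : ∀ C ∈ Comps G K₁, C.Infinite → Disjoint C K₂ := by
    intro C hC hinf
    rw [Set.disjoint_left]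
    intro x hx hxK
    rcases hxK with hxK | ⟨C', hC', hxC'⟩
    · exact Set.disjoint_left.1 (hb.comps_disjoint V G K₁ C hC) hx hxK
    · have : C = C' := hb.comps_eq V G K₁ C hC C' hC'.1 ⟨x, hx, hxC'⟩
      subst this
      exact hinf hC'.2
  have hbig : ∀ C ∈ Comps G K₁, C.Infinite → ∀ D ∈ Comps G K₂, (C ∩ D).Nonempty → C ⊆ D := by
    intro C hC hinf D hD hne
    exact hb.conn_subset V G K₂ C (hb.comps_conn V G K₁ C hC) (hdisj C hC hinf) D hD hne
  have hmem : ∀ C ∈ Comps G K₁, C.Infinite → C ∈ Comps G K₂ := by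
    intro C hC hinf
    obtain ⟨x, hx⟩ := hinf.nonempty
    have hxK : x ∉ K₂ := Set.disjoint_left.1 (hdisj C hC hinf) hx
    obtain ⟨D, hD, hxD⟩ := hb.exists_comp V G K₂ x hxK
    have h1 : C ⊆ D := hbig C hC hinf D hD ⟨x, hx, hxD⟩
    obtain ⟨E, hE, hDE⟩ := hb.comps_mono V G K₁ K₂ h12 D hD
    have h2 : E = C := hb.comps_eq V G K₁ E hE C hC ⟨x, hDE hxD, hx⟩
    subst h2
    have h3 : D = E := Set.Subset.antisymm hDE h1
    rw [← h3]
    exact hD
  refine ⟨K₂, hK₂, ⟨o, h12 ho⟩, ?_, ?_, D₁, hmem D₁ hD₁ j₁, D₂, hmem D₂ hD₂ j₂, D₃,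
    hmem D₃ hD₃ j₃, hne C₁ hC₁ C₂ hC₂ n12 D₁ D₂ j₁ s₁ s₂, hne C₁ hC₁ C₃ hC₃ n13 D₁ D₃ j₁ s₁ s₃,
    hne C₂ hC₂ C₃ hC₃ n23 D₂ D₃ j₂ s₂ s₃⟩
  · refine conn_of_base G K₂ o ?_
    have hb1 : ∀ x ∈ K₁, (within G K₂).Reachable o x := fun x hx =>
      (hconn o ho x hx).mono (within_mono G h12)
    intro x hx
    rcases hx with hx | ⟨C, hC, hxC⟩
    · exact hb1 x hx
    · have hCK : C ⊆ K₂ := fun z hz => Or.inr ⟨C, hC, hz⟩
      obtain ⟨a, ha, y, hy, hadj⟩ := hb.comps_adj V G K₁ hG ⟨o, ho⟩ C hC.1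
      have h1 : (within G K₂).Reachable a x :=
        (hb.comps_conn V G K₁ C hC.1 a ha x hxC).mono (within_mono G hCK)
      have h2 : (within G K₂).Adj y a := ⟨hadj.symm, h12 hy, hCK ha⟩
      exact ((hb1 y hy).trans h2.reachable).trans h1
  · intro D hD
    obtain ⟨x, hx⟩ := hb.comps_nonempty V G K₂ D hD
    have hxK : x ∉ K₂ := Set.disjoint_left.1 (hb.comps_disjoint V G K₂ D hD) hx
    obtain ⟨C, hC, hxC⟩ := hb.exists_comp V G K₁ x fun h => hxK (h12 h)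
    have hinf : C.Infinite := by
      intro hfin
      exact hxK (Or.inr ⟨C, ⟨hC, hfin⟩, hxC⟩)
    exact hinf.mono (hbig C hC hinf D hD ⟨x, hxC, hx⟩)

end Pool.Agent.Work.MP_c58d8b_pr.NFILL
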