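import Pool.Agent.Work.MP_c58d8b_pr.Stmts

set_option autoImplicit false

namespace Pool.Agent.Work.MP_c58d8b_pr.NFIXED

open MeasureTheory ProbabilityTheory Set
open Pool.Agent.Work.MP_c58d8b_pr

universe u

variable {V : Type u}

/-- The closed `R`-neighbourhood of `F` in `G`. -/
def thick (G : SimpleGraph V) (R : ℕ) (F : Set V) : Set V := {x | ∃ f ∈ F, G.dist f x ≤ R}

/-- A walk whose vertices are all in `A` is a walk in `within G A`. -/
theorem reachable_of_support (G : SimpleGraph V) (A : Set V) {x y : V} (p : G.Walk x y)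
    (h : ∀ v ∈ p.support, v ∈ A) : (within G A).Reachable x y := by
  induction p with
  | nil => exact SimpleGraph.Reachable.refl _
  | @cons a b c hab q ih =>
    have ha : a ∈ A := h a (by simp)
    have hb : b ∈ A := h b (by simp)
    have h1 : (within G A).Adj a b := ⟨hab, ha, hb⟩
    have h2 : (within G A).Reachable b c := ih (fun v hv => h v (by
      rw [SimpleGraph.Walk.support_cons]
      exact List.mem_cons_of_mem _ hv))
    exact h1.reachable.trans h2

theorem dist_le_of_mem_support (G : SimpleGraph V) {x y v : V} (p : G.Walk x y)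
    (hv : v ∈ p.support) : G.dist x v ≤ p.length := by
  classical
  exact (SimpleGraph.dist_le (p.takeUntil v hv)).trans (p.length_takeUntil_le_length hv)

/-- adjacent vertices of `G'` outside the neighbourhood of `F` are joined in `G - F`. -/
theorem key (G G' : SimpleGraph V) (hG : G.Connected) (R : ℕ)
    (hR : ∀ x y, G'.Adj x y → G.dist x y ≤ R) (F : Set V) {x y : V} (hx : x ∉ thick G R F)
    (hxy : G'.Adj x y) : (within G Fᶜ).Reachable x y := by
  obtain ⟨p, hp⟩ := hG.exists_walk_length_eq_dist x y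
  apply reachable_of_support G Fᶜ p
  intro v hv hvF
  apply hx
  refine ⟨v, hvF, ?_⟩
  rw [SimpleGraph.dist_comm]
  calc G.dist x v ≤ p.length := dist_le_of_mem_support G p hv
    _ = G.dist x y := hp
    _ ≤ R := hR x y hxy

theorem comp_sub (G G' : SimpleGraph V) (hG : G.Connected) (R : ℕ)
    (hR : ∀ x y, G'.Adj x y → G.dist x y ≤ R) (F : Set V) {x y : V}
    (h : (within G' (thick G R F)ᶜ).Reachable x y) : (within G Fᶜ).Reachable x y := by
  obtain ⟨p⟩ := h
  induction p with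
  | nil => exact SimpleGraph.Reachable.refl _
  | @cons a b c hab q ih =>
    exact (key G G' hG R hR F hab.2.1 hab.1).trans ih

theorem reach_map (G : SimpleGraph V) (γ : Equiv.Perm V) (hγ : IsAut G γ) (K : Set V) {x y : V}
    (h : (within G Kᶜ).Reachable x y) : (within G (γ '' K)ᶜ).Reachable (γ x) (γ y) := by
  have aux : ∀ a, a ∉ K → γ a ∉ γ '' K := by
    rintro a ha ⟨b, hb, hba⟩
    exact ha (γ.injective hba ▸ hb)
  exact h.map (G := within G Kᶜ) (G' := within G (γ '' K)ᶜ)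
    ⟨γ, fun {a b} hab => ⟨(hγ a b).2 hab.1, aux a hab.2.1, aux b hab.2.2⟩⟩

theorem thick_mono (G : SimpleGraph V) (R : ℕ) {K L : Set V} (h : K ⊆ L) :
    thick G R K ⊆ thick G R L := by
  rintro x ⟨f, hf, hfx⟩
  exact ⟨f, h hf, hfx⟩

theorem sub_thick (G : SimpleGraph V) (R : ℕ) (K : Set V) : K ⊆ thick G R K :=
  fun x hx => ⟨x, hx, by simp⟩

theorem thick_finite (hb : Basics.{u}) (G : SimpleGraph V) (hG : G.Connected)
    (hf : LocFinite G) (R : ℕ) {K : Set V} (hK : K.Finite) : (thick G R K).Finite := by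
  have : thick G R K = ⋃ f ∈ K, {y | G.dist f y ≤ R} := by
    ext x
    simp [thick]
  rw [this]
  exact hK.biUnion (fun f _ => hb.ball_finite V G hG hf f R)

theorem thick_image (hb : Basics.{u}) (G : SimpleGraph V) (γ : Equiv.Perm V) (hγ : IsAut G γ)
    (R : ℕ) (K : Set V) : thick G R (γ '' K) = γ '' thick G R K := by
  ext x
  constructor
  · rintro ⟨_, ⟨f, hf, rfl⟩, hfx⟩
    refine ⟨γ.symm x, ⟨f, hf, ?_⟩, by simp⟩
    rw [← hb.dist_image V G γ hγ f (γ.symm x)]
    simpa using hfx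
  · rintro ⟨x, ⟨f, hf, hfx⟩, rfl⟩
    exact ⟨γ f, ⟨f, hf, rfl⟩, by rw [hb.dist_image V G γ hγ]; exact hfx⟩

theorem exists_bound (hb : Basics.{u}) (G G' : SimpleGraph V) (Γ : Subgroup (Equiv.Perm V))
    (hG : G.Connected) (hf' : LocFinite G') (hP : Preserves Γ G) (hP' : Preserves Γ G')
    (hT : Transitive Γ) : ∃ R : ℕ, ∀ x y, G'.Adj x y → G.dist x y ≤ R := by
  obtain ⟨o⟩ := hG.nonempty
  have hfin : ((fun y => G.dist o y) '' (G'.neighborSet o)).Finite := (hf' o).image _
  obtain ⟨R, hR⟩ := hfin.bddAbove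
  refine ⟨R, fun x y hxy => ?_⟩
  obtain ⟨γ, hγ, hγx⟩ := hT x o
  have h1 : G'.Adj o (γ y) := by
    rw [← hγx]
    exact (hP' γ hγ x y).2 hxy
  have h2 : G.dist x y = G.dist o (γ y) := by
    rw [← hγx, hb.dist_image V G γ (hP γ hγ)]
  rw [h2]
  exact hR ⟨γ y, h1, rfl⟩

theorem prf (hb : Basics.{u}) : FixedStmt.{u} := by
  intro V G G' Γ hG hG' hf hf' hP hP' hT hE
  obtain ⟨R, hR⟩ := exists_bound hb G G' Γ hG hf' hP hP' hT
  obtain ⟨ξ', h1, h2, h3⟩ := hE
  refine ⟨fun F => {y | ∃ x ∈ ξ' (thick G R F), (within G Fᶜ).Reachable x y}, ?_, ?_, ?_⟩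
  · intro K hK
    obtain ⟨hC, hInf⟩ := h1 (thick G R K) (thick_finite hb G hG hf R hK)
    constructor
    · obtain ⟨x₀, hx₀, hx₀'⟩ := hC
      refine ⟨x₀, fun h => hx₀ (sub_thick G R K h), ?_⟩
      ext y
      constructor
      · rintro ⟨x, hx, hxy⟩
        rw [hx₀'] at hx
        exact (comp_sub G G' hG R hR K hx).trans hxy
      · intro hy
        refine ⟨x₀, ?_, hy⟩
        rw [hx₀']
        exact SimpleGraph.Reachable.refl _
    · refine hInf.mono ?_
      intro x hx
      exact ⟨x, hx, SimpleGraph.Reachable.refl _⟩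
  · intro K L hKL hL
    rintro y ⟨x, hx, hxy⟩
    refine ⟨x, h2 _ _ (thick_mono G R hKL) (thick_finite hb G hG hf R hL) hx, ?_⟩
    refine hxy.mono ?_
    intro a b hab
    exact ⟨hab.1, fun h => hab.2.1 (hKL h), fun h => hab.2.2 (hKL h)⟩
  · intro γ hγ K hK
    have hKf := thick_finite hb G hG hf R hK
    have e1 : ξ' (thick G R (γ '' K)) = γ '' ξ' (thick G R K) := by
      rw [thick_image hb G γ (hP γ hγ), h3 γ hγ _ hKf]
    ext y
    constructor
    · rintro ⟨x, hx, hxy⟩
      rw [e1] at hx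
      obtain ⟨x', hx', rfl⟩ := hx
      refine ⟨γ.symm y, ⟨x', hx', ?_⟩, by simp⟩
      have h4 := reach_map G γ⁻¹ (hP γ⁻¹ (Γ.inv_mem hγ)) (γ '' K) hxy
      have h5 : (γ⁻¹ : Equiv.Perm V) '' (γ '' K) = K := by
        rw [← Set.image_comp]
        have : (⇑(γ⁻¹ : Equiv.Perm V) ∘ ⇑γ) = id := by
          funext a
          simp
        rw [this, Set.image_id]
      rw [h5] at h4
      simpa using h4
    · rintro ⟨y', ⟨x', hx', hxy'⟩, rfl⟩
      refine ⟨γ x', ?_, reach_map G γ (hP γ hγ) K hxy'⟩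
      rw [e1]
      exact ⟨x', hx', rfl⟩

end Pool.Agent.Work.MP_c58d8b_pr.NFIXED
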