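import Pool.Agent.Work.MP_c58d8b_pr.Stmts

set_option autoImplicit false

namespace Pool.Agent.Work.MP_c58d8b_pr.NFREE

open MeasureTheory ProbabilityTheory Set
open Pool.Agent.Work.MP_c58d8b_pr

universe u

theorem word_cons {V : Type u} (s : Bool → Equiv.Perm V) (i : Bool) (w : List Bool) (o : V) :
    word s (i :: w) o = s i (word s w o) := by
  simp [word, Equiv.Perm.mul_apply]

theorem prf : FreeStmt.{u} := by
  intro V s A C o hoA hCA hoC hdisj hs
  have hmem : ∀ w : List Bool, word s w o ∈ A := by
    intro w
    induction w with
    | nil => simpa [word] using hoA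
    | cons i w ih =>
      rw [word_cons]
      exact hCA i (hs i ⟨_, ih, rfl⟩)
  have hmemC : ∀ (i : Bool) (w : List Bool), word s (i :: w) o ∈ C i := by
    intro i w
    rw [word_cons]
    exact hs i ⟨_, hmem w, rfl⟩
  have hno : ∀ (i : Bool) (w : List Bool), word s (i :: w) o ≠ o := by
    intro i w h
    exact hoC i (h ▸ hmemC i w)
  have hnil : word s [] o = o := by simp [word]
  intro w w' h
  simp only at h
  induction w generalizing w' with
  | nil =>
    cases w' with
    | nil => rfl
    | cons j w' => exact absurd (h.symm.trans hnil) (hno j w')
  | cons i w ih =>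
    cases w' with
    | nil => exact absurd (h.trans hnil) (hno i w)
    | cons j w' =>
      have h1 := hmemC i w
      have h2 := hmemC j w'
      rw [← h] at h2
      have hij : i = j := by
        cases i <;> cases j
        · rfl
        · exact absurd h2 (Set.disjoint_left.1 hdisj h1)
        · exact absurd h1 (Set.disjoint_left.1 hdisj h2)
        · rfl
      subst hij
      rw [word_cons, word_cons] at h
      rw [ih ((s i).injective h)]

end Pool.Agent.Work.MP_c58d8b_pr.NFREE
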