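import Pool.Agent.Work.MP_c58d8b_pr.Stmts

set_option autoImplicit false

namespace Pool.Agent.Work.MP_c58d8b_pr.NINDEP

open MeasureTheory ProbabilityTheory Set
open scoped ENNReal unitInterval

universe u

/-- The factor measures. -/
noncomputable def fac {ι : Type u} (v : Set ι) (p : I) (i : ι) : Measure Prop :=
  unitInterval.toNNReal p • Measure.dirac (i ∈ v) +
    unitInterval.toNNReal (σ p) • Measure.dirac False

instance {ι : Type u} (v : Set ι) (p : I) (i : ι) : IsProbabilityMeasure (fac v p i) := by
  unfold fac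
  infer_instance

/-- The map which intersects the set coded by a predicate with `S` is measurable with respect to
the coordinates in `S`. -/
lemma meas_inter {ι : Type u} (S : Set ι) :
    Measurable[⨆ i ∈ S, MeasurableSpace.comap (fun ω : ι → Prop => ω i) ⊤]
      (fun ω : ι → Prop => {i | ω i} ∩ S) := by
  refine (@measurable_pi_iff (ι → Prop) ι (fun _ => Prop)
    (⨆ i ∈ S, MeasurableSpace.comap (fun ω : ι → Prop => ω i) ⊤) _
    (fun ω a => a ∈ {i | ω i} ∩ S)).2 ?_
  intro a
  by_cases ha : a ∈ S
  · have h1 : Measurable[MeasurableSpace.comap (fun ω : ι → Prop => ω a) ⊤]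
        (fun ω : ι → Prop => ω a) := comap_measurable _
    have h2 := h1.mono (le_iSup₂_of_le (f := fun (i : ι) (_ : i ∈ S) =>
      MeasurableSpace.comap (fun ω : ι → Prop => ω i) ⊤) a ha le_rfl) le_rfl
    have h3 : (fun ω : ι → Prop => a ∈ {i | ω i} ∩ S) = fun ω : ι → Prop => ω a := by
      funext ω
      exact propext ⟨fun h => h.1, fun h => ⟨h, ha⟩⟩
    rw [h3]
    exact h2
  · have h3 : (fun ω : ι → Prop => a ∈ {i | ω i} ∩ S) = fun _ : ι → Prop => False := by
      funext ω
      exact propext ⟨fun h => ha h.2, fun h => h.elim⟩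
    rw [h3]
    exact @measurable_const _ _ _ (_) False

theorem prf : IndepStmt.{u} := by
  intro ι v p S T hST A B hA hB
  have hind : iIndepFun (fun (i : ι) (ω : ι → Prop) => ω i) (Measure.infinitePi (fac v p)) :=
    iIndepFun_infinitePi (X := fun (_ : ι) (x : Prop) => x) (fun _ => measurable_id)
  have hind' : iIndep (fun i : ι => MeasurableSpace.comap (fun ω : ι → Prop => ω i) ⊤)
      (Measure.infinitePi (fac v p)) := hind
  have hle : ∀ i : ι, MeasurableSpace.comap (fun ω : ι → Prop => ω i) ⊤ ≤
      (MeasurableSpace.pi : MeasurableSpace (ι → Prop)) := fun i =>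
    (measurable_pi_apply i).comap_le
  have hI := indep_iSup_of_disjoint hle hind' hST
  have key := (Indep_iff _ _ _).1 hI _ _ (meas_inter S hA) (meas_inter T hB)
  have e : ∀ X : Set (Set ι), setBernoulli v p X =
      Measure.infinitePi (fac v p) ((fun q : ι → Prop => {i | q i}) ⁻¹' X) := fun X =>
    setBernoulli_apply' X
  rw [e, e, e]
  exact key

end Pool.Agent.Work.MP_c58d8b_pr.NINDEP
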