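import Pool.Agent.Work.MP_c58d8b_pr.Stmts

/-!
# Item INV: Bernoulli percolation is invariant under the automorphisms of the graph
-/

set_option autoImplicit false

namespace Pool.Agent.Work.MP_c58d8b_pr.NINV

open MeasureTheory ProbabilityTheory Set
open scoped ENNReal unitInterval
open Pool.Agent.Work.MP_c58d8b_pr

universe u

variable {V : Type u}

/-- The permutation of the unordered pairs induced by a permutation of the vertices. -/
def pairs (γ : Equiv.Perm V) : Sym2 V ≃ Sym2 V where
  toFun := Sym2.map γ
  invFun := Sym2.map γ.symm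
  left_inv e := by
    rw [Sym2.map_map]
    simp
  right_inv e := by
    rw [Sym2.map_map]
    simp

theorem mem_edgeSet_map {G : SimpleGraph V} {γ : Equiv.Perm V} (h : IsAut G γ) (e : Sym2 V) :
    Sym2.map γ e ∈ G.edgeSet ↔ e ∈ G.edgeSet := by
  induction e with
  | _ x y => simpa using h x y

theorem prf : InvStmt.{u} := by
  intro V G p γ h A _
  have e1 : ∀ S : Set (Set (Sym2 V)), perc G p S =
      (Measure.infinitePi fun i : Sym2 V => unitInterval.toNNReal p • Measure.dirac (i ∈ G.edgeSet)
        + unitInterval.toNNReal (unitInterval.symm p) • Measure.dirac False)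
        ((fun P : Sym2 V → Prop => {i | P i}) ⁻¹' S) := fun S => setBernoulli_apply' S
  rw [e1, e1]
  set μ : Sym2 V → Measure Prop := fun i =>
    unitInterval.toNNReal p • Measure.dirac (i ∈ G.edgeSet)
      + unitInterval.toNNReal (unitInterval.symm p) • Measure.dirac False with hμ
  have hμe : (fun i => μ (pairs γ i)) = μ := by
    funext i
    have : (pairs γ i ∈ G.edgeSet) = (i ∈ G.edgeSet) := propext (mem_edgeSet_map h i)
    simp only [hμ, this]
  have hprob : ∀ i, IsProbabilityMeasure (μ i) := by
    intro i
    infer_instance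
  have h1 := Measure.infinitePi_map_piCongrLeft (μ := μ) (pairs γ)
  rw [hμe] at h1
  conv_rhs => rw [← h1]
  rw [MeasurableEquiv.map_apply]
  congr 1
  ext P
  simp only [mem_preimage, mem_ofPred_eq]
  have h2 : Sym2.map γ '' {i | P i} =
      {i | (MeasurableEquiv.piCongrLeft (fun _ : Sym2 V => Prop) (pairs γ)) P i} := by
    ext i
    rw [MeasurableEquiv.coe_piCongrLeft]
    have h3 := Equiv.piCongrLeft_apply_apply (fun _ : Sym2 V => Prop) (pairs γ) P
      ((pairs γ).symm i)
    rw [Equiv.apply_symm_apply] at h3
    rw [mem_ofPred_eq, h3]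
    constructor
    · rintro ⟨j, hj, rfl⟩
      have : (pairs γ).symm (Sym2.map γ j) = j := (pairs γ).symm_apply_apply j
      rw [this]
      exact hj
    · intro hi
      exact ⟨(pairs γ).symm i, hi, (pairs γ).apply_symm_apply i⟩
  rw [h2]

end Pool.Agent.Work.MP_c58d8b_pr.NINV
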