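import Pool.Agent.Work.MP_c58d8b_pr.Stmts

set_option autoImplicit false

namespace Pool.Agent.Work.MP_c58d8b_pr.NLIVE

open MeasureTheory ProbabilityTheory Set
open scoped ENNReal unitInterval

universe u

variable {V : Type u}

/-- The edges of `G` which touch `K`. -/
def touch (G : SimpleGraph V) (K : Set V) : Set (Sym2 V) := {e | e ∈ G.edgeSet ∧ ∃ v ∈ e, v ∈ K}

theorem touch_finite (G : SimpleGraph V) (K : Set V) (hG : LocFinite G) (hK : K.Finite) :
    (touch G K).Finite := by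
  have h : touch G K ⊆ ⋃ v ∈ K, (fun y => s(v, y)) '' G.neighborSet v := by
    rintro e ⟨he, v, hv, hvK⟩
    obtain ⟨w, rfl⟩ := hv
    simp only [Set.mem_iUnion]
    exact ⟨v, hvK, w, by simpa using he, rfl⟩
  exact (Set.Finite.biUnion hK (fun v _ => (hG v).image _)).subset h

theorem cluster_mono {s t : Set (Sym2 V)} (h : s ⊆ t) (x : V) : Cluster s x ⊆ Cluster t x := by
  intro y hy
  exact SimpleGraph.Reachable.mono (SimpleGraph.fromEdgeSet_mono h) hy

theorem infIn_iff (A : Set V) (R s : Set (Sym2 V)) (h : edgesIn A ⊆ R) :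
    s ∩ R ∈ InfIn A ↔ s ∈ InfIn A := by
  have : s ∩ R ∩ edgesIn A = s ∩ edgesIn A := by
    rw [Set.inter_assoc, Set.inter_eq_right.mpr h]
  simp only [InfIn, Set.mem_ofPred_eq, this]

theorem cluster_in (hb : Basics.{u}) (G : SimpleGraph V) (K : Set V) {s : Set (Sym2 V)}
    (hs : s ⊆ G.edgeSet) (hd : Disjoint s (touch G K)) {C : Set V} (hC : C ∈ Comps G K)
    {x : V} (hx : x ∈ C) {y : V} (h : (SimpleGraph.fromEdgeSet s).Reachable x y) :
    y ∈ C ∧ (SimpleGraph.fromEdgeSet (s ∩ edgesIn C)).Reachable x y := by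
  rw [SimpleGraph.reachable_iff_reflTransGen] at h
  induction h with
  | refl => exact ⟨hx, SimpleGraph.Reachable.refl _⟩
  | @tail a b _ hab ih =>
    obtain ⟨haC, hr⟩ := ih
    rw [SimpleGraph.fromEdgeSet_adj] at hab
    have hG : G.Adj a b := by simpa using hs hab.1
    have hbK : b ∉ K := by
      intro hbK
      exact Set.disjoint_left.mp hd hab.1 ⟨hs hab.1, b, by simp, hbK⟩
    have hbC : b ∈ C := hb.comps_closed V G K C hC a haC b hG hbK
    refine ⟨hbC, hr.trans (SimpleGraph.Adj.reachable ?_)⟩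
    rw [SimpleGraph.fromEdgeSet_adj]
    refine ⟨⟨hab.1, ?_⟩, hab.2⟩
    intro v hv
    rcases Sym2.mem_iff.mp hv with rfl | rfl
    · exact haC
    · exact hbC

theorem cluster_K (G : SimpleGraph V) (K : Set V) {s : Set (Sym2 V)}
    (hs : s ⊆ G.edgeSet) (hd : Disjoint s (touch G K)) {x : V} (hx : x ∈ K) :
    Cluster s x ⊆ {x} := by
  intro y h
  have h' : (SimpleGraph.fromEdgeSet s).Reachable x y := h
  rw [SimpleGraph.reachable_iff_reflTransGen] at h'
  induction h' with
  | refl => rfl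
  | @tail a b hxa hab ih =>
    have hax : a = x := ih ((SimpleGraph.reachable_iff_reflTransGen _ _).2 hxa)
    subst hax
    rw [SimpleGraph.fromEdgeSet_adj] at hab
    exact absurd ⟨hs hab.1, a, by simp, hx⟩ (Set.disjoint_left.mp hd hab.1)

theorem mem_of_infinite {C : Set V} {s : Set (Sym2 V)} {x : V}
    (h : (Cluster (s ∩ edgesIn C) x).Infinite) : x ∈ C := by
  by_contra hx
  apply h
  refine (Set.finite_singleton x).subset ?_
  intro y hy
  have hy' : (SimpleGraph.fromEdgeSet (s ∩ edgesIn C)).Reachable x y := hy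
  rw [SimpleGraph.reachable_iff_reflTransGen] at hy'
  rcases Relation.ReflTransGen.cases_head hy' with rfl | ⟨z, hz, _⟩
  · rfl
  · rw [SimpleGraph.fromEdgeSet_adj] at hz
    exact absurd (hz.1.2 x (by simp)) hx

/-- **Item LIVE.** -/
theorem prf (hb : Basics.{u}) (hc : CylStmt.{u}) (hi : IndepStmt.{u}) (hm : MeasStmt.{u}) :
    OneLiveStmt.{u} := by
  intro V _ G hconn hG p hp hU K hK
  obtain ⟨-, -, hmU, hmI⟩ := hm V
  have hW := touch_finite G K hG hK
  set W : Set (Sym2 V) := touch G K with hWdef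
  have hE : perc G p {s | Disjoint s W} ≠ 0 := by
    have h := hc V G p hW.toFinset (by
      intro e he
      simp only [Set.Finite.coe_toFinset] at he
      exact he.1)
    rw [Set.Finite.coe_toFinset] at h
    rw [h]
    refine pow_ne_zero _ ?_
    rw [Ne, ENNReal.ofReal_eq_zero, not_le]
    linarith
  have hae : ∀ᵐ s ∂(perc G p), s ⊆ G.edgeSet := setBernoulli_ae_subset
  have hprob : IsProbabilityMeasure (perc G p) := by unfold perc; infer_instance
  have hm0 : UniqueEvent V ∈ ae (perc G p) := (mem_ae_iff_prob_eq_one hmU).2 hU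
  have haeU : ∀ᵐ s ∂(perc G p), s ∈ UniqueEvent V := by
    filter_upwards [hm0] with s hs using hs
  -- existence
  have hex : ∃ C, C ∈ Comps G K ∧ perc G p (InfIn C) ≠ 0 := by
    by_contra hno
    push Not at hno
    have hfin := hb.comps_finite V G K hconn hG hK
    have hnull : perc G p (⋃ C ∈ Comps G K, InfIn C) = 0 := by
      rw [measure_biUnion_null_iff hfin.countable]
      exact hno
    have haeN : ∀ᵐ s ∂(perc G p), s ∉ ⋃ C ∈ Comps G K, InfIn C :=
      measure_eq_zero_iff_ae_notMem.mp hnull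
    apply hE
    rw [measure_eq_zero_iff_ae_notMem]
    filter_upwards [hae, haeU, haeN] with s h1 h2 h3 h4
    obtain ⟨D, ⟨hDinf, x, rfl⟩, -⟩ := h2
    by_cases hx : x ∈ K
    · exact hDinf ((Set.finite_singleton x).subset (cluster_K G K h1 h4 hx))
    · obtain ⟨C, hC, hxC⟩ := hb.exists_comp V G K x hx
      apply h3
      simp only [Set.mem_iUnion]
      refine ⟨C, hC, x, ?_⟩
      exact hDinf.mono (fun y hy => (cluster_in hb G K h1 h4 hC hxC hy).2)
  obtain ⟨C, hC, hCne⟩ := hex
  refine ⟨C, ⟨hC, hCne⟩, ?_⟩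
  rintro C' ⟨hC', hC'ne⟩
  by_contra hne
  -- the intersection is null
  have hnull : perc G p {s | (s ∈ InfIn C ∧ s ∈ InfIn C') ∧ Disjoint s W} = 0 := by
    rw [measure_eq_zero_iff_ae_notMem]
    filter_upwards [hae, haeU] with s h1 h2 h3
    obtain ⟨⟨⟨x, hx⟩, x', hx'⟩, h4⟩ := h3
    have hxC := mem_of_infinite hx
    have hxC' := mem_of_infinite hx'
    have i1 : (Cluster s x).Infinite := hx.mono (cluster_mono Set.inter_subset_left x)
    have i2 : (Cluster s x').Infinite := hx'.mono (cluster_mono Set.inter_subset_left x')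
    obtain ⟨D, -, huniq⟩ := h2
    have e : Cluster s x = Cluster s x' :=
      (huniq _ ⟨i1, x, rfl⟩).trans (huniq _ ⟨i2, x', rfl⟩).symm
    have hmem : x' ∈ Cluster s x := by
      rw [e]
      exact SimpleGraph.Reachable.refl _
    have := (cluster_in hb G K h1 h4 hC hxC hmem).1
    exact hne (hb.comps_eq V G K C' hC' C hC ⟨x', hxC', this⟩)
  -- disjointness of the three sets of edges
  have hd0 : Disjoint (edgesIn C) (edgesIn C') := by
    rw [Set.disjoint_left]
    intro e h1 h2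
    induction e with
    | _ a b =>
      exact hne (hb.comps_eq V G K C' hC' C hC ⟨a, h2 a (by simp), h1 a (by simp)⟩)
  have hdC : ∀ D ∈ Comps G K, Disjoint (edgesIn D) W := by
    intro D hD
    rw [Set.disjoint_left]
    rintro e h1 ⟨-, v, hv, hvK⟩
    exact Set.disjoint_left.mp (hb.comps_disjoint V G K D hD) (h1 v hv) hvK
  have hd1 : Disjoint (edgesIn C ∪ edgesIn C') W :=
    Set.disjoint_union_left.mpr ⟨hdC C hC, hdC C' hC'⟩
  have hmW : MeasurableSet {s : Set (Sym2 V) | Disjoint s W} := by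
    have : {s : Set (Sym2 V) | Disjoint s W} = ⋂ e ∈ W, {s | e ∉ s} := by
      ext s
      simp only [Set.mem_ofPred_eq, Set.mem_iInter, Set.disjoint_right]
    rw [this]
    exact MeasurableSet.biInter hW.countable (fun e _ => measurableSet_notMem e)
  have k1 := hi (Sym2 V) G.edgeSet p (edgesIn C ∪ edgesIn C') W hd1
    (InfIn C ∩ InfIn C') {s | Disjoint s W} ((hmI C).inter (hmI C')) hmW
  have k2 := hi (Sym2 V) G.edgeSet p (edgesIn C) (edgesIn C') hd0 (InfIn C) (InfIn C')
    (hmI C) (hmI C')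
  have e1 : ∀ s : Set (Sym2 V), s ∩ (edgesIn C ∪ edgesIn C') ∈ InfIn C ∩ InfIn C' ↔
      s ∈ InfIn C ∧ s ∈ InfIn C' := by
    intro s
    rw [Set.mem_inter_iff, infIn_iff C _ s Set.subset_union_left,
      infIn_iff C' _ s Set.subset_union_right]
  have e2 : ∀ s : Set (Sym2 V), s ∩ W ∈ {s : Set (Sym2 V) | Disjoint s W} ↔ Disjoint s W := by
    intro s
    simp only [Set.mem_ofPred_eq, Set.disjoint_left, Set.mem_inter_iff]
    exact ⟨fun h a ha hw => h ⟨ha, hw⟩ hw, fun h a ha => h ha.1⟩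
  have e3 : ∀ (D : Set V) (s : Set (Sym2 V)), s ∩ edgesIn D ∈ InfIn D ↔ s ∈ InfIn D :=
    fun D s => infIn_iff D _ s subset_rfl
  simp only [e1, e2, e3] at k1 k2
  have hnull' : setBernoulli G.edgeSet p {s | (s ∈ InfIn C ∧ s ∈ InfIn C') ∧ Disjoint s W} = 0 :=
    hnull
  rw [hnull', k2] at k1
  have hCne' : setBernoulli G.edgeSet p {s | s ∈ InfIn C} ≠ 0 := hCne
  have hC'ne' : setBernoulli G.edgeSet p {s | s ∈ InfIn C'} ≠ 0 := hC'ne
  have hE' : setBernoulli G.edgeSet p {s | Disjoint s W} ≠ 0 := hE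
  exact (mul_ne_zero (mul_ne_zero hCne' hC'ne') hE') k1.symm

end Pool.Agent.Work.MP_c58d8b_pr.NLIVE
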