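import Pool.Agent.Work.MP_c58d8b_pr.Stmts

set_option autoImplicit false

namespace Pool.Agent.Work.MP_c58d8b_pr.NLIVEEND

open MeasureTheory ProbabilityTheory Set
open scoped ENNReal unitInterval

universe u

variable {V : Type u}

theorem cluster_subset (s : Set (Sym2 V)) (A : Set V) (x : V) :
    Cluster (s ∩ edgesIn A) x ⊆ insert x A := by
  intro y hy
  have hy' : (SimpleGraph.fromEdgeSet (s ∩ edgesIn A)).Reachable x y := hy
  rw [SimpleGraph.reachable_iff_reflTransGen] at hy'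
  rcases Relation.ReflTransGen.cases_tail hy' with h | ⟨z, _, hz⟩
  · left; exact h.symm ▸ rfl
  · right
    rw [SimpleGraph.fromEdgeSet_adj] at hz
    exact hz.1.2 y (by simp)

theorem infinite_of_infIn {A : Set V} {s : Set (Sym2 V)} (h : s ∈ InfIn A) : A.Infinite := by
  obtain ⟨x, hx⟩ := h
  intro hA
  exact hx ((hA.insert x).subset (cluster_subset s A x))

theorem cluster_mono {s t : Set (Sym2 V)} (h : s ⊆ t) (x : V) : Cluster s x ⊆ Cluster t x := by
  intro y hy
  have hy' : (SimpleGraph.fromEdgeSet s).Reachable x y := hy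
  exact hy'.mono (SimpleGraph.fromEdgeSet_mono h)

theorem infIn_mono {A B : Set V} (h : A ⊆ B) : InfIn A ⊆ InfIn B := by
  rintro s ⟨x, hx⟩
  refine ⟨x, hx.mono (cluster_mono ?_ x)⟩
  rintro e ⟨he, hA⟩
  exact ⟨he, fun v hv => h (hA v hv)⟩

theorem infIn_image (γ : Equiv.Perm V) (A : Set V) (s : Set (Sym2 V)) (h : s ∈ InfIn A) :
    Sym2.map γ '' s ∈ InfIn (γ '' A) := by
  obtain ⟨x, hx⟩ := h
  refine ⟨γ x, (hx.image γ.injective.injOn).mono ?_⟩
  rintro _ ⟨y, hy, rfl⟩
  have hy' : (SimpleGraph.fromEdgeSet (s ∩ edgesIn A)).Reachable x y := hy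
  let f : (SimpleGraph.fromEdgeSet (s ∩ edgesIn A)) →g
      (SimpleGraph.fromEdgeSet ((Sym2.map γ '' s) ∩ edgesIn (γ '' A))) :=
    { toFun := γ
      map_rel' := by
        intro a b hab
        rw [SimpleGraph.fromEdgeSet_adj] at hab ⊢
        refine ⟨⟨⟨s(a, b), hab.1.1, by simp⟩, ?_⟩, fun h => hab.2 (γ.injective h)⟩
        intro v hv
        rw [Sym2.mem_iff] at hv
        rcases hv with rfl | rfl
        · exact ⟨a, hab.1.2 a (by simp), rfl⟩
        · exact ⟨b, hab.1.2 b (by simp), rfl⟩ }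
  exact hy'.map f

open Classical in
theorem prf (hb : Basics.{u}) (hl : OneLiveStmt.{u}) (hv : InvStmt.{u}) (hm : MeasStmt.{u}) :
    LiveEndStmt.{u} := by
  intro V _ G Γ hconn hlf hpres p hp hu
  have key := hl V G hconn hlf p hp hu
  let ξ : Set V → Set V := fun K =>
    if hK : K.Finite then Classical.choose (key K hK).exists else ∅
  have hξ : ∀ K : Set V, K.Finite → ξ K ∈ Comps G K ∧ perc G p (InfIn (ξ K)) ≠ 0 := by
    intro K hK
    have h := Classical.choose_spec (key K hK).exists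
    have h2 : ξ K = Classical.choose (key K hK).exists := by
      simp only [ξ]; rw [dif_pos hK]
    rw [h2]; exact h
  have huniq : ∀ K : Set V, K.Finite → ∀ C ∈ Comps G K, perc G p (InfIn C) ≠ 0 → C = ξ K := by
    intro K hK C hC hC0
    exact (key K hK).unique ⟨hC, hC0⟩ (hξ K hK)
  refine ⟨ξ, ?_, ?_, ?_⟩
  · intro K hK
    refine ⟨(hξ K hK).1, ?_⟩
    obtain ⟨s, hs⟩ := nonempty_of_measure_ne_zero (hξ K hK).2
    exact infinite_of_infIn hs
  · intro K L hKL hL
    obtain ⟨C', hC', hsub⟩ := hb.comps_mono V G K L hKL (ξ L) (hξ L hL).1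
    have h0 : perc G p (InfIn C') ≠ 0 := by
      intro h0
      exact (hξ L hL).2 (measure_mono_null (infIn_mono hsub) h0)
    rw [← huniq K (hL.subset hKL) C' hC' h0]
    exact hsub
  · intro γ hγ K hK
    have haut : IsAut G γ := hpres γ hγ
    have h1 : γ '' ξ K ∈ Comps G (γ '' K) := hb.comps_image V G γ haut K (ξ K) (hξ K hK).1
    have h2 : perc G p (InfIn (γ '' ξ K)) ≠ 0 := by
      intro h0
      have h3 := hv V G p γ haut (InfIn (γ '' ξ K)) ((hm V).2.2.2 _)
      rw [h0] at h3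
      refine (hξ K hK).2 (measure_mono_null ?_ h3)
      intro s hs
      exact infIn_image γ (ξ K) s hs
    exact (huniq (γ '' K) (hK.image γ) _ h1 h2).symm

end Pool.Agent.Work.MP_c58d8b_pr.NLIVEEND
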