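import Pool.Agent.Work.MP_c58d8b_pr.Stmts

/-! Item LOGIC of block c58d8b. -/

universe u

open MeasureTheory ProbabilityTheory Set

namespace Pool.Agent.Work.MP_c58d8b_pr.NLOGIC

theorem prf : LogicStmt.{u} := by
  intro J t hsymm hcomp hall
  by_cases H : ∃ c, ∀ a b, t a b → a = c ∨ b = c
  · exact Or.inr H
  · left
    push Not at H
    intro r
    -- a loop at some element
    have hloop : ∃ c, t c c := by
      obtain ⟨a, b, hab, -, -⟩ := H r
      obtain ⟨d, e, hde, hd, he⟩ := H b
      have hae : t a e := hcomp a b d e hab hde (Ne.symm hd)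
      exact ⟨a, hcomp a e b a hae (hsymm a b hab) he⟩
    obtain ⟨c, hc⟩ := hloop
    obtain ⟨d, e, hde, hd, he⟩ := H c
    have hec : t e c := hcomp e d c c (hsymm d e hde) hc hd
    have hee : t e e := hcomp e c d e hec hde (Ne.symm hd)
    obtain ⟨x, hx⟩ := hall r
    have key : ∀ l, t l l → l ≠ x → t r r := by
      intro l hl hlx
      have h1 : t r l := hcomp r x l l (hsymm x r hx) hl (Ne.symm hlx)
      exact hcomp r l x r h1 hx hlx
    by_cases hcx : c = x
    · exact key e hee (fun h => he (h.trans hcx.symm))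
    · exact key c hc hcx

end Pool.Agent.Work.MP_c58d8b_pr.NLOGIC
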