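import Pool.Agent.Work.MP_c58d8b_pr.Stmts

set_option autoImplicit false

namespace Pool.Agent.Work.MP_c58d8b_pr.NLOOPS

open MeasureTheory ProbabilityTheory Set

universe u

variable {V : Type u}

theorem inv_mem_T {Γ : Subgroup (Equiv.Perm V)} {C : Set V} {g : Equiv.Perm V}
    (hg : g ∈ T Γ C C) : g⁻¹ ∈ T Γ C C := by
  refine ⟨Γ.inv_mem hg.1, ?_⟩
  rintro _ ⟨x, hx, rfl⟩
  by_contra h
  apply hx
  have h1 : g (g⁻¹ x) ∈ C := hg.2 ⟨g⁻¹ x, h, rfl⟩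
  simpa using h1

theorem weight_self {G : SimpleGraph V} {Γ : Subgroup (Equiv.Perm V)}
    (hw : WeightStmt.{u}) (hG : G.Connected) (hl : LocFinite G) (hp : Preserves Γ G) (o : V) :
    weight Γ o o = 1 := by
  obtain ⟨h1, -, h3⟩ := hw V G Γ hG hl hp
  have h4 := h3 o o o
  have h5 := h1 o o
  have h6 : weight Γ o o * (weight Γ o o - 1) = 0 := by linarith [h4]
  rcases mul_eq_zero.mp h6 with h | h
  · linarith
  · linarith

theorem weight_mul {G : SimpleGraph V} {Γ : Subgroup (Equiv.Perm V)}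
    (hw : WeightStmt.{u}) (hG : G.Connected) (hl : LocFinite G) (hp : Preserves Γ G)
    (g h : Equiv.Perm V) (hg : g ∈ Γ) (o : V) :
    weight Γ ((g * h) o) o = weight Γ (g o) o * weight Γ (h o) o := by
  obtain ⟨-, h2, h3⟩ := hw V G Γ hG hl hp
  have h4 := h3 ((g * h) o) (g o) o
  have h5 := h2 g hg (h o) o
  rw [← h4, ← h5, Equiv.Perm.mul_apply, mul_comm]

theorem exists_big {G : SimpleGraph V} {Γ : Subgroup (Equiv.Perm V)}
    (hw : WeightStmt.{u}) (hG : G.Connected) (hl : LocFinite G) (hp : Preserves Γ G)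
    {C : Set V} (hT : (T Γ C C).Nonempty) (o : V) :
    ∃ g ∈ T Γ C C, 1 ≤ weight Γ (g o) o := by
  obtain ⟨g, hg⟩ := hT
  have h1 := weight_mul hw hG hl hp g g⁻¹ hg.1 o
  have h2 : weight Γ ((g * g⁻¹) o) o = 1 := by
    rw [mul_inv_cancel]
    exact weight_self hw hG hl hp o
  rw [h2] at h1
  have hpos := (hw V G Γ hG hl hp).1
  rcases le_total 1 (weight Γ (g o) o) with h | h
  · exact ⟨g, hg, h⟩
  · refine ⟨g⁻¹, inv_mem_T hg, ?_⟩
    have h3 := hpos (g⁻¹ o) o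
    nlinarith

theorem image_sub {Γ : Subgroup (Equiv.Perm V)} {C D : Set V} {g h : Equiv.Perm V}
    (hg : g ∈ T Γ C C) (hh : h ∈ T Γ D D) (hd : Disjoint C D) : (h * g) '' Cᶜ ⊆ D := by
  rintro _ ⟨x, hx, rfl⟩
  have h1 : g x ∈ C := hg.2 ⟨x, hx, rfl⟩
  exact hh.2 ⟨g x, fun h2 => Set.disjoint_left.mp hd h1 h2, rfl⟩

theorem prf (hb : Basics.{u}) (hw : WeightStmt.{u}) (hf : FreeStmt.{u}) : LoopsStmt.{u} := by
  intro V G Γ K hG hl hp _ _ hK0 _ C₁ hC₁ C₂ hC₂ C₃ hC₃ h12 h13 h23 hT1 hT2 hT3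
  obtain ⟨o, ho⟩ := hK0
  obtain ⟨g₁, hg₁, hd₁⟩ := exists_big hw hG hl hp hT1 o
  obtain ⟨g₂, hg₂, hd₂⟩ := exists_big hw hG hl hp hT2 o
  obtain ⟨g₃, hg₃, hd₃⟩ := exists_big hw hG hl hp hT3 o
  have hdis : ∀ C ∈ Comps G K, ∀ C' ∈ Comps G K, C ≠ C' → Disjoint C C' := by
    intro C hC C' hC' hne
    rw [Set.disjoint_iff_inter_eq_empty]
    by_contra h
    exact hne (hb.comps_eq V G K C hC C' hC' (Set.nonempty_iff_ne_empty.mpr h))
  have hoC : ∀ C ∈ Comps G K, o ∉ C := fun C hC h =>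
    Set.disjoint_left.mp (hb.comps_disjoint V G K C hC) h ho
  have d12 := hdis C₁ hC₁ C₂ hC₂ h12
  have d13 := hdis C₁ hC₁ C₃ hC₃ h13
  have d23 := hdis C₂ hC₂ C₃ hC₃ h23
  refine ⟨fun i => cond i (g₃ * g₁) (g₂ * g₁), o, ?_, ?_, ?_⟩
  · intro i
    cases i
    · exact Γ.mul_mem hg₂.1 hg₁.1
    · exact Γ.mul_mem hg₃.1 hg₁.1
  · refine hf V _ C₁ᶜ (fun i => cond i C₃ C₂) o (hoC C₁ hC₁) ?_ ?_ d23 ?_
    · intro i
      cases i
      · exact Set.disjoint_right.mp d12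
      · exact Set.disjoint_right.mp d13
    · intro i
      cases i
      · exact hoC C₂ hC₂
      · exact hoC C₃ hC₃
    · intro i
      cases i
      · exact image_sub hg₁ hg₂ d12
      · exact image_sub hg₁ hg₃ d13
  · intro i
    cases i
    · show 1 ≤ weight Γ ((g₂ * g₁) o) o
      rw [weight_mul hw hG hl hp g₂ g₁ hg₂.1 o]
      nlinarith
    · show 1 ≤ weight Γ ((g₃ * g₁) o) o
      rw [weight_mul hw hG hl hp g₃ g₁ hg₃.1 o]
      nlinarith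

end Pool.Agent.Work.MP_c58d8b_pr.NLOOPS
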