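import Pool.Agent.Work.MP_c58d8b_pr.Stmts2

set_option autoImplicit false

namespace Pool.Agent.Work.MP_c58d8b_pr.NLOW

open MeasureTheory ProbabilityTheory Set
open Pool.Agent.Work.MP_c58d8b_pr

universe u

variable {V : Type u}

lemma within_mono {G : SimpleGraph V} {A B : Set V} (h : A ⊆ B) : within G A ≤ within G B :=
  fun _ _ hxy => ⟨hxy.1, h hxy.2.1, h hxy.2.2⟩

lemma mem_ball_self (G : SimpleGraph V) (r : ℕ) (v : V) : v ∈ ball G r v := by
  show G.dist v v ≤ r
  simp

lemma ball_reach (G : SimpleGraph V) (r : ℕ) (v : V) :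
    ∀ (y : V) (p : G.Walk y v), p.length ≤ r → (within G (ball G r v)).Reachable y v := by
  intro y p
  induction p with
  | nil => intro _; exact SimpleGraph.Reachable.refl _
  | @cons a b c hab q ih =>
    intro hl
    have hl' : q.length + 1 ≤ r := by simpa using hl
    have hb : G.dist c b ≤ r := by
      rw [SimpleGraph.dist_comm]
      exact (SimpleGraph.dist_le q).trans (by omega)
    have ha : G.dist c a ≤ r := by
      rw [SimpleGraph.dist_comm]
      exact (SimpleGraph.dist_le (SimpleGraph.Walk.cons hab q)).trans hl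
    have h1 : (within G (ball G r c)).Adj a b := ⟨hab, ha, hb⟩
    exact h1.reachable.trans (ih (by omega))

lemma ball_conn {G : SimpleGraph V} (hG : G.Connected) (r : ℕ) (v : V) :
    Conn G (ball G r v) := by
  have key : ∀ y ∈ ball G r v, (within G (ball G r v)).Reachable y v := by
    intro y hy
    obtain ⟨p, hp⟩ := (hG.preconnected y v).exists_walk_length_eq_dist
    refine ball_reach G r v y p ?_
    rw [hp, SimpleGraph.dist_comm]
    exact hy
  intro x hx y hy
  exact (key x hx).trans (key y hy).symm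

lemma hull_conn (hb : Basics.{u}) {G : SimpleGraph V} {Γ : Subgroup (Equiv.Perm V)}
    {ξ : Set V → Set V} (hG : G.Connected) (hl : LocFinite G) (hE : IsFixedEnd G Γ ξ)
    (r : ℕ) (v : V) : Conn G (hull G ξ r v) := by
  have hc : ξ (ball G r v) ∈ Comps G (ball G r v) :=
    hE.comps _ (hb.ball_finite V G hG hl v r)
  obtain ⟨a, ha, b, hbb, hab⟩ := hb.comps_adj V G _ hG ⟨v, mem_ball_self G r v⟩ _ hc
  have hA : (within G (hull G ξ r v)).Adj a b := ⟨hab, Or.inr ha, Or.inl hbb⟩
  have key : ∀ y ∈ hull G ξ r v, (within G (hull G ξ r v)).Reachable y b := by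
    rintro y (hy | hy)
    · exact (ball_conn hG r v y hy b hbb).mono (within_mono subset_union_left)
    · exact ((hb.comps_conn V G _ _ hc y hy a ha).mono (within_mono subset_union_right)).trans
        hA.reachable
  intro x hx y hy
  exact (key x hx).trans (key y hy).symm

/-- (D1) -/
lemma far_sub (hb : Basics.{u}) {G : SimpleGraph V} {Γ : Subgroup (Equiv.Perm V)}
    {ξ : Set V → Set V} (hG : G.Connected) (hl : LocFinite G) (hE : IsFixedEnd G Γ ξ)
    {r : ℕ} {u v : V} (h : Disjoint (ball G r u) (hull G ξ r v)) :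
    hull G ξ r v ⊆ ξ (ball G r u) := by
  have hfu := hb.ball_finite V G hG hl u r
  have hfv := hb.ball_finite V G hG hl v r
  have hf : (ball G r u ∪ ball G r v).Finite := hfu.union hfv
  obtain ⟨z, hz⟩ := (hE.inf _ hf).nonempty
  refine hb.conn_subset V G (ball G r u) _ (hull_conn hb hG hl hE r v) h.symm _
    (hE.comps _ hfu) ⟨z, Or.inr (hE.mono _ _ subset_union_right hf hz),
      hE.mono _ _ subset_union_left hf hz⟩

lemma far_trans (hb : Basics.{u}) {G : SimpleGraph V} {Γ : Subgroup (Equiv.Perm V)}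
    {ξ : Set V → Set V} (hG : G.Connected) (hl : LocFinite G) (hE : IsFixedEnd G Γ ξ)
    {r : ℕ} {u v w : V} (h : Disjoint (ball G r u) (hull G ξ r v))
    (h' : Disjoint (ball G r v) (hull G ξ r w)) : Disjoint (ball G r u) (hull G ξ r w) :=
  h.mono_right ((far_sub hb hG hl hE h').trans subset_union_right)

lemma far_irrefl (G : SimpleGraph V) (ξ : Set V → Set V) (r : ℕ) (u : V) :
    ¬ Disjoint (ball G r u) (hull G ξ r u) := fun h =>
  Set.disjoint_left.1 h (mem_ball_self G r u) (Or.inl (mem_ball_self G r u))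

/-- (D0) -/
lemma finite_near (hb : Basics.{u}) {G : SimpleGraph V} {Γ : Subgroup (Equiv.Perm V)}
    {ξ : Set V → Set V} (hG : G.Connected) (hl : LocFinite G) (hE : IsFixedEnd G Γ ξ)
    (r : ℕ) (A : Set V) (x v : V) :
    {u | u ∈ Up G ξ r A x ∧ ¬ Disjoint (ball G r v) (hull G ξ r u)}.Finite := by
  refine (hb.ball_finite V G hG hl x (G.dist x v + r + r)).subset ?_
  rintro u ⟨⟨-, hxu⟩, hnd⟩
  by_contra hu
  apply hnd
  have hu' : G.dist x v + r + r < G.dist x u := not_le.1 hu
  have hdis : Disjoint (ball G (G.dist x v + r) x) (ball G r u) := by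
    rw [Set.disjoint_left]
    intro z hz hz'
    have h1 : G.dist x z ≤ G.dist x v + r := hz
    have h2 : G.dist u z ≤ r := hz'
    have h3 := hG.dist_triangle (u := x) (v := z) (w := u)
    rw [SimpleGraph.dist_comm (u := z)] at h3
    omega
  have hsub : ball G r v ⊆ ball G (G.dist x v + r) x := by
    intro z hz
    have h1 : G.dist v z ≤ r := hz
    have h3 := hG.dist_triangle (u := x) (v := v) (w := z)
    show G.dist x z ≤ G.dist x v + r
    omega
  refine Disjoint.mono_left hsub ?_
  refine Set.disjoint_union_right.2 ⟨hdis, ?_⟩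
  rw [Set.disjoint_left]
  intro z hz hz'
  apply hxu
  right
  exact hb.conn_subset V G (ball G r u) _ (ball_conn hG _ x) hdis _
    (hE.comps _ (hb.ball_finite V G hG hl u r)) ⟨z, hz, hz'⟩ (mem_ball_self G _ x)

theorem prf (hb : Basics.{u}) : LowStmt.{u} := by
  intro V G Γ ξ hG hl hE r A x hne
  obtain ⟨v, hv⟩ := hne
  have hfin := finite_near hb hG hl hE r A x v
  refine ⟨?_, hfin.subset fun w hw => ⟨hw.1, hw.2 v hv⟩⟩
  set S : Set V := {u | u ∈ Up G ξ r A x ∧ ¬ Disjoint (ball G r v) (hull G ξ r u)} with hS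
  have : Finite S := hfin
  let R : S → S → Prop := fun a b => Disjoint (ball G r a.1) (hull G ξ r b.1)
  have hT : IsTrans S R := ⟨fun a b c h h' => far_trans hb hG hl hE h h'⟩
  have hI : Std.Irrefl R := ⟨fun a h => far_irrefl G ξ r a.1 h⟩
  have hwf : WellFounded R := Finite.wellFounded_of_trans_of_irrefl R
  obtain ⟨w, -, hw⟩ := hwf.has_min Set.univ ⟨⟨v, hv, far_irrefl G ξ r v⟩, Set.mem_univ _⟩
  refine ⟨w.1, w.2.1, fun u hu hd => ?_⟩
  by_cases huS : u ∈ S
  · exact hw ⟨u, huS⟩ (Set.mem_univ _) hd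
  · have h1 : Disjoint (ball G r v) (hull G ξ r u) := by
      by_contra hcon
      exact huS ⟨hu, hcon⟩
    exact w.2.2 (far_trans hb hG hl hE h1 hd)

end Pool.Agent.Work.MP_c58d8b_pr.NLOW
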