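import Pool.Agent.Work.MP_c58d8b_pr.Stmts

set_option autoImplicit false

namespace Pool.Agent.Work.MP_c58d8b_pr.NMEAS

open Pool.Agent.Work.MP_c58d8b_pr
open MeasureTheory ProbabilityTheory Set
open scoped ENNReal unitInterval

universe u

variable {V : Type u}

lemma meas_mem (e : Sym2 V) : MeasurableSet {s : Set (Sym2 V) | e ∈ s} :=
  measurableSet_setOfPred.2 (measurable_set_mem e)

/-- there is an open walk of length `n` from `x` to `y` -/
def S (n : ℕ) (x y : V) : Set (Set (Sym2 V)) :=
  {s | ∃ p : (SimpleGraph.fromEdgeSet s).Walk x y, p.length = n}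

lemma S_zero (x y : V) : S 0 x y = {s | x = y} := by
  ext s
  constructor
  · rintro ⟨p, hp⟩
    exact SimpleGraph.Walk.eq_of_length_eq_zero hp
  · intro h
    have h' : x = y := h
    subst h'
    exact ⟨SimpleGraph.Walk.nil, rfl⟩

lemma S_succ (n : ℕ) (x y : V) :
    S (n + 1) x y = ⋃ z : V, ({s | s(x, z) ∈ s} ∩ {s | x ≠ z}) ∩ S n z y := by
  ext s
  simp only [mem_iUnion]
  constructor
  · rintro ⟨p, hp⟩
    cases p with
    | nil => simp at hp
    | @cons _ z _ h q =>
      refine ⟨z, ?_, q, ?_⟩
      · have := (SimpleGraph.fromEdgeSet_adj s).1 h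
        exact ⟨this.1, this.2⟩
      · simpa using hp
  · rintro ⟨z, ⟨h1, h2⟩, q, hq⟩
    have h : (SimpleGraph.fromEdgeSet s).Adj x z := (SimpleGraph.fromEdgeSet_adj s).2 ⟨h1, h2⟩
    exact ⟨SimpleGraph.Walk.cons h q, by simp [hq]⟩

lemma meas_S [Countable V] (n : ℕ) : ∀ x y : V, MeasurableSet (S n x y) := by
  induction n with
  | zero =>
    intro x y
    rw [S_zero]
    exact MeasurableSet.const _
  | succ n ih =>
    intro x y
    rw [S_succ]
    exact MeasurableSet.iUnion fun z =>
      ((meas_mem s(x, z)).inter (MeasurableSet.const _)).inter (ih z y)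

lemma meas_cluster [Countable V] (x y : V) :
    MeasurableSet {s : Set (Sym2 V) | y ∈ Cluster s x} := by
  have h : {s : Set (Sym2 V) | y ∈ Cluster s x} = ⋃ n : ℕ, S n x y := by
    ext s
    simp only [mem_iUnion]
    constructor
    · intro hs
      obtain ⟨p⟩ := (hs : (SimpleGraph.fromEdgeSet s).Reachable x y)
      exact ⟨p.length, p, rfl⟩
    · rintro ⟨n, p, -⟩
      exact (⟨p⟩ : (SimpleGraph.fromEdgeSet s).Reachable x y)
  rw [h]
  exact MeasurableSet.iUnion fun n => meas_S n x y

lemma meas_inf [Countable V] (x : V) :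
    MeasurableSet {s : Set (Sym2 V) | (Cluster s x).Infinite} := by
  have h : {s : Set (Sym2 V) | (Cluster s x).Infinite} =
      ⋂ F : Finset V, ⋃ y : V, {s : Set (Sym2 V) | y ∈ Cluster s x} ∩ {_s | y ∉ F} := by
    ext s
    simp only [mem_iInter, mem_iUnion]
    constructor
    · intro hs F
      obtain ⟨y, hy, hF⟩ := Set.Infinite.exists_notMem_finset hs F
      exact ⟨y, hy, hF⟩
    · intro hs hfin
      obtain ⟨y, hy, hF⟩ := hs hfin.toFinset
      exact hF (hfin.mem_toFinset.2 hy)
  rw [h]
  exact MeasurableSet.iInter fun F => MeasurableSet.iUnion fun y =>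
    (meas_cluster x y).inter (MeasurableSet.const _)

lemma cluster_eq {s : Set (Sym2 V)} {x y : V} (h : y ∈ Cluster s x) :
    Cluster s y = Cluster s x := by
  have h' : (SimpleGraph.fromEdgeSet s).Reachable x y := h
  ext z
  exact ⟨fun hz => h'.trans hz, fun hz => h'.symm.trans hz⟩

lemma self_mem (s : Set (Sym2 V)) (x : V) : x ∈ Cluster s x :=
  SimpleGraph.Reachable.refl x

lemma meas_unique [Countable V] : MeasurableSet (UniqueEvent V) := by
  have h : UniqueEvent V = ⋃ x : V, {s : Set (Sym2 V) | (Cluster s x).Infinite} ∩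
      ⋂ y : V, ({s : Set (Sym2 V) | (Cluster s y).Infinite}ᶜ ∪
        {s : Set (Sym2 V) | y ∈ Cluster s x}) := by
    ext s
    simp only [mem_iUnion]
    constructor
    · rintro ⟨C, ⟨hC, x, rfl⟩, hu⟩
      refine ⟨x, hC, ?_⟩
      rw [mem_iInter]
      intro y
      by_cases hy : (Cluster s y).Infinite
      · right
        have := hu (Cluster s y) ⟨hy, y, rfl⟩
        have h1 : y ∈ Cluster s y := self_mem s y
        rw [this] at h1
        exact h1
      · left
        exact hy
    · rintro ⟨x, hx, hy⟩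
      rw [mem_iInter] at hy
      refine ⟨Cluster s x, ⟨hx, x, rfl⟩, ?_⟩
      rintro C ⟨hC, y, rfl⟩
      rcases hy y with h1 | h1
      · exact absurd hC h1
      · exact cluster_eq h1
  rw [h]
  exact MeasurableSet.iUnion fun x => (meas_inf x).inter
    (MeasurableSet.iInter fun y => (meas_inf y).compl.union (meas_cluster x y))

lemma meas_infIn [Countable V] (A : Set V) : MeasurableSet (InfIn A) := by
  have hm : Measurable (fun s : Set (Sym2 V) => s ∩ edgesIn A) := by
    rw [measurable_set_iff]
    intro e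
    exact (measurable_set_mem e).and measurable_const
  have h : InfIn A = ⋃ x : V, (fun s : Set (Sym2 V) => s ∩ edgesIn A) ⁻¹'
      {s : Set (Sym2 V) | (Cluster s x).Infinite} := by
    ext s
    simp only [mem_iUnion]
    exact Iff.rfl
  rw [h]
  exact MeasurableSet.iUnion fun x => hm (meas_inf x)

theorem prf : MeasStmt.{u} := by
  intro V _
  exact ⟨meas_cluster, meas_inf, meas_unique, meas_infIn⟩

end Pool.Agent.Work.MP_c58d8b_pr.NMEAS
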