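import Pool.Agent.Work.MP_c58d8b_pr.Stmts2

set_option autoImplicit false

namespace Pool.Agent.Work.MP_c58d8b_pr.NMEASLOW

open MeasureTheory ProbabilityTheory Set
open scoped ENNReal unitInterval

universe u

lemma meas_closedAt {V : Type u} [Countable V] (G : SimpleGraph V) (r : ℕ) (v : V) :
    MeasurableSet {s : Set (Sym2 V) | closedAt G r s v} := by
  have hc : Countable (Sym2 V) := by
    unfold Sym2
    infer_instance
  have h1 : {s : Set (Sym2 V) | closedAt G r s v} =
      ⋂ e : Sym2 V, {s : Set (Sym2 V) | e ∈ s → ∀ y ∈ e, y ∉ ball G r v} := by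
    ext s
    rw [mem_iInter]
    exact ⟨fun h e => h e, fun h e => h e⟩
  rw [h1]
  refine MeasurableSet.iInter fun e => ?_
  by_cases h : ∀ y ∈ e, y ∉ ball G r v
  · have h2 : {s : Set (Sym2 V) | e ∈ s → ∀ y ∈ e, y ∉ ball G r v} = univ :=
      eq_univ_of_forall fun s _ => h
    rw [h2]
    exact MeasurableSet.univ
  · have h2 : {s : Set (Sym2 V) | e ∈ s → ∀ y ∈ e, y ∉ ball G r v} = {s | e ∉ s} := by
      ext s
      exact ⟨fun hs he => h (hs he), fun hs he => absurd he hs⟩
    rw [h2]
    exact measurableSet_notMem e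

lemma meas_low {V : Type u} [Countable V] (G : SimpleGraph V) (ξ : Set V → Set V) (r : ℕ)
    (x y : V) : MeasurableSet {s : Set (Sym2 V) | y ∈ Low G ξ r {v | closedAt G r s v} x} := by
  have h1 : {s : Set (Sym2 V) | y ∈ Low G ξ r {v | closedAt G r s v} x} =
      ({s | closedAt G r s y} ∩ {_s | x ∉ hull G ξ r y}) ∩
        ⋂ u : V, ({s | closedAt G r s u}ᶜ ∪
          {_s | x ∉ hull G ξ r u → ¬ Disjoint (ball G r u) (hull G ξ r y)}) := by
    ext s
    constructor
    · rintro ⟨⟨h1, h2⟩, h3⟩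
      refine ⟨⟨h1, h2⟩, mem_iInter.2 fun u => ?_⟩
      by_cases hu : closedAt G r s u
      · exact Or.inr fun hx => h3 u ⟨hu, hx⟩
      · exact Or.inl hu
    · rintro ⟨⟨h1, h2⟩, h3⟩
      refine ⟨⟨h1, h2⟩, fun u hu => ?_⟩
      rcases mem_iInter.1 h3 u with h | h
      · exact absurd hu.1 h
      · exact h hu.2
  rw [h1]
  exact ((meas_closedAt G r y).inter (MeasurableSet.const _)).inter
    (MeasurableSet.iInter fun u => (meas_closedAt G r u).compl.union (MeasurableSet.const _))

theorem prf : MeasLowStmt.{u} := by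
  intro V _ G ξ r x y m
  have hm : Measurable (fun s : Set (Sym2 V) => Low G ξ r {v | closedAt G r s v} x) :=
    measurable_set_iff.2 fun a => measurableSet_setOfPred.1 (meas_low G ξ r x a)
  refine (meas_low G ξ r x y).inter ?_
  exact (measurable_encard.comp hm) (t := Iic (m : ℕ∞)) (MeasurableSet.of_discrete)

end Pool.Agent.Work.MP_c58d8b_pr.NMEASLOW
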