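import Pool.Agent.Work.MP_c58d8b_pr.Stmts2

set_option autoImplicit false

/-! Item NOHEAVY of block c58d8b: if the group fixes an end, there is no heavy cluster
for `p < 1`. -/

universe u

open MeasureTheory ProbabilityTheory Set
open scoped ENNReal unitInterval

namespace Pool.Agent.Work.MP_c58d8b_pr.NNOHEAVY

variable {V : Type u}

/-- The event used in the mass transport. -/
def EvA (G : SimpleGraph V) (ξ : Set V → Set V) (r m : ℕ) (x y : V) : Set (Set (Sym2 V)) :=
  {s : Set (Sym2 V) | y ∈ Low G ξ r {v | closedAt G r s v} x ∧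
      (Low G ξ r {v | closedAt G r s v} x).encard ≤ m}

/-- Counting lemma: the sum of the indicators is at most `m`. -/
lemma tsum_ind_le (G : SimpleGraph V) (ξ : Set V → Set V) (r m : ℕ) (o : V)
    (s : Set (Sym2 V)) :
    ∑' y, (EvA G ξ r m o y).indicator (1 : Set (Sym2 V) → ℝ≥0∞) s ≤ (m : ℝ≥0∞) := by
  classical
  set L : Set V := Low G ξ r {v | closedAt G r s v} o with hL
  by_cases hm : L.encard ≤ m
  · have h1 : ∀ y, (EvA G ξ r m o y).indicator (1 : Set (Sym2 V) → ℝ≥0∞) s
        = L.indicator (fun _ => (1 : ℝ≥0∞)) y := by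
      intro y
      by_cases hy : y ∈ L
      · have : s ∈ EvA G ξ r m o y := ⟨hy, hm⟩
        simp [this, hy]
      · have : s ∉ EvA G ξ r m o y := fun h => hy h.1
        simp [this, hy]
    rw [tsum_congr h1, ← tsum_subtype, ENNReal.tsum_set_one]
    calc ((L.encard : ℕ∞) : ℝ≥0∞) ≤ ((m : ℕ∞) : ℝ≥0∞) := by exact_mod_cast hm
      _ = (m : ℝ≥0∞) := by simp
  · have h1 : ∀ y, (EvA G ξ r m o y).indicator (1 : Set (Sym2 V) → ℝ≥0∞) s = 0 := by
      intro y
      have : s ∉ EvA G ξ r m o y := fun h => hm h.2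
      simp [this]
    rw [tsum_congr h1]
    simp

theorem prf (hb : Basics.{u}) (hv : InvStmt.{u}) (hw : WeightStmt.{u}) (hm : MtpStmt.{u})
    (ha : AboveStmt.{u}) (hc : ClosedStmt.{u}) (hl : LowStmt.{u}) (hk : ConstStmt.{u})
    (he : EqvStmt.{u}) (hML : MeasLowStmt.{u}) : NoHeavyStmt.{u} := by
  classical
  intro V _ G Γ hcon hloc hpres htrans hthree hfix p hp
  obtain ⟨ξ, h1, h2, h3⟩ := hfix
  have hξ : IsFixedEnd G Γ ξ := ⟨fun K hK => (h1 K hK).1, fun K hK => (h1 K hK).2, h2, h3⟩
  obtain ⟨r, hr⟩ := ha V G Γ ξ hcon hloc hpres htrans hthree hξ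
  have hprob : IsProbabilityMeasure (perc G p) := by unfold perc; infer_instance
  -- measurability
  have hAm : ∀ (m : ℕ) (x y : V), MeasurableSet (EvA G ξ r m x y) := fun m x y =>
    hML V G ξ r x y m
  -- step 1
  have step1 : ∀ᵐ s ∂(perc G p), ∀ x, (Up G ξ r {v | closedAt G r s v} x).Nonempty := by
    rw [ae_all_iff]
    intro x
    have := hc V G Γ hcon hloc hpres htrans p hp r {v | x ∉ hull G ξ r v} (fun F hF => by
      obtain ⟨v, hv1, hv2⟩ := hr x F hF
      exact ⟨v, hv1, hv2⟩)
    filter_upwards [this] with s hs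
    obtain ⟨v, hv1, hv2⟩ := hs
    exact ⟨v, hv2, hv1⟩
  -- step 2: invariance
  have hinv : ∀ m : ℕ, ∀ γ ∈ Γ, ∀ x y, perc G p (EvA G ξ r m (γ x) (γ y)) =
      perc G p (EvA G ξ r m x y) := by
    intro m γ hγ x y
    rw [← hv V G p γ (fun a b => hpres γ hγ a b) (EvA G ξ r m (γ x) (γ y)) (hAm m _ _)]
    congr 1
    ext s
    have e1 := he V G Γ ξ hcon hloc hpres hξ γ hγ r s x
    simp only [EvA, Set.mem_ofPred_eq]
    rw [e1, γ.injective.encard_image, γ.injective.mem_set_image]
  -- step 3: the mass sent out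
  have hout : ∀ (m : ℕ) (o : V), ∑' y, perc G p (EvA G ξ r m o y) ≤ (m : ℝ≥0∞) := by
    intro m o
    calc ∑' y, perc G p (EvA G ξ r m o y)
        = ∑' y, ∫⁻ s, (EvA G ξ r m o y).indicator 1 s ∂(perc G p) := by
          refine tsum_congr (fun y => ?_)
          rw [lintegral_indicator_one (hAm m o y)]
      _ = ∫⁻ s, ∑' y, (EvA G ξ r m o y).indicator 1 s ∂(perc G p) := by
          rw [lintegral_tsum]
          intro y
          exact ((measurable_one).indicator (hAm m o y)).aemeasurable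
      _ ≤ ∫⁻ s, (m : ℝ≥0∞) ∂(perc G p) := lintegral_mono (fun s => tsum_ind_le G ξ r m o s)
      _ = (m : ℝ≥0∞) := by simp
  -- step 4: almost sure finiteness
  have step4 : ∀ᵐ s ∂(perc G p), ∀ (m : ℕ) (o : V),
      ∑' x, (EvA G ξ r m x o).indicator
        (fun _ => ENNReal.ofReal (weight Γ x o)) s < ⊤ := by
    rw [ae_all_iff]
    intro m
    rw [ae_all_iff]
    intro o
    have hmeas : ∀ x : V, Measurable (fun s => (EvA G ξ r m x o).indicator
        (fun _ => ENNReal.ofReal (weight Γ x o)) s) := fun x =>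
      (measurable_const).indicator (hAm m x o)
    apply ae_lt_top (Measurable.ennreal_tsum hmeas)
    rw [lintegral_tsum (fun x => (hmeas x).aemeasurable)]
    have e2 : ∀ x, ∫⁻ s, (EvA G ξ r m x o).indicator
        (fun _ => ENNReal.ofReal (weight Γ x o)) s ∂(perc G p) =
        perc G p (EvA G ξ r m x o) * ENNReal.ofReal (weight Γ x o) := by
      intro x
      rw [lintegral_indicator_const (hAm m x o), mul_comm]
    rw [tsum_congr e2, hm V G Γ hcon hloc hpres htrans
      (fun x y => perc G p (EvA G ξ r m x y)) (hinv m) o]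
    exact ne_top_of_le_ne_top (ENNReal.natCast_ne_top m) (hout m o)
  -- step 5: open edges are edges
  have step5 : ∀ᵐ s ∂(perc G p), s ⊆ G.edgeSet := by
    unfold perc
    exact setBernoulli_ae_subset
  -- conclusion
  have main : ∀ᵐ s ∂(perc G p), s ∉ HeavyEvent Γ := by
    filter_upwards [step1, step4, step5] with s hs1 hs4 hs5
    rintro ⟨x, hx⟩
    obtain ⟨hne, hfin⟩ := hl V G Γ ξ hcon hloc hξ r {v | closedAt G r s v} x (hs1 x)
    obtain ⟨y, hy⟩ := hne
    have hmm : (Low G ξ r {v | closedAt G r s v} x).encard ≤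
        ((Low G ξ r {v | closedAt G r s v} x).ncard : ℕ∞) := by
      rw [hfin.cast_ncard_eq]
    set m : ℕ := (Low G ξ r {v | closedAt G r s v} x).ncard with hmdef
    have hlt := hs4 m y
    have hle : ∑' x' : Cluster s x, ENNReal.ofReal (weight Γ x' y) ≤
        ∑' x', (EvA G ξ r m x' y).indicator
          (fun _ => ENNReal.ofReal (weight Γ x' y)) s := by
      rw [tsum_subtype (Cluster s x) (fun x' => ENNReal.ofReal (weight Γ x' y))]
      refine ENNReal.tsum_le_tsum (fun x' => ?_)
      by_cases hx' : x' ∈ Cluster s x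
      · have e3 := hk V G ξ hcon hloc hξ.comps r s hs5 x x' hx'
        have hmem : s ∈ EvA G ξ r m x' y := by
          refine ⟨?_, ?_⟩
          · rw [← e3]; exact hy
          · rw [← e3]; exact hmm
        rw [Set.indicator_of_mem hx', Set.indicator_of_mem hmem]
      · rw [Set.indicator_of_notMem hx']
        exact zero_le
    have htop := hx y
    rw [htop] at hle
    exact absurd (lt_of_le_of_lt hle hlt) (lt_irrefl _)
  rw [ae_iff] at main
  simpa using main

end Pool.Agent.Work.MP_c58d8b_pr.NNOHEAVY
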