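import Pool.Agent.Work.MP_c58d8b_pr.Stmts

set_option autoImplicit false

namespace Pool.Agent.Work.MP_c58d8b_pr.NPATHS

open MeasureTheory ProbabilityTheory Set

universe u

variable {V : Type u}

/-- A walk of `G` whose image under `γ` has all its edges in `ω` connects the images of its
endpoints in `ω`. -/
theorem reach_map {G : SimpleGraph V} (γ : Equiv.Perm V) (ω : Set (Sym2 V)) :
    ∀ {x y : V} (p : G.Walk x y), (∀ e ∈ p.edges, Sym2.map γ e ∈ ω) →
      (SimpleGraph.fromEdgeSet ω).Reachable (γ x) (γ y) := by
  intro x y p
  induction p with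
  | nil => intro _; exact SimpleGraph.Reachable.refl _
  | @cons a b c h q ih =>
    intro hp
    have h1 : (SimpleGraph.fromEdgeSet ω).Adj (γ a) (γ b) := by
      rw [SimpleGraph.fromEdgeSet_adj]
      refine ⟨?_, fun h' => h.ne (γ.injective h')⟩
      have := hp s(a, b) (by simp)
      simpa using this
    refine h1.reachable.trans (ih fun e he => hp e ?_)
    rw [SimpleGraph.Walk.edges_cons]
    exact List.mem_cons_of_mem _ he

open Classical in
/-- The edges of the path which leads to the vertex coded by a word from the vertex coded by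
the word without its last letter. -/
noncomputable def EE {G : SimpleGraph V} (s : Bool → Equiv.Perm V) (o : V)
    (P : ∀ i, G.Walk o (s i o)) (w : List Bool) : Finset (Sym2 V) :=
  match w.getLast? with
  | none => ∅
  | some i => (P i).edges.toFinset.image (Sym2.map (word s w.dropLast))

theorem mem_EE {G : SimpleGraph V} (s : Bool → Equiv.Perm V) (o : V)
    (P : ∀ i, G.Walk o (s i o)) (w : List Bool) (e : Sym2 V) :
    e ∈ EE s o P w ↔ ∃ i, w.getLast? = some i ∧ ∃ e' ∈ (P i).edges,
      Sym2.map (word s w.dropLast) e' = e := by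
  unfold EE
  cases h : w.getLast? with
  | none => simp
  | some i => simp

theorem card_EE {G : SimpleGraph V} (s : Bool → Equiv.Perm V) (o : V)
    (P : ∀ i, G.Walk o (s i o)) (L : ℕ) (hL : ∀ i, (P i).length ≤ L) (w : List Bool) :
    (EE s o P w).card ≤ L := by
  classical
  unfold EE
  cases h : w.getLast? with
  | none => simp
  | some i =>
    refine Finset.card_image_le.trans ((List.toFinset_card_le _).trans ?_)
    rw [SimpleGraph.Walk.length_edges]
    exact hL i

theorem word_mem (Γ : Subgroup (Equiv.Perm V)) (s : Bool → Equiv.Perm V) (hs : ∀ i, s i ∈ Γ)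
    (w : List Bool) : word s w ∈ Γ := by
  unfold word
  refine Subgroup.list_prod_mem _ fun x hx => ?_
  obtain ⟨i, _, rfl⟩ := List.mem_map.1 hx
  exact hs i

theorem word_append (s : Bool → Equiv.Perm V) (w : List Bool) (i : Bool) (o : V) :
    word s (w ++ [i]) o = word s w (s i o) := by
  simp [word]

theorem prf (hb : Basics.{u}) : PathsStmt.{u} := by
  intro V G Γ hG hloc hΓ htr s hs o hinj
  have hP : ∀ i, ∃ _p : G.Walk o (s i o), True := fun i =>
    ⟨(hG.preconnected o (s i o)).some, trivial⟩
  choose P _ using hP
  set L : ℕ := max (P false).length (P true).length with hLdef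
  have hL : ∀ i, (P i).length ≤ L := by
    intro i
    cases i
    · exact le_max_left _ _
    · exact le_max_right _ _
  have hball := hb.ball_finite V G hG hloc o L
  refine ⟨L, hball.toFinset.card * 3, EE s o P, ?_, card_EE s o P L hL, ?_, ?_⟩
  · intro v e he
    obtain ⟨i, _, e', he', rfl⟩ := (mem_EE s o P v e).1 (Finset.mem_coe.1 he)
    have h1 : e' ∈ G.edgeSet := (P i).edges_subset_edgeSet he'
    induction e' using Sym2.ind with
    | _ x y =>
      rw [Sym2.map_mk, SimpleGraph.mem_edgeSet]
      exact (hΓ _ (word_mem Γ s hs _) x y).2 h1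
  · intro e B hB
    obtain ⟨x, hx⟩ : ∃ x, x ∈ e := by
      induction e using Sym2.ind with
      | _ x y => exact ⟨x, Sym2.mem_mk_left x y⟩
    obtain ⟨γ, hγ, hγx⟩ := htr o x
    have hcard : (hball.toFinset ×ˢ (Finset.univ : Finset (Option Bool))).card
        = hball.toFinset.card * 3 := by
      rw [Finset.card_product]
      rfl
    rw [← hcard]
    refine Finset.card_le_card_of_injOn
      (fun b => (γ⁻¹ (word s b.dropLast o), b.getLast?)) ?_ ?_
    · intro b hb'
      obtain ⟨i, hi, e', he', hee⟩ := (mem_EE s o P b e).1 (hB b (Finset.mem_coe.1 hb'))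
      rw [Finset.mem_coe, Finset.mem_product]
      refine ⟨?_, Finset.mem_univ _⟩
      rw [Set.Finite.mem_toFinset, Set.mem_ofPred_eq]
      have hx' : x ∈ Sym2.map (word s b.dropLast) e' := by rw [hee]; exact hx
      rw [Sym2.mem_map] at hx'
      obtain ⟨z, hz, hzx⟩ := hx'
      have hzs : z ∈ (P i).support := by
        induction e' using Sym2.ind with
        | _ a c =>
          rcases Sym2.mem_iff.1 hz with h | h
          · rw [h]; exact (P i).fst_mem_support_of_mem_edges he'
          · rw [h]; exact (P i).snd_mem_support_of_mem_edges he'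
      have hd : G.dist o z ≤ L := by
        classical
        exact (SimpleGraph.dist_le ((P i).takeUntil z hzs)).trans
          (((P i).length_takeUntil_le_length hzs).trans (hL i))
      have hA : IsAut G γ⁻¹ := fun a c => hΓ _ (Γ.inv_mem hγ) a c
      have hW : IsAut G (word s b.dropLast) := fun a c => hΓ _ (word_mem Γ s hs _) a c
      have hox : o = γ⁻¹ x := by rw [← hγx]; simp
      calc G.dist o (γ⁻¹ (word s b.dropLast o))
          = G.dist (γ⁻¹ x) (γ⁻¹ (word s b.dropLast o)) := by rw [← hox]
        _ = G.dist x (word s b.dropLast o) := hb.dist_image V G _ hA _ _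
        _ = G.dist (word s b.dropLast z) (word s b.dropLast o) := by rw [hzx]
        _ = G.dist z o := hb.dist_image V G _ hW _ _
        _ = G.dist o z := G.dist_comm
        _ ≤ L := hd
    · intro b hb1 c hc1 hbc
      obtain ⟨i, hi, -⟩ := (mem_EE s o P b e).1 (hB b (Finset.mem_coe.1 hb1))
      obtain ⟨j, hj, -⟩ := (mem_EE s o P c e).1 (hB c (Finset.mem_coe.1 hc1))
      simp only [Prod.mk.injEq] at hbc
      have h1 : b.dropLast = c.dropLast := hinj (γ⁻¹.injective hbc.1)
      have h2 : i = j := by
        have := hbc.2
        rw [hi, hj] at this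
        exact Option.some.inj this
      have hb3 : b = b.dropLast ++ [i] := (List.dropLast_append_getLast? i hi).symm
      have hc3 : c = c.dropLast ++ [j] := (List.dropLast_append_getLast? j hj).symm
      rw [hb3, hc3, h1, h2]
  · intro ω w
    induction w using List.reverseRecOn with
    | nil => intro _; simp [word]
    | append_singleton w i ih =>
      intro hv
      have h1 := ih fun v hvw => hv v (hvw.trans (List.prefix_append _ _))
      rw [word_append]
      refine h1.trans (reach_map (word s w) ω (P i) fun e he => ?_)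
      refine hv (w ++ [i]) (List.prefix_refl _) ?_
      rw [Finset.mem_coe, mem_EE]
      refine ⟨i, by simp, e, he, ?_⟩
      simp

end Pool.Agent.Work.MP_c58d8b_pr.NPATHS
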