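import Pool.Agent.Work.MP_c58d8b_pr.Stmts

set_option autoImplicit false

/-!
# Item PEIERLS: the abstract Peierls bound on the binary tree
-/

namespace Pool.Agent.Work.MP_c58d8b_pr.NPEIERLS

open MeasureTheory ProbabilityTheory Set
open scoped ENNReal

universe u

variable {Ω : Type u}

/-- Every word of length `N` below `v` has a prefix in the cut. -/
def DD (C : List Bool → Set Ω) (N : ℕ) (v : List Bool) : Set Ω :=
  {ω | ∀ w : List Bool, w.length = N → ∃ w', w' <+: w ∧ ω ∈ C (v ++ w')}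

theorem DD_zero {C : List Bool → Set Ω} {v : List Bool} {ω : Ω} (h : ω ∈ DD C 0 v) : ω ∈ C v := by
  obtain ⟨w', hw', hC⟩ := h [] rfl
  rw [List.prefix_nil] at hw'
  subst hw'
  simpa using hC

theorem DD_succ {C : List Bool → Set Ω} {N : ℕ} {v : List Bool} {ω : Ω}
    (h : ω ∈ DD C (N + 1) v) (hv : ω ∉ C v) (b : Bool) : ω ∈ DD C N (v ++ [b]) := by
  intro w hw
  obtain ⟨w', hw', hC⟩ := h (b :: w) (by simp [hw])
  rcases List.prefix_cons_iff.1 hw' with rfl | ⟨t, rfl, ht⟩
  · exact absurd (by simpa using hC) hv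
  · exact ⟨t, ht, by simpa using hC⟩

/-- The family of all cuts of the tree of depth `N` below a vertex. -/
theorem exists_cuts (C : List Bool → Set Ω) (α : ℝ≥0∞) (hα : α ≤ 1 / 4) (N : ℕ) :
    ∃ (ι : Type) (_ : Fintype ι) (e : ι → List Bool → Finset (List Bool)),
      (∀ i v, ∀ b ∈ e i v, v <+: b) ∧
      (∀ v ω, ω ∈ DD C N v → ∃ i, ∀ b ∈ e i v, ω ∈ C b) ∧
      ∀ v, ∑ i, α ^ (e i v).card ≤ 1 / 2 := by
  have h4 : (1 / 4 : ℝ≥0∞) ≤ 1 / 2 := by
    refine ENNReal.div_le_div_left ?_ 1
    norm_num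
  induction N with
  | zero =>
    refine ⟨Unit, inferInstance, fun _ v => {v}, ?_, ?_, ?_⟩
    · intro _ v b hb
      rw [Finset.mem_singleton] at hb
      exact hb ▸ List.prefix_refl _
    · intro v ω hω
      refine ⟨(), fun b hb => ?_⟩
      rw [Finset.mem_singleton] at hb
      exact hb ▸ DD_zero hω
    · intro v
      simpa using hα.trans h4
  | succ N ih =>
    obtain ⟨ι, hι, e, he1, he2, he3⟩ := ih
    refine ⟨Option (ι × ι), inferInstance, fun o v => match o with
      | none => {v}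
      | some p => e p.1 (v ++ [false]) ∪ e p.2 (v ++ [true]), ?_, ?_, ?_⟩
    · intro o v b hb
      rcases o with _ | ⟨i, j⟩
      · rw [Finset.mem_singleton] at hb
        exact hb ▸ List.prefix_refl _
      · rcases Finset.mem_union.1 hb with hb | hb
        · exact (List.prefix_append v [false]).trans (he1 _ _ _ hb)
        · exact (List.prefix_append v [true]).trans (he1 _ _ _ hb)
    · intro v ω hω
      by_cases hv : ω ∈ C v
      · refine ⟨none, fun b hb => ?_⟩
        rw [Finset.mem_singleton] at hb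
        exact hb ▸ hv
      · obtain ⟨i, hi⟩ := he2 _ _ (DD_succ hω hv false)
        obtain ⟨j, hj⟩ := he2 _ _ (DD_succ hω hv true)
        refine ⟨some (i, j), fun b hb => ?_⟩
        rcases Finset.mem_union.1 hb with hb | hb
        · exact hi b hb
        · exact hj b hb
    · intro v
      have hdis : ∀ i j, Disjoint (e i (v ++ [false])) (e j (v ++ [true])) := by
        intro i j
        rw [Finset.disjoint_left]
        intro b hb hb'
        obtain ⟨t, ht⟩ := he1 _ _ _ hb
        obtain ⟨t', ht'⟩ := he1 _ _ _ hb'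
        have h : v ++ [false] ++ t = v ++ [true] ++ t' := ht.trans ht'.symm
        simp at h
      rw [Fintype.sum_option, Fintype.sum_prod_type]
      have h1 : ∀ i j : ι, α ^ (e i (v ++ [false]) ∪ e j (v ++ [true])).card =
          α ^ (e i (v ++ [false])).card * α ^ (e j (v ++ [true])).card := by
        intro i j
        rw [Finset.card_union_of_disjoint (hdis i j), pow_add]
      have h2 : ∑ i : ι, ∑ j : ι, α ^ (e i (v ++ [false]) ∪ e j (v ++ [true])).card =
          (∑ i : ι, α ^ (e i (v ++ [false])).card) * ∑ j : ι, α ^ (e j (v ++ [true])).card := by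
        rw [Finset.sum_mul_sum]
        exact Finset.sum_congr rfl fun i _ => Finset.sum_congr rfl fun j _ => h1 i j
      have h3 : (1 / 4 : ℝ≥0∞) + 1 / 2 * (1 / 2) = 1 / 2 := by
        have h5 : (1 / 2 : ℝ≥0∞) * (1 / 2) = 1 / 4 := by
          rw [← ENNReal.ofReal_one, ← ENNReal.ofReal_ofNat 2, ← ENNReal.ofReal_ofNat 4,
            ← ENNReal.ofReal_div_of_pos (by norm_num), ← ENNReal.ofReal_div_of_pos (by norm_num),
            ← ENNReal.ofReal_mul (by norm_num)]
          norm_num
        have h6 : (1 / 4 : ℝ≥0∞) + 1 / 4 = 1 / 2 := by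
          rw [← ENNReal.ofReal_one, ← ENNReal.ofReal_ofNat 2, ← ENNReal.ofReal_ofNat 4,
            ← ENNReal.ofReal_div_of_pos (by norm_num), ← ENNReal.ofReal_div_of_pos (by norm_num),
            ← ENNReal.ofReal_add (by norm_num) (by norm_num)]
          norm_num
        rw [h5, h6]
      calc α ^ ({v} : Finset (List Bool)).card +
            ∑ i : ι, ∑ j : ι, α ^ (e i (v ++ [false]) ∪ e j (v ++ [true])).card
          ≤ 1 / 4 + 1 / 2 * (1 / 2) := by
            rw [h2]
            refine add_le_add ?_ (mul_le_mul' (he3 _) (he3 _))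
            simpa using hα
        _ = 1 / 2 := h3

theorem prf : PeierlsStmt.{u} := by
  intro Ω _ μ C α hα hμ N
  obtain ⟨ι, hι, e, -, he2, he3⟩ := exists_cuts C α hα N
  have hsub : {ω | ∀ w : List Bool, w.length = N → ∃ v, v <+: w ∧ ω ∈ C v} ⊆
      ⋃ i, ⋂ b ∈ e i [], C b := by
    intro ω hω
    obtain ⟨i, hi⟩ := he2 [] ω (by
      intro w hw
      simpa using hω w hw)
    exact mem_iUnion.2 ⟨i, mem_iInter₂.2 hi⟩
  calc μ {ω | ∀ w : List Bool, w.length = N → ∃ v, v <+: w ∧ ω ∈ C v}
      ≤ μ (⋃ i, ⋂ b ∈ e i [], C b) := measure_mono hsub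
    _ ≤ ∑ i, μ (⋂ b ∈ e i [], C b) := measure_iUnion_fintype_le _ _
    _ ≤ ∑ i, α ^ (e i []).card := Finset.sum_le_sum fun i _ => hμ _
    _ ≤ 1 / 2 := he3 []

end Pool.Agent.Work.MP_c58d8b_pr.NPEIERLS
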