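import Pool.Agent.Work.MP_c58d8b_pr.Stmts

set_option autoImplicit false

namespace Pool.Agent.Work.MP_c58d8b_pr.NPUSH

open MeasureTheory ProbabilityTheory Set
open Pool.Agent.Work.MP_c58d8b_pr

universe u

theorem first (hb : Basics.{u}) (V : Type u) (G : SimpleGraph V) (Γ : Subgroup (Equiv.Perm V))
    (K : Set V) (hG : G.Connected) (hP : Preserves Γ G) (hKne : K.Nonempty) (hK : Conn G K)
    (g : Equiv.Perm V) (hg : g ∈ Γ) (hd : Disjoint (g '' K) K) :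
    ∃ D ∈ Comps G K, ∃ R ∈ Comps G K, K ⊆ g '' D ∧ g '' K ⊆ R ∧ g ∈ T Γ D R := by
  have hg' : g⁻¹ ∈ Γ := Γ.inv_mem hg
  obtain ⟨k, hk⟩ := hKne
  have hgk : g k ∉ K := fun h => Set.disjoint_left.1 hd ⟨k, hk, rfl⟩ h
  obtain ⟨R, hR, hkR⟩ := hb.exists_comp V G K (g k) hgk
  have hKR : g '' K ⊆ R := hb.conn_subset V G K (g '' K)
    (hb.conn_image V G g (hP g hg) K hK) hd R hR ⟨g k, ⟨k, hk, rfl⟩, hkR⟩
  have hd' : Disjoint ((g⁻¹ : Equiv.Perm V) '' K) K := by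
    rw [Set.disjoint_left]
    rintro _ ⟨a, ha, rfl⟩ hb'
    exact Set.disjoint_left.1 hd ⟨g⁻¹ a, hb', by simp⟩ ha
  have hgk' : (g⁻¹ : Equiv.Perm V) k ∉ K := fun h => Set.disjoint_left.1 hd' ⟨k, hk, rfl⟩ h
  obtain ⟨D, hD, hkD⟩ := hb.exists_comp V G K ((g⁻¹ : Equiv.Perm V) k) hgk'
  have hKD : (g⁻¹ : Equiv.Perm V) '' K ⊆ D := hb.conn_subset V G K ((g⁻¹ : Equiv.Perm V) '' K)
    (hb.conn_image V G g⁻¹ (hP g⁻¹ hg') K hK) hd' D hD ⟨_, ⟨k, hk, rfl⟩, hkD⟩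
  have hKgD : K ⊆ g '' D := by
    intro x hx
    exact ⟨(g⁻¹ : Equiv.Perm V) x, hKD ⟨x, hx, rfl⟩, by simp⟩
  refine ⟨D, hD, R, hR, hKgD, hKR, hg, ?_⟩
  have hDK : Disjoint D K := hb.comps_disjoint V G K D hD
  apply hb.conn_subset V G K (g '' Dᶜ)
    (hb.conn_image V G g (hP g hg) Dᶜ (hb.compl_conn V G K hG ⟨k, hk⟩ hK D hD)) ?_ R hR ?_
  · rw [Set.disjoint_left]
    rintro _ ⟨a, ha, rfl⟩ h
    obtain ⟨b, hb1, hb2⟩ := hKgD h
    exact ha (g.injective hb2 ▸ hb1)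
  · exact ⟨g k, ⟨k, fun h => Set.disjoint_left.1 hDK h hk, rfl⟩, hkR⟩

theorem second (hb : Basics.{u}) (V : Type u) (G : SimpleGraph V) (Γ : Subgroup (Equiv.Perm V))
    (K : Set V) (hG : G.Connected) (hL : LocFinite G) (hP : Preserves Γ G)
    (hT : Transitive Γ) (hKf : K.Finite) (hKne : K.Nonempty) (hK : Conn G K)
    (R : Set V) (hR : R ∈ Comps G K) (hRi : R.Infinite) :
    ∃ g ∈ Γ, Disjoint (g '' K) K ∧ g '' K ⊆ R := by
  obtain ⟨o, ho⟩ := hKne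
  obtain ⟨r, hr⟩ : ∃ r : ℕ, ∀ k ∈ K, G.dist o k ≤ r := by
    obtain ⟨r, hr⟩ := (hKf.image (fun k => G.dist o k)).bddAbove
    exact ⟨r, fun k hk => hr ⟨k, hk, rfl⟩⟩
  have hfin : (⋃ k ∈ K, {y | G.dist k y ≤ r}).Finite :=
    hKf.biUnion fun k _ => hb.ball_finite V G hG hL k r
  obtain ⟨x, hxR, hx⟩ := (hRi.sdiff hfin).nonempty
  obtain ⟨g, hg, hgx⟩ := hT o x
  have hd : Disjoint (g '' K) K := by
    rw [Set.disjoint_left]
    rintro _ ⟨a, ha, rfl⟩ h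
    apply hx
    simp only [Set.mem_iUnion, Set.mem_ofPred_eq]
    refine ⟨g a, h, ?_⟩
    rw [← hgx, SimpleGraph.dist_comm, hb.dist_image V G g (hP g hg) o a]
    exact hr a ha
  exact ⟨g, hg, hd, hb.conn_subset V G K (g '' K) (hb.conn_image V G g (hP g hg) K hK) hd R hR
    ⟨x, ⟨o, ho, hgx⟩, hxR⟩⟩

theorem prf (hb : Basics.{u}) : PushStmt.{u} :=
  fun V G Γ K hG hL hP hT hKf hKne hK =>
    ⟨fun g hg hd => first hb V G Γ K hG hP hKne hK g hg hd,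
      fun R hR hRi => second hb V G Γ K hG hL hP hT hKf hKne hK R hR hRi⟩

end Pool.Agent.Work.MP_c58d8b_pr.NPUSH
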