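import Pool.Agent.Work.MP_c58d8b_pr.Stmts

set_option autoImplicit false

/-! Item THREE: having at least three ends only depends on the group. -/

namespace Pool.Agent.Work.MP_c58d8b_pr.NTHREE

open MeasureTheory ProbabilityTheory Set

universe u

variable {V : Type u}

/-- A walk with all its vertices in `A` is a walk of `within G A`. -/
theorem walk_within (G : SimpleGraph V) (A : Set V) {x y : V} (p : G.Walk x y)
    (h : ∀ v ∈ p.support, v ∈ A) : (within G A).Reachable x y := by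
  induction p with
  | nil => exact SimpleGraph.Reachable.refl _
  | @cons a b c hab q ih =>
    have h1 : (within G A).Adj a b :=
      ⟨hab, h a (by simp), h b (by simp)⟩
    refine h1.reachable.trans (ih ?_)
    intro v hv
    exact h v (by simp [hv])

/-- The distance in `G` of two neighbours in `G'` is bounded. -/
theorem exists_bound (hb : Basics.{u}) (G G' : SimpleGraph V) (Γ : Subgroup (Equiv.Perm V))
    (hG : G.Connected) (hlf' : LocFinite G') (hP : Preserves Γ G) (hP' : Preserves Γ G')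
    (hT : Transitive Γ) : ∃ R : ℕ, ∀ x y, G'.Adj x y → G.dist x y ≤ R := by
  obtain ⟨o⟩ := hG.nonempty
  obtain ⟨R, hR⟩ := ((hlf' o).image (fun y => G.dist o y)).bddAbove
  refine ⟨R, fun x y hxy => ?_⟩
  obtain ⟨γ, hγ, rfl⟩ := hT o x
  have h1 : G'.Adj o (γ.symm y) := by
    rw [← hP' γ hγ]
    simpa using hxy
  have h2 : G.dist (γ o) y = G.dist o (γ.symm y) := by
    have h3 := hb.dist_image V G γ (fun a b => hP γ hγ a b) o (γ.symm y)
    simpa using h3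
  rw [h2]
  exact hR (Set.mem_image_of_mem (fun y => G.dist o y) h1)

theorem reach_of_adj (G G' : SimpleGraph V) (hG : G.Connected) (R : ℕ)
    (hR : ∀ x y, G'.Adj x y → G.dist x y ≤ R) (K : Set V) {x y : V} (hxy : G'.Adj x y)
    (hx : x ∉ {v | ∃ f ∈ K, G.dist f v ≤ R}) : (within G Kᶜ).Reachable x y := by
  obtain ⟨p, hp⟩ := hG.exists_walk_length_eq_dist x y
  refine walk_within G Kᶜ p ?_
  intro v hv hvK
  classical
  apply hx
  refine ⟨v, hvK, ?_⟩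
  rw [SimpleGraph.dist_comm]
  calc G.dist x v ≤ (p.takeUntil v hv).length := SimpleGraph.dist_le _
    _ ≤ p.length := p.length_takeUntil_le_length hv
    _ = G.dist x y := hp
    _ ≤ R := hR x y hxy

theorem reach_mono (G G' : SimpleGraph V) (hG : G.Connected) (R : ℕ)
    (hR : ∀ x y, G'.Adj x y → G.dist x y ≤ R) (K : Set V) {x y : V}
    (h : (within G' {v | ∃ f ∈ K, G.dist f v ≤ R}ᶜ).Reachable x y) :
    (within G Kᶜ).Reachable x y := by
  obtain ⟨p⟩ := h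
  induction p with
  | nil => exact SimpleGraph.Reachable.refl _
  | @cons a b c hab q ih =>
    exact (reach_of_adj G G' hG R hR K hab.1 hab.2.1).trans ih

theorem exists_sub (hb : Basics.{u}) (G G' : SimpleGraph V) (hG : G.Connected)
    (hG' : G'.Connected) (hlf : LocFinite G) (hlf' : LocFinite G') (R : ℕ)
    (hR : ∀ x y, G'.Adj x y → G.dist x y ≤ R) (K : Set V) (hK : K.Finite)
    (hL : {v | ∃ f ∈ K, G.dist f v ≤ R}.Finite)
    (C : Set V) (hC : C ∈ Comps G K) (hCi : C.Infinite) :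
    ∃ D ∈ Comps G' {v | ∃ f ∈ K, G.dist f v ≤ R}, D.Infinite ∧ D ⊆ C := by
  by_contra hcon
  push Not at hcon
  set L : Set V := {v | ∃ f ∈ K, G.dist f v ≤ R} with hLdef
  have hfin : (Comps G' L).Finite := hb.comps_finite V G' L hG' hlf' hL
  have h1 : (C \ L).Infinite := hCi.sdiff hL
  apply h1
  have h2 : ({D | D ∈ Comps G' L ∧ D ⊆ C}).Finite := hfin.subset (fun D hD => hD.1)
  have h3 : (⋃₀ {D | D ∈ Comps G' L ∧ D ⊆ C}).Finite := by
    refine h2.sUnion ?_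
    rintro D ⟨hD1, hD2⟩
    by_contra hD3
    exact hcon D hD1 hD3 hD2
  refine h3.subset ?_
  rintro x ⟨hxC, hxL⟩
  obtain ⟨x₀, hx₀, rfl⟩ := hC
  refine ⟨comp G' L x, ⟨⟨x, hxL, rfl⟩, ?_⟩, SimpleGraph.Reachable.refl _⟩
  intro y hy
  exact SimpleGraph.Reachable.trans hxC (reach_mono G G' hG R hR K hy)

theorem prf (hb : Basics.{u}) : ThreeStmt.{u} := by
  intro V G G' Γ hG hG' hlf hlf' hP hP' hT hthree
  obtain ⟨R, hR⟩ := exists_bound hb G G' Γ hG hlf' hP hP' hT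
  obtain ⟨K, hK, C₁, hC₁, C₂, hC₂, C₃, hC₃, hi₁, hi₂, hi₃, h12, h13, h23⟩ := hthree
  have hL : {v | ∃ f ∈ K, G.dist f v ≤ R}.Finite := by
    have h1 : (⋃ f ∈ K, {v | G.dist f v ≤ R}).Finite :=
      hK.biUnion (fun f _ => hb.ball_finite V G hG hlf f R)
    refine h1.subset ?_
    rintro v ⟨f, hf, hfv⟩
    simp only [Set.mem_iUnion]
    exact ⟨f, hf, hfv⟩
  have key : ∀ C ∈ Comps G K, C.Infinite →
      ∃ D ∈ Comps G' {v | ∃ f ∈ K, G.dist f v ≤ R}, D.Infinite ∧ D ⊆ C := fun C hC hCi =>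
    exists_sub hb G G' hG hG' hlf hlf' R hR K hK hL C hC hCi
  obtain ⟨D₁, hD₁, hj₁, hs₁⟩ := key C₁ hC₁ hi₁
  obtain ⟨D₂, hD₂, hj₂, hs₂⟩ := key C₂ hC₂ hi₂
  obtain ⟨D₃, hD₃, hj₃, hs₃⟩ := key C₃ hC₃ hi₃
  have dist : ∀ C ∈ Comps G K, ∀ C' ∈ Comps G K, C ≠ C' → ∀ D D' : Set V, D.Infinite →
      D ⊆ C → D' ⊆ C' → D ≠ D' := by
    intro C hC C' hC' hne D D' hDi hDC hDC' heq
    obtain ⟨x, hx⟩ := hDi.nonempty
    apply hne
    exact hb.comps_eq V G K C hC C' hC' ⟨x, hDC hx, hDC' (heq ▸ hx)⟩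
  exact ⟨_, hL, D₁, hD₁, D₂, hD₂, D₃, hD₃, hj₁, hj₂, hj₃,
    dist C₁ hC₁ C₂ hC₂ h12 D₁ D₂ hj₁ hs₁ hs₂, dist C₁ hC₁ C₃ hC₃ h13 D₁ D₃ hj₁ hs₁ hs₃,
    dist C₂ hC₂ C₃ hC₃ h23 D₂ D₃ hj₂ hs₂ hs₃⟩

end Pool.Agent.Work.MP_c58d8b_pr.NTHREE
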