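import Pool.Agent.Work.MP_c58d8b_pr.I_LOW
import Pool.Agent.Work.MP_c58d8b_pr.I_EQV

set_option autoImplicit false

/-! Item TWO: on a transitive graph with exactly two ends all clusters are finite for `p < 1`. -/

namespace Pool.Agent.Work.MP_c58d8b_pr.NTWO

open MeasureTheory ProbabilityTheory Set
open scoped ENNReal unitInterval

universe u

variable {V : Type u}

/-- Every finite set lies in a ball around `o`. -/
lemma exists_ball {G : SimpleGraph V} (K : Set V) (hK : K.Finite) (o : V) :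
    ∃ r : ℕ, K ⊆ ball G r o := by
  obtain ⟨r, hr⟩ := (hK.image (fun y => G.dist o y)).bddAbove
  exact ⟨r, fun y hy => hr (mem_image_of_mem _ hy)⟩

/-- Refinement: an infinite component of `G - K` contains an infinite component of `G - L`
for finite `L ⊇ K`. -/
lemma refine_comp (hb : Basics.{u}) {G : SimpleGraph V} (hG : G.Connected) (hl : LocFinite G)
    {K L : Set V} (hKL : K ⊆ L) (hL : L.Finite) {C : Set V} (hC : C ∈ Comps G K)
    (hi : C.Infinite) : ∃ D ∈ Comps G L, D.Infinite ∧ D ⊆ C := by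
  by_contra hcon
  push Not at hcon
  have hfin : (⋃ D ∈ {D ∈ Comps G L | D ⊆ C}, D).Finite := by
    refine Set.Finite.biUnion ((hb.comps_finite V G L hG hl hL).subset (sep_subset _ _)) ?_
    intro D hD
    by_contra hDi
    exact hcon D hD.1 hDi hD.2
  refine hi ((hL.union hfin).subset ?_)
  intro y hy
  by_cases hyL : y ∈ L
  · exact Or.inl hyL
  · right
    obtain ⟨D, hD, hyD⟩ := hb.exists_comp V G L y hyL
    obtain ⟨C', hC', hDC'⟩ := hb.comps_mono V G K L hKL D hD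
    have : C' = C := hb.comps_eq V G K C' hC' C hC ⟨y, hDC' hyD, hy⟩
    subst this
    exact mem_biUnion (show D ∈ {D ∈ Comps G L | D ⊆ C'} from ⟨hD, hDC'⟩) hyD

/-- Some radius works for all vertices. -/
lemma two_balls (hb : Basics.{u}) {G : SimpleGraph V} {Γ : Subgroup (Equiv.Perm V)}
    (hG : G.Connected) (hl : LocFinite G) (hp : Preserves Γ G) (ht : Transitive Γ)
    (h2 : TwoEnds G) : ∃ r : ℕ, ∀ x : V, ∃ C₁ ∈ Comps G (ball G r x), ∃ C₂ ∈ Comps G (ball G r x),
      C₁.Infinite ∧ C₂.Infinite ∧ C₁ ≠ C₂ := by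
  obtain ⟨K, hK, C₁, hC₁, C₂, hC₂, i1, i2, hne⟩ := h2
  obtain ⟨o, -⟩ := i1.nonempty
  obtain ⟨r, hr⟩ := exists_ball (G := G) K hK o
  have hB := hb.ball_finite V G hG hl o r
  obtain ⟨D₁, hD₁, j1, s1⟩ := refine_comp hb hG hl hr hB hC₁ i1
  obtain ⟨D₂, hD₂, j2, s2⟩ := refine_comp hb hG hl hr hB hC₂ i2
  have hD : D₁ ≠ D₂ := by
    rintro rfl
    obtain ⟨z, hz⟩ := j1.nonempty
    exact hne (hb.comps_eq V G K _ hC₁ _ hC₂ ⟨z, s1 hz, s2 hz⟩)
  refine ⟨r, fun x => ?_⟩
  obtain ⟨γ, hγ, rfl⟩ := ht o x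
  have hA : IsAut G γ := hp γ hγ
  rw [NEQV.ball_map hb hA]
  refine ⟨γ '' D₁, hb.comps_image V G γ hA _ _ hD₁, γ '' D₂, hb.comps_image V G γ hA _ _ hD₂,
    j1.image γ.injective.injOn, j2.image γ.injective.injOn, ?_⟩
  intro h
  exact hD (γ.injective.image_injective h)

/-- A ball inside a component `D` of the complement of another ball has an infinite component
of its complement inside `D`. -/
lemma side (hb : Basics.{u}) {G : SimpleGraph V} (hG : G.Connected) {r : ℕ}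
    (h : ∀ x : V, ∃ C₁ ∈ Comps G (ball G r x), ∃ C₂ ∈ Comps G (ball G r x),
      C₁.Infinite ∧ C₂.Infinite ∧ C₁ ≠ C₂) {x u : V} {D : Set V}
    (hD : D ∈ Comps G (ball G r x)) (hu : ball G r u ⊆ D) :
    ∃ E ∈ Comps G (ball G r u), E.Infinite ∧ E ⊆ D := by
  obtain ⟨E₁, hE₁, E₂, hE₂, i1, i2, hne⟩ := h u
  have hdisj : Disjoint (ball G r x) (ball G r u) :=
    ((hb.comps_disjoint V G _ _ hD).mono_left hu).symm
  have hcx := NLOW.ball_conn hG r x
  have key : ∃ E ∈ Comps G (ball G r u), E.Infinite ∧ Disjoint E (ball G r x) := by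
    by_cases h1 : Disjoint E₁ (ball G r x)
    · exact ⟨E₁, hE₁, i1, h1⟩
    · by_cases h2 : Disjoint E₂ (ball G r x)
      · exact ⟨E₂, hE₂, i2, h2⟩
      · exfalso
        rw [Set.not_disjoint_iff] at h1 h2
        obtain ⟨a, ha, ha'⟩ := h1
        obtain ⟨b, hb1, hb'⟩ := h2
        have s1 := hb.conn_subset V G _ _ hcx hdisj _ hE₁ ⟨a, ha', ha⟩
        have s2 := hb.conn_subset V G _ _ hcx hdisj _ hE₂ ⟨b, hb', hb1⟩
        exact hne (hb.comps_eq V G _ _ hE₁ _ hE₂ ⟨x, s1 (NLOW.mem_ball_self G r x),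
          s2 (NLOW.mem_ball_self G r x)⟩)
  obtain ⟨E, hE, iE, dE⟩ := key
  refine ⟨E, hE, iE, ?_⟩
  obtain ⟨a, ha, b, hbu, hab⟩ := hb.comps_adj V G _ hG ⟨u, NLOW.mem_ball_self G r u⟩ E hE
  have haD : a ∈ D := hb.comps_closed V G _ D hD b (hu hbu) a hab.symm
    (fun h' => Set.disjoint_left.1 dE ha h')
  exact hb.conn_subset V G _ _ (hb.comps_conn V G _ _ hE) dE _ hD ⟨a, ha, haD⟩

/-- A component of `G - A` disjoint from `B` is a component of `G - (A ∪ B)`. -/
lemma comps_union (hb : Basics.{u}) {G : SimpleGraph V} {A B E : Set V} (hE : E ∈ Comps G A)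
    (hd : Disjoint E B) : E ∈ Comps G (A ∪ B) := by
  obtain ⟨e, he⟩ := hb.comps_nonempty V G A E hE
  have hdU : Disjoint E (A ∪ B) :=
    Set.disjoint_union_right.2 ⟨hb.comps_disjoint V G A E hE, hd⟩
  have heU : e ∉ A ∪ B := fun h => Set.disjoint_left.1 hdU he h
  obtain ⟨C, hC, heC⟩ := hb.exists_comp V G (A ∪ B) e heU
  have s1 := hb.conn_subset V G _ _ (hb.comps_conn V G _ _ hE) hdU C hC ⟨e, he, heC⟩
  obtain ⟨C', hC', hCC'⟩ := hb.comps_mono V G A (A ∪ B) subset_union_left C hC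
  have : C' = E := hb.comps_eq V G A _ hC' _ hE ⟨e, hCC' heC, he⟩
  subst this
  have : C = C' := subset_antisymm hCC' s1
  rw [← this]; exact hC

/-- The component of `x` between two closed balls on the two sides is finite. -/
lemma between (hb : Basics.{u}) {G : SimpleGraph V} (hG : G.Connected) (hl : LocFinite G)
    (h3 : ¬ ThreeEnds G) {r : ℕ}
    (h : ∀ x : V, ∃ C₁ ∈ Comps G (ball G r x), ∃ C₂ ∈ Comps G (ball G r x),
      C₁.Infinite ∧ C₂.Infinite ∧ C₁ ≠ C₂) {x u v : V} {D₁ D₂ : Set V}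
    (hD₁ : D₁ ∈ Comps G (ball G r x)) (hD₂ : D₂ ∈ Comps G (ball G r x)) (hne : D₁ ≠ D₂)
    (hu : ball G r u ⊆ D₁) (hv : ball G r v ⊆ D₂) :
    (comp G (ball G r u ∪ ball G r v) x).Finite := by
  obtain ⟨E₁, hE₁, i1, s1⟩ := side hb hG h hD₁ hu
  obtain ⟨E₂, hE₂, i2, s2⟩ := side hb hG h hD₂ hv
  have hdd : Disjoint D₁ D₂ := by
    rw [Set.disjoint_iff_inter_eq_empty, ← Set.not_nonempty_iff_eq_empty]
    exact fun hn => hne (hb.comps_eq V G _ _ hD₁ _ hD₂ hn)
  have hx1 : x ∉ D₁ := fun hx => Set.disjoint_left.1 (hb.comps_disjoint V G _ _ hD₁) hx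
    (NLOW.mem_ball_self G r x)
  have hx2 : x ∉ D₂ := fun hx => Set.disjoint_left.1 (hb.comps_disjoint V G _ _ hD₂) hx
    (NLOW.mem_ball_self G r x)
  by_contra hinf
  refine h3 ⟨ball G r u ∪ ball G r v,
    (hb.ball_finite V G hG hl u r).union (hb.ball_finite V G hG hl v r),
    comp G (ball G r u ∪ ball G r v) x, ⟨x, ?_, rfl⟩, E₁, ?_, E₂, ?_, hinf, i1, i2, ?_, ?_, ?_⟩
  · rintro (h' | h')
    · exact hx1 (hu h')
    · exact hx2 (hv h')
  · exact comps_union hb hE₁ (hdd.mono s1 hv)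
  · rw [Set.union_comm]
    exact comps_union hb hE₂ (hdd.symm.mono s2 hu)
  · intro h'
    have : x ∈ E₁ := by rw [← h']; exact SimpleGraph.Reachable.refl _
    exact hx1 (s1 this)
  · intro h'
    have : x ∈ E₂ := by rw [← h']; exact SimpleGraph.Reachable.refl _
    exact hx2 (s2 this)
  · rintro rfl
    obtain ⟨z, hz⟩ := i1.nonempty
    exact Set.disjoint_left.1 hdd (s1 hz) (s2 hz)

lemma cluster_subset {G : SimpleGraph V} {r : ℕ} {s : Set (Sym2 V)} (hs : s ⊆ G.edgeSet)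
    {u v : V} (hu : closedAt G r s u) (hv : closedAt G r s v) (x : V) :
    Cluster s x ⊆ comp G (ball G r u ∪ ball G r v) x := by
  intro y hy
  refine SimpleGraph.Reachable.mono ?_ hy
  intro a b hab
  rw [SimpleGraph.fromEdgeSet_adj] at hab
  refine ⟨hs hab.1, ?_, ?_⟩
  · rintro (h | h)
    · exact hu _ hab.1 a (Sym2.mem_mk_left a b) h
    · exact hv _ hab.1 a (Sym2.mem_mk_left a b) h
  · rintro (h | h)
    · exact hu _ hab.1 b (Sym2.mem_mk_right a b) h
    · exact hv _ hab.1 b (Sym2.mem_mk_right a b) h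

/-- Centres of balls inside an infinite component, far from a given finite set. -/
lemma far_centre (hb : Basics.{u}) {G : SimpleGraph V} (hG : G.Connected) (hl : LocFinite G)
    {r : ℕ} {x : V} {D : Set V} (hD : D ∈ Comps G (ball G r x)) (hi : D.Infinite) (F : Set V)
    (hF : F.Finite) : ∃ u ∈ {u | ball G r u ⊆ D}, Disjoint (ball G (r + 1) u) F := by
  have hfin : (⋃ z ∈ F ∪ ball G r x, ball G (r + 1) z).Finite :=
    Set.Finite.biUnion (hF.union (hb.ball_finite V G hG hl x r))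
      (fun z _ => hb.ball_finite V G hG hl z (r + 1))
  obtain ⟨u, huD, hu⟩ := hi.exists_notMem_finite hfin
  have hd : Disjoint (ball G (r + 1) u) (F ∪ ball G r x) := by
    rw [Set.disjoint_left]
    intro z hz hz'
    refine hu (mem_biUnion hz' ?_)
    show G.dist z u ≤ r + 1
    rw [SimpleGraph.dist_comm]
    exact hz
  have hsub : ball G r u ⊆ ball G (r + 1) u := fun z hz => le_trans hz (Nat.le_succ r)
  refine ⟨u, ?_, hd.mono_right subset_union_left⟩
  exact hb.conn_subset V G _ _ (NLOW.ball_conn hG r u)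
    ((hd.mono_right subset_union_right).mono_left hsub) D hD
    ⟨u, NLOW.mem_ball_self G r u, huD⟩

theorem prf (hb : Basics.{u}) (hc : ClosedStmt.{u}) : TwoStmt.{u} := by
  classical
  intro V _ G Γ hcon hloc hpres htrans h2 h3 p hp
  obtain ⟨r, hr⟩ := two_balls hb hcon hloc hpres htrans h2
  have step1 : ∀ᵐ s ∂(perc G p), ∀ x : V, ∃ u v : V, closedAt G r s u ∧ closedAt G r s v ∧
      (comp G (ball G r u ∪ ball G r v) x).Finite := by
    rw [ae_all_iff]
    intro x
    obtain ⟨D₁, hD₁, D₂, hD₂, i1, i2, hne⟩ := hr x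
    have a1 := hc V G Γ hcon hloc hpres htrans p hp r {u | ball G r u ⊆ D₁}
      (fun F hF => far_centre hb hcon hloc hD₁ i1 F hF)
    have a2 := hc V G Γ hcon hloc hpres htrans p hp r {u | ball G r u ⊆ D₂}
      (fun F hF => far_centre hb hcon hloc hD₂ i2 F hF)
    filter_upwards [a1, a2] with s hs1 hs2
    obtain ⟨u, hu, cu⟩ := hs1
    obtain ⟨v, hv, cv⟩ := hs2
    exact ⟨u, v, cu, cv, between hb hcon hloc h3 hr hD₁ hD₂ hne hu hv⟩
  have step2 : ∀ᵐ s ∂(perc G p), s ⊆ G.edgeSet := by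
    unfold perc
    exact setBernoulli_ae_subset
  have main : ∀ᵐ s ∂(perc G p), s ∉ HeavyEvent Γ := by
    filter_upwards [step1, step2] with s hs1 hs2
    rintro ⟨x, hx⟩
    obtain ⟨u, v, cu, cv, hfin⟩ := hs1 x
    have hf : (Cluster s x).Finite := hfin.subset (cluster_subset hs2 cu cv x)
    have : Finite (Cluster s x) := hf
    have hsum := hx x
    have hlt : ∑' y : Cluster s x, ENNReal.ofReal (weight Γ y x) < ⊤ := by
      have := Fintype.ofFinite (Cluster s x)
      rw [tsum_fintype]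
      exact ENNReal.sum_lt_top.2 (fun y _ => ENNReal.ofReal_lt_top)
    rw [hsum] at hlt
    exact lt_irrefl _ hlt
  rw [ae_iff] at main
  simpa using main

end Pool.Agent.Work.MP_c58d8b_pr.NTWO
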