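import Pool.Agent.Work.MP_c58d8b_pr.Stmts

set_option autoImplicit false

namespace Pool.Agent.Work.MP_c58d8b_pr.NWEIGHT

open MeasureTheory ProbabilityTheory Set
open Pool.Agent.Work.MP_c58d8b_pr

universe u

variable {V : Type u}

theorem isAut {G : SimpleGraph V} {Γ : Subgroup (Equiv.Perm V)} (h : Preserves Γ G)
    {γ : Equiv.Perm V} (hγ : γ ∈ Γ) : IsAut G γ := fun x y => h γ hγ x y

theorem orb_eq (Γ : Subgroup (Equiv.Perm V)) (x y : V) :
    orb Γ x y = MulAction.orbit (MulAction.stabilizer Γ x) y := by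
  ext z
  constructor
  · rintro ⟨γ, hγ, hx, hz⟩
    exact ⟨⟨⟨γ, hγ⟩, hx⟩, hz⟩
  · rintro ⟨⟨⟨γ, hγ⟩, hx⟩, hz⟩
    exact ⟨γ, hγ, hx, hz⟩

/-- `|Γ_x y| = [Γ_x : Γ_x ∩ Γ_y]`. -/
theorem ncard_orb (Γ : Subgroup (Equiv.Perm V)) (x y : V) :
    (orb Γ x y).ncard = (MulAction.stabilizer Γ y).relIndex (MulAction.stabilizer Γ x) := by
  rw [orb_eq, ← Nat.card_coe_set_eq]
  rw [Nat.card_congr (MulAction.orbitEquivQuotientStabilizer (MulAction.stabilizer Γ x) y)]
  rfl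

theorem mem_orb (Γ : Subgroup (Equiv.Perm V)) (x y : V) : y ∈ orb Γ x y :=
  ⟨1, Γ.one_mem, rfl, rfl⟩

theorem orb_finite (hb : Basics.{u}) {G : SimpleGraph V} {Γ : Subgroup (Equiv.Perm V)}
    (hc : G.Connected) (hl : LocFinite G) (hp : Preserves Γ G) (x y : V) :
    (orb Γ x y).Finite := by
  refine (hb.ball_finite V G hc hl x (G.dist x y)).subset ?_
  rintro z ⟨γ, hγ, hx, rfl⟩
  have := hb.dist_image V G γ (isAut hp hγ) x y
  rw [hx] at this
  exact this.le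

theorem orb_ncard_ne (hb : Basics.{u}) {G : SimpleGraph V} {Γ : Subgroup (Equiv.Perm V)}
    (hc : G.Connected) (hl : LocFinite G) (hp : Preserves Γ G) (x y : V) :
    (orb Γ x y).ncard ≠ 0 := by
  have := (Set.ncard_pos (orb_finite hb hc hl hp x y)).2 ⟨y, mem_orb Γ x y⟩
  omega

theorem orb_image (Γ : Subgroup (Equiv.Perm V)) {γ : Equiv.Perm V} (hγ : γ ∈ Γ) (x y : V) :
    orb Γ (γ x) (γ y) = γ '' orb Γ x y := by
  ext z
  constructor
  · rintro ⟨δ, hδ, hx, hz⟩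
    refine ⟨γ⁻¹ z, ⟨γ⁻¹ * δ * γ, Γ.mul_mem (Γ.mul_mem (Γ.inv_mem hγ) hδ) hγ, ?_, ?_⟩, ?_⟩
    · simp [Equiv.Perm.mul_apply, hx]
    · simp [Equiv.Perm.mul_apply, hz]
    · simp
  · rintro ⟨w, ⟨δ, hδ, hx, hw⟩, rfl⟩
    refine ⟨γ * δ * γ⁻¹, Γ.mul_mem (Γ.mul_mem hγ hδ) (Γ.inv_mem hγ), ?_, ?_⟩
    · simp [Equiv.Perm.mul_apply, hx]
    · simp [Equiv.Perm.mul_apply, hw]

/-- `w(x, y) [Γ_y : H] = [Γ_x : H]` for every `H ≤ Γ_x ∩ Γ_y` of finite index in `Γ_x`. -/
theorem weight_mul (hb : Basics.{u}) {G : SimpleGraph V} {Γ : Subgroup (Equiv.Perm V)}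
    (hc : G.Connected) (hl : LocFinite G) (hp : Preserves Γ G) (x y : V) (H : Subgroup Γ)
    (h : H ≤ MulAction.stabilizer Γ x ⊓ MulAction.stabilizer Γ y)
    (h0 : H.relIndex (MulAction.stabilizer Γ x) ≠ 0) :
    weight Γ x y * (H.relIndex (MulAction.stabilizer Γ y) : ℝ) =
      (H.relIndex (MulAction.stabilizer Γ x) : ℝ) ∧
    H.relIndex (MulAction.stabilizer Γ y) ≠ 0 := by
  set A := MulAction.stabilizer Γ x with hA
  set B := MulAction.stabilizer Γ y with hB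
  have e1 : H.relIndex (A ⊓ B) * (A ⊓ B).relIndex A = H.relIndex A :=
    Subgroup.relIndex_mul_relIndex H (A ⊓ B) A h inf_le_left
  have e2 : H.relIndex (A ⊓ B) * (A ⊓ B).relIndex B = H.relIndex B :=
    Subgroup.relIndex_mul_relIndex H (A ⊓ B) B h inf_le_right
  have e3 : (A ⊓ B).relIndex A = (orb Γ x y).ncard := by
    rw [inf_comm, Subgroup.inf_relIndex_right, ncard_orb]
  have e4 : (A ⊓ B).relIndex B = (orb Γ y x).ncard := by
    rw [Subgroup.inf_relIndex_right, ncard_orb]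
  have n1 : H.relIndex (A ⊓ B) ≠ 0 := by
    intro h1
    rw [h1, zero_mul] at e1
    exact h0 e1.symm
  have n2 := orb_ncard_ne hb hc hl hp y x
  constructor
  · rw [← e1, ← e2, e3, e4, weight]
    have n3 : ((orb Γ y x).ncard : ℝ) ≠ 0 := by exact_mod_cast n2
    push_cast
    field_simp
  · rw [← e2, e4]
    exact Nat.mul_ne_zero n1 n2

/-- item WEIGHT -/
theorem prf (hb : Basics.{u}) : WeightStmt.{u} := by
  intro V G Γ hc hl hp
  refine ⟨?_, ?_, ?_⟩
  · intro x y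
    have h1 : (0 : ℝ) < ((orb Γ x y).ncard : ℝ) := by
      exact_mod_cast Nat.pos_of_ne_zero (orb_ncard_ne hb hc hl hp x y)
    have h2 : (0 : ℝ) < ((orb Γ y x).ncard : ℝ) := by
      exact_mod_cast Nat.pos_of_ne_zero (orb_ncard_ne hb hc hl hp y x)
    exact div_pos h1 h2
  · intro γ hγ x y
    rw [weight, weight, orb_image Γ hγ, orb_image Γ hγ,
      Set.ncard_image_of_injective _ γ.injective, Set.ncard_image_of_injective _ γ.injective]
  · intro x y z
    set A := MulAction.stabilizer Γ x with hA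
    set B := MulAction.stabilizer Γ y with hB
    set C := MulAction.stabilizer Γ z with hC
    set H : Subgroup Γ := A ⊓ (B ⊓ C) with hH
    have hr : ∀ u v : V, (MulAction.stabilizer Γ v).relIndex (MulAction.stabilizer Γ u) ≠ 0 := by
      intro u v
      rw [← ncard_orb]
      exact orb_ncard_ne hb hc hl hp u v
    have h0 : H.relIndex A ≠ 0 := by
      rw [hH, inf_comm, Subgroup.inf_relIndex_right]
      exact Subgroup.relIndex_inf_ne_zero (hr x y) (hr x z)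
    have hAB : H ≤ A ⊓ B := le_inf inf_le_left (inf_le_right.trans inf_le_left)
    have hBC : H ≤ B ⊓ C := inf_le_right
    have hAC : H ≤ A ⊓ C := le_inf inf_le_left (inf_le_right.trans inf_le_right)
    obtain ⟨p1, q1⟩ := weight_mul hb hc hl hp x y H hAB h0
    obtain ⟨p2, q2⟩ := weight_mul hb hc hl hp y z H hBC q1
    obtain ⟨p3, q3⟩ := weight_mul hb hc hl hp x z H hAC h0
    have q2' : ((H.relIndex (MulAction.stabilizer Γ z) : ℕ) : ℝ) ≠ 0 := by exact_mod_cast q2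
    apply mul_right_cancel₀ q2'
    rw [mul_assoc, p2, p1, p3]

end Pool.Agent.Work.MP_c58d8b_pr.NWEIGHT
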