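import Pool.Agent.Work.MP_c58d8b_pr.Assembly3
import Pool.Agent.Work.MP_c58d8b_pr.I_BASICS
import Pool.Agent.Work.MP_c58d8b_pr.I_CYL
import Pool.Agent.Work.MP_c58d8b_pr.I_INDEP
import Pool.Agent.Work.MP_c58d8b_pr.I_INV
import Pool.Agent.Work.MP_c58d8b_pr.I_MEAS
import Pool.Agent.Work.MP_c58d8b_pr.I_LIVE
import Pool.Agent.Work.MP_c58d8b_pr.I_LIVEEND
import Pool.Agent.Work.MP_c58d8b_pr.I_PEIERLS
import Pool.Agent.Work.MP_c58d8b_pr.I_CUT
import Pool.Agent.Work.MP_c58d8b_pr.I_PH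
import Pool.Agent.Work.MP_c58d8b_pr.I_WEIGHT
import Pool.Agent.Work.MP_c58d8b_pr.I_PUSH
import Pool.Agent.Work.MP_c58d8b_pr.I_FILL
import Pool.Agent.Work.MP_c58d8b_pr.I_LOGIC
import Pool.Agent.Work.MP_c58d8b_pr.I_SPECIAL
import Pool.Agent.Work.MP_c58d8b_pr.I_FREE
import Pool.Agent.Work.MP_c58d8b_pr.I_PATHS
import Pool.Agent.Work.MP_c58d8b_pr.I_LOOPS
import Pool.Agent.Work.MP_c58d8b_pr.I_THREE
import Pool.Agent.Work.MP_c58d8b_pr.I_FIXED
import Pool.Agent.Work.MP_c58d8b_pr.I_MTP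
import Pool.Agent.Work.MP_c58d8b_pr.I_DYN
import Pool.Agent.Work.MP_c58d8b_pr.I_ABOVE
import Pool.Agent.Work.MP_c58d8b_pr.I_CLOSED
import Pool.Agent.Work.MP_c58d8b_pr.I_LOW
import Pool.Agent.Work.MP_c58d8b_pr.I_CONST
import Pool.Agent.Work.MP_c58d8b_pr.I_EQV
import Pool.Agent.Work.MP_c58d8b_pr.I_MEASLOW
import Pool.Agent.Work.MP_c58d8b_pr.I_NOHEAVY
import Pool.Agent.Work.MP_c58d8b_pr.I_TWO

set_option autoImplicit false

namespace Pool.Agent.Work.MP_c58d8b_pr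

open MeasureTheory ProbabilityTheory Set
open scoped ENNReal unitInterval

universe u

variable {V : Type u}

theorem weight_prf : WeightStmt.{u} := NWEIGHT.prf NBASICS.prf

theorem push_prf : PushStmt.{u} := NPUSH.prf NBASICS.prf

theorem fill_prf : FillStmt.{u} := NFILL.prf NBASICS.prf

theorem live_prf : OneLiveStmt.{u} := NLIVE.prf NBASICS.prf NCYL.prf NINDEP.prf NMEAS.prf

theorem liveEnd_prf : LiveEndStmt.{u} := NLIVEEND.prf NBASICS.prf live_prf NINV.prf NMEAS.prf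

theorem ph_prf : PhStmt.{u} :=
  NPH.prf weight_prf (NPATHS.prf NBASICS.prf) NPEIERLS.prf (NCUT.prf NCYL.prf)

theorem mtp_prf : MtpStmt.{u} := NMTP.prf weight_prf NBASICS.prf

theorem closed_prf : ClosedStmt.{u} := NCLOSED.prf NBASICS.prf NCYL.prf NINDEP.prf

theorem above_prf : AboveStmt.{u} :=
  NABOVE.prf NBASICS.prf push_prf fill_prf (NDYN.prf NBASICS.prf)

theorem noHeavy_prf : NoHeavyStmt.{u} :=
  NNOHEAVY.prf NBASICS.prf NINV.prf weight_prf mtp_prf above_prf closed_prf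
    (NLOW.prf NBASICS.prf) (NCONST.prf NBASICS.prf) (NEQV.prf NBASICS.prf) NMEASLOW.prf

theorem two_prf : TwoStmt.{u} := NTWO.prf NBASICS.prf closed_prf

theorem all (Γ : Subgroup (Equiv.Perm V)) (G G' : SimpleGraph V) (hG : G.Connected)
    (hG' : G'.Connected) (lG : LocFinite G) (lG' : LocFinite G') (pG : Preserves Γ G)
    (pG' : Preserves Γ G') (tr : Transitive Γ) (h2 : TwoEnds G) (hlt : ph G Γ < pu G) :
    ph G' Γ < pu G' ∧ pu G' = 1 :=
  main3 NBASICS.prf push_prf fill_prf NLOGIC.prf (NSPECIAL.prf NBASICS.prf push_prf)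
    (NLOOPS.prf NBASICS.prf weight_prf NFREE.prf) ph_prf liveEnd_prf (NTHREE.prf NBASICS.prf)
    (NFIXED.prf NBASICS.prf) mtp_prf noHeavy_prf two_prf Γ G G' hG hG' lG lG' pG pG' tr h2 hlt

end Pool.Agent.Work.MP_c58d8b_pr
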