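import Pool.Agent.Work.MP_c58d8b_pr.Stmts

set_option autoImplicit false

namespace Pool.Agent.Work.MP_c58d8b_pr

open MeasureTheory ProbabilityTheory Set
open scoped ENNReal unitInterval

universe u

variable {V : Type u}

lemma ph_lt_one (hb : Basics.{u}) (hpush : PushStmt.{u}) (hfill : FillStmt.{u})
    (hlog : LogicStmt.{u}) (hspec : SpecialStmt.{u}) (hloop : LoopsStmt.{u}) (hph : PhStmt.{u})
    (G : SimpleGraph V) (Γ : Subgroup (Equiv.Perm V)) (hG : G.Connected) (lG : LocFinite G)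
    (pG : Preserves Γ G) (tr : Transitive Γ) (h3 : ThreeEnds G) (hend : ¬ FixesEnd G Γ) :
    ph G Γ < 1 := by
  haveI : Countable V := hb.countable V G hG lG
  obtain ⟨K, hKf, hKn, hKc, hinf, C₁, h₁, C₂, h₂, C₃, h₃, h12, h13, h23⟩ := hfill V G hG lG h3
  obtain ⟨push1, push2⟩ := hpush V G Γ K hG lG pG tr hKf hKn hKc
  have inv : ∀ (D R : Set V) (g : Equiv.Perm V), g ∈ T Γ D R → g⁻¹ ∈ T Γ R D := by
    rintro D R g ⟨hg, hgs⟩
    refine ⟨Γ.inv_mem hg, ?_⟩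
    rintro _ ⟨y, hy, rfl⟩
    by_contra hx
    apply hy
    have : g (g⁻¹ y) ∈ R := hgs ⟨g⁻¹ y, hx, rfl⟩
    simpa using this
  have key := hlog (Comps G K) (fun D R => (T Γ D.1 R.1).Nonempty) ?_ ?_ ?_
  · rcases key with hl | ⟨c, hc⟩
    · obtain ⟨s, o, hs, hinj, hw⟩ := hloop V G Γ K hG lG pG tr hKf hKn hKc C₁ h₁ C₂ h₂ C₃ h₃
        h12 h13 h23 (hl ⟨C₁, h₁⟩) (hl ⟨C₂, h₂⟩) (hl ⟨C₃, h₃⟩)
      exact hph V G Γ hG lG pG tr s hs o hinj hw
    · exfalso
      apply hend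
      refine hspec V G Γ K hG lG pG tr hKf hKn hKc hinf c.1 c.2 ?_ ?_
      · by_cases hc1 : C₁ = c.1
        · exact ⟨C₂, h₂, fun h => h12 (hc1.trans h.symm)⟩
        · exact ⟨C₁, h₁, hc1⟩
      · intro D hD R hR hT
        rcases hc ⟨D, hD⟩ ⟨R, hR⟩ hT with h | h
        · exact Or.inl (congrArg Subtype.val h)
        · exact Or.inr (congrArg Subtype.val h)
  · rintro D R ⟨g, hg⟩
    exact ⟨g⁻¹, inv _ _ g hg⟩
  · rintro D R D' R' ⟨g, hg⟩ ⟨h, hh⟩ hne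
    refine ⟨h * g, Γ.mul_mem hh.1 hg.1, ?_⟩
    rintro _ ⟨x, hx, rfl⟩
    have h1 : g x ∈ R.1 := hg.2 ⟨x, hx, rfl⟩
    have h2 : g x ∈ D'.1ᶜ := by
      intro h3
      exact hne (Subtype.ext (hb.comps_eq V G K R.1 R.2 D'.1 D'.2 ⟨g x, h1, h3⟩))
    exact hh.2 ⟨g x, h2, rfl⟩
  · intro R
    obtain ⟨g, hg, hgd, hgR⟩ := push2 R.1 R.2 (hinf R.1 R.2)
    obtain ⟨D, hD, R', hR', -, hgR', hT⟩ := push1 g hg hgd
    obtain ⟨o, ho⟩ := hKn
    have : R.1 = R' := hb.comps_eq V G K R.1 R.2 R' hR' ⟨g o, hgR ⟨o, ho, rfl⟩, hgR' ⟨o, ho, rfl⟩⟩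
    refine ⟨⟨D, hD⟩, g, ?_⟩
    rw [this]
    exact hT

lemma one_mem (G : SimpleGraph V) (hG : G.Connected) (hV : Infinite V) :
    perc G 1 (UniqueEvent V) = 1 := by
  have h : perc G 1 = Measure.dirac G.edgeSet := by
    unfold perc
    exact setBernoulli_one _
  rw [h]
  refine Measure.dirac_apply_of_mem ?_
  have hcl : ∀ x, Cluster G.edgeSet x = univ := by
    intro x
    ext y
    simp only [Cluster, mem_ofPred_eq, mem_univ, iff_true, SimpleGraph.fromEdgeSet_edgeSet]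
    exact hG.preconnected x y
  obtain ⟨x⟩ : Nonempty V := inferInstance
  refine ⟨univ, ⟨Set.infinite_univ, x, (hcl x).symm⟩, ?_⟩
  rintro C ⟨-, y, rfl⟩
  exact hcl y

lemma infinite_of_threeEnds (G : SimpleGraph V) (h : ThreeEnds G) : Infinite V := by
  obtain ⟨K, -, C₁, -, C₂, -, C₃, -, h1, -⟩ := h
  by_contra hcon
  rw [not_infinite_iff_finite] at hcon
  exact h1 (Set.toFinite C₁)

lemma pu_eq_one (hb : Basics.{u}) (hlive : LiveEndStmt.{u}) (G : SimpleGraph V)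
    (Γ : Subgroup (Equiv.Perm V)) (hG : G.Connected) (lG : LocFinite G) (pG : Preserves Γ G)
    (hV : Infinite V) (hend : ¬ FixesEnd G Γ) : pu G = 1 := by
  haveI : Countable V := hb.countable V G hG lG
  have h : {t : ℝ | ∃ p : I, (p : ℝ) = t ∧ perc G p (UniqueEvent V) = 1} = {1} := by
    ext t
    simp only [mem_ofPred_eq, mem_singleton_iff]
    constructor
    · rintro ⟨p, rfl, hp⟩
      by_contra hne
      have hlt : (p : ℝ) < 1 := lt_of_le_of_ne p.2.2 hne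
      exact hend (hlive V G Γ hG lG pG p hlt hp)
    · rintro rfl
      exact ⟨1, rfl, one_mem G hG hV⟩
  unfold pu
  rw [h, csInf_singleton]

theorem main (hb : Basics.{u}) (hpush : PushStmt.{u}) (hfill : FillStmt.{u})
    (hlog : LogicStmt.{u}) (hspec : SpecialStmt.{u}) (hloop : LoopsStmt.{u}) (hph : PhStmt.{u})
    (hlive : LiveEndStmt.{u}) (hthree : ThreeStmt.{u}) (hfixed : FixedStmt.{u})
    (Γ : Subgroup (Equiv.Perm V)) (G G' : SimpleGraph V) (hG : G.Connected) (hG' : G'.Connected)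
    (lG : LocFinite G) (lG' : LocFinite G') (pG : Preserves Γ G) (pG' : Preserves Γ G')
    (tr : Transitive Γ) (h3 : ThreeEnds G) (hend : ¬ FixesEnd G Γ) :
    ph G' Γ < pu G' ∧ pu G' = 1 := by
  have h3' : ThreeEnds G' := hthree V G G' Γ hG hG' lG lG' pG pG' tr h3
  have hend' : ¬ FixesEnd G' Γ := fun h => hend (hfixed V G G' Γ hG hG' lG lG' pG pG' tr h)
  have h1 := pu_eq_one hb hlive G' Γ hG' lG' pG' (infinite_of_threeEnds G h3) hend'
  refine ⟨?_, h1⟩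
  rw [h1]
  exact ph_lt_one hb hpush hfill hlog hspec hloop hph G' Γ hG' lG' pG' tr h3' hend'

end Pool.Agent.Work.MP_c58d8b_pr
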