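import Pool.Agent.Work.MP_c58d8b_pr.Stmts2
import Pool.Agent.Work.MP_c58d8b_pr.Assembly

set_option autoImplicit false

namespace Pool.Agent.Work.MP_c58d8b_pr

open MeasureTheory ProbabilityTheory Set
open scoped ENNReal unitInterval

universe u

variable {V : Type u}

lemma heavy_univ (hm : MtpStmt.{u}) (G : SimpleGraph V) (Γ : Subgroup (Equiv.Perm V))
    (hG : G.Connected) (lG : LocFinite G) (pG : Preserves Γ G) (tr : Transitive Γ)
    (hV : Infinite V) : Heavy Γ (univ : Set V) := by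
  intro o
  have h := hm V G Γ hG lG pG tr (fun _ _ => 1) (fun _ _ _ _ => rfl) o
  have h2 : ∑' _ : V, (1 : ℝ≥0∞) = ⊤ := ENNReal.tsum_const_eq_top_of_ne_zero one_ne_zero
  rw [h2] at h
  simp only [one_mul] at h
  rw [← h]
  exact (Equiv.Set.univ V).tsum_eq (fun x => ENNReal.ofReal (weight Γ x o))

lemma heavy_one (hm : MtpStmt.{u}) (G : SimpleGraph V) (Γ : Subgroup (Equiv.Perm V))
    (hG : G.Connected) (lG : LocFinite G) (pG : Preserves Γ G) (tr : Transitive Γ)
    (hV : Infinite V) : perc G 1 (HeavyEvent Γ) = 1 := by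
  have h : perc G 1 = Measure.dirac G.edgeSet := by
    unfold perc
    exact setBernoulli_one _
  rw [h]
  refine Measure.dirac_apply_of_mem ?_
  obtain ⟨x⟩ : Nonempty V := inferInstance
  refine ⟨x, ?_⟩
  have hcl : Cluster G.edgeSet x = univ := by
    ext y
    simp only [Cluster, mem_ofPred_eq, mem_univ, iff_true, SimpleGraph.fromEdgeSet_edgeSet]
    exact hG.preconnected x y
  rw [hcl]
  exact heavy_univ hm G Γ hG lG pG tr hV

lemma ph_eq_one (hb : Basics.{u}) (hm : MtpStmt.{u}) (hn : NoHeavyStmt.{u})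
    (G : SimpleGraph V) (Γ : Subgroup (Equiv.Perm V)) (hG : G.Connected) (lG : LocFinite G)
    (pG : Preserves Γ G) (tr : Transitive Γ) (h3 : ThreeEnds G) (hend : FixesEnd G Γ) :
    ph G Γ = 1 := by
  have : Countable V := hb.countable V G hG lG
  have hV := infinite_of_threeEnds G h3
  have h : {t : ℝ | ∃ p : I, (p : ℝ) = t ∧ 0 < perc G p (HeavyEvent Γ)} = {1} := by
    ext t
    simp only [mem_ofPred_eq, mem_singleton_iff]
    constructor
    · rintro ⟨p, rfl, hp⟩
      by_contra hne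
      have hlt : (p : ℝ) < 1 := lt_of_le_of_ne p.2.2 hne
      rw [hn V G Γ hG lG pG tr h3 hend p hlt] at hp
      exact lt_irrefl _ hp
    · rintro rfl
      exact ⟨1, rfl, by rw [heavy_one hm G Γ hG lG pG tr hV]; exact one_pos⟩
  unfold ph
  rw [h, csInf_singleton]

lemma pu_le_one (G : SimpleGraph V) (hG : G.Connected) (hV : Infinite V) : pu G ≤ 1 := by
  refine csInf_le ⟨0, ?_⟩ ⟨1, rfl, one_mem G hG hV⟩
  rintro t ⟨p, rfl, -⟩
  exact p.2.1

theorem main2 (hb : Basics.{u}) (hpush : PushStmt.{u}) (hfill : FillStmt.{u})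
    (hlog : LogicStmt.{u}) (hspec : SpecialStmt.{u}) (hloop : LoopsStmt.{u}) (hph : PhStmt.{u})
    (hlive : LiveEndStmt.{u}) (hthree : ThreeStmt.{u}) (hfixed : FixedStmt.{u})
    (hm : MtpStmt.{u}) (hn : NoHeavyStmt.{u})
    (Γ : Subgroup (Equiv.Perm V)) (G G' : SimpleGraph V) (hG : G.Connected) (hG' : G'.Connected)
    (lG : LocFinite G) (lG' : LocFinite G') (pG : Preserves Γ G) (pG' : Preserves Γ G')
    (tr : Transitive Γ) (h3 : ThreeEnds G) :
    (ph G Γ < pu G → ph G' Γ < pu G') ∧ (¬ FixesEnd G Γ → ph G' Γ < 1 ∧ pu G' = 1) ∧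
      (FixesEnd G Γ → ph G' Γ = 1) := by
  have key : ¬ FixesEnd G Γ → ph G' Γ < 1 ∧ pu G' = 1 := by
    intro hend
    have h := main hb hpush hfill hlog hspec hloop hph hlive hthree hfixed Γ G G' hG hG' lG lG'
      pG pG' tr h3 hend
    exact ⟨h.2 ▸ h.1, h.2⟩
  refine ⟨?_, key, ?_⟩
  · intro hlt
    by_cases hend : FixesEnd G Γ
    · exfalso
      rw [ph_eq_one hb hm hn G Γ hG lG pG tr h3 hend] at hlt
      exact absurd hlt (not_lt.2 (pu_le_one G hG (infinite_of_threeEnds G h3)))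
    · have h := key hend
      rw [h.2]
      exact h.1
  · intro hend
    exact ph_eq_one hb hm hn G' Γ hG' lG' pG' tr (hthree V G G' Γ hG hG' lG lG' pG pG' tr h3)
      (hfixed V G' G Γ hG' hG lG' lG pG' pG tr hend)

end Pool.Agent.Work.MP_c58d8b_pr
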