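import Pool.Agent.Work.MP_c58d8b_pr.Assembly2

set_option autoImplicit false

namespace Pool.Agent.Work.MP_c58d8b_pr

open MeasureTheory ProbabilityTheory Set
open scoped ENNReal unitInterval

universe u

variable {V : Type u}

lemma infinite_of_twoEnds (G : SimpleGraph V) (h : TwoEnds G) : Infinite V := by
  obtain ⟨K, -, C₁, -, C₂, -, h1, -⟩ := h
  by_contra hcon
  rw [not_infinite_iff_finite] at hcon
  exact h1 (Set.toFinite C₁)

lemma ph_eq_one_of (hb : Basics.{u}) (hm : MtpStmt.{u})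
    (G : SimpleGraph V) (Γ : Subgroup (Equiv.Perm V)) (hG : G.Connected) (lG : LocFinite G)
    (pG : Preserves Γ G) (tr : Transitive Γ) (hV : Infinite V)
    (hn : ∀ p : I, (p : ℝ) < 1 → perc G p (HeavyEvent Γ) = 0) : ph G Γ = 1 := by
  have : Countable V := hb.countable V G hG lG
  have h : {t : ℝ | ∃ p : I, (p : ℝ) = t ∧ 0 < perc G p (HeavyEvent Γ)} = {1} := by
    ext t
    simp only [mem_ofPred_eq, mem_singleton_iff]
    constructor
    · rintro ⟨p, rfl, hp⟩
      by_contra hne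
      have hlt : (p : ℝ) < 1 := lt_of_le_of_ne p.2.2 hne
      rw [hn p hlt] at hp
      exact lt_irrefl _ hp
    · rintro rfl
      exact ⟨1, rfl, by rw [heavy_one hm G Γ hG lG pG tr hV]; exact one_pos⟩
  unfold ph
  rw [h, csInf_singleton]

theorem main3 (hb : Basics.{u}) (hpush : PushStmt.{u}) (hfill : FillStmt.{u})
    (hlog : LogicStmt.{u}) (hspec : SpecialStmt.{u}) (hloop : LoopsStmt.{u}) (hph : PhStmt.{u})
    (hlive : LiveEndStmt.{u}) (hthree : ThreeStmt.{u}) (hfixed : FixedStmt.{u})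
    (hm : MtpStmt.{u}) (hn : NoHeavyStmt.{u}) (htwo : TwoStmt.{u})
    (Γ : Subgroup (Equiv.Perm V)) (G G' : SimpleGraph V) (hG : G.Connected) (hG' : G'.Connected)
    (lG : LocFinite G) (lG' : LocFinite G') (pG : Preserves Γ G) (pG' : Preserves Γ G')
    (tr : Transitive Γ) (h2 : TwoEnds G) (hlt : ph G Γ < pu G) :
    ph G' Γ < pu G' ∧ pu G' = 1 := by
  have : Countable V := hb.countable V G hG lG
  have hV := infinite_of_twoEnds G h2
  have hne : ph G Γ ≠ 1 := fun h => absurd hlt (by rw [h]; exact not_lt.2 (pu_le_one G hG hV))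
  by_cases h3 : ThreeEnds G
  · have h := main2 hb hpush hfill hlog hspec hloop hph hlive hthree hfixed hm hn Γ G G' hG hG'
      lG lG' pG pG' tr h3
    have hend : ¬ FixesEnd G Γ := fun hend =>
      hne (ph_eq_one hb hm hn G Γ hG lG pG tr h3 hend)
    exact ⟨h.1 hlt, (h.2.1 hend).2⟩
  · exact absurd (ph_eq_one_of hb hm G Γ hG lG pG tr hV
      (htwo V G Γ hG lG pG tr h2 h3)) hne

end Pool.Agent.Work.MP_c58d8b_pr
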