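import Mathlib

set_option autoImplicit false

namespace Pool.Agent.Work.MP_c58d8b_pr

open MeasureTheory ProbabilityTheory Set
open scoped ENNReal unitInterval

universe u

variable {V : Type u}

/-! ### The group, the graph and the weights -/

/-- The group `Γ` of permutations of the vertex set preserves the graph `G`. -/
def Preserves (Γ : Subgroup (Equiv.Perm V)) (G : SimpleGraph V) : Prop :=
  ∀ γ ∈ Γ, ∀ x y : V, G.Adj (γ x) (γ y) ↔ G.Adj x y

/-- `Γ` acts transitively on the vertex set. -/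
def Transitive (Γ : Subgroup (Equiv.Perm V)) : Prop := ∀ x y : V, ∃ γ ∈ Γ, γ x = y

/-- Every vertex has finitely many neighbours. -/
def LocFinite (G : SimpleGraph V) : Prop := ∀ x : V, (G.neighborSet x).Finite

/-- `Γ_x y`, the orbit of `y` under the stabiliser of `x`. -/
def orb (Γ : Subgroup (Equiv.Perm V)) (x y : V) : Set V := {z | ∃ γ ∈ Γ, γ x = x ∧ γ y = z}

/-- The relative weight function `w_Γ(x, y) = |Γ_x y| / |Γ_y x|`. -/
noncomputable def weight (Γ : Subgroup (Equiv.Perm V)) (x y : V) : ℝ :=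
  ((orb Γ x y).ncard : ℝ) / ((orb Γ y x).ncard : ℝ)

/-- A set `A` of vertices is heavy: `∑_{x ∈ A} w_Γ(x, o) = ∞` (for every base vertex `o`). -/
def Heavy (Γ : Subgroup (Equiv.Perm V)) (A : Set V) : Prop :=
  ∀ o : V, ∑' x : A, ENNReal.ofReal (weight Γ x o) = ⊤

/-! ### Bernoulli bond percolation -/

/-- Bernoulli(`p`) bond percolation on `G`: the law of the random set of open edges, each edge of
`G` being open independently with probability `p`. -/
noncomputable def perc (G : SimpleGraph V) (p : I) : Measure (Set (Sym2 V)) :=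
  setBernoulli G.edgeSet p

/-- The cluster of `x` when `s` is the set of open edges. -/
def Cluster (s : Set (Sym2 V)) (x : V) : Set V := {y | (SimpleGraph.fromEdgeSet s).Reachable x y}

/-- The event that some cluster is heavy. -/
def HeavyEvent (Γ : Subgroup (Equiv.Perm V)) : Set (Set (Sym2 V)) :=
  {s | ∃ x, Heavy Γ (Cluster s x)}

/-- The event that there is exactly one infinite cluster. -/
def UniqueEvent (V : Type u) : Set (Set (Sym2 V)) :=
  {s | ∃! C : Set V, C.Infinite ∧ ∃ x, C = Cluster s x}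

/-- `p_h(G, Γ) = inf {p : P_p(some cluster is heavy) > 0}`. -/
noncomputable def ph (G : SimpleGraph V) (Γ : Subgroup (Equiv.Perm V)) : ℝ :=
  sInf {t : ℝ | ∃ p : I, (p : ℝ) = t ∧ 0 < perc G p (HeavyEvent Γ)}

/-- `p_u(G) = inf {p : P_p(exactly one infinite cluster) = 1}`. -/
noncomputable def pu (G : SimpleGraph V) : ℝ :=
  sInf {t : ℝ | ∃ p : I, (p : ℝ) = t ∧ perc G p (UniqueEvent V) = 1}

/-! ### Ends -/

/-- The graph `G` with all edges which leave the set `A` deleted. -/
def within (G : SimpleGraph V) (A : Set V) : SimpleGraph V where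
  Adj x y := G.Adj x y ∧ x ∈ A ∧ y ∈ A
  symm := ⟨fun _ _ h => ⟨h.1.symm, h.2.2, h.2.1⟩⟩
  loopless := ⟨fun _ h => G.irrefl h.1⟩

/-- The connected component of `x` in `G - K`. -/
def comp (G : SimpleGraph V) (K : Set V) (x : V) : Set V := {y | (within G Kᶜ).Reachable x y}

/-- The connected components of `G - K`. -/
def Comps (G : SimpleGraph V) (K : Set V) : Set (Set V) := {C | ∃ x ∉ K, C = comp G K x}

/-- `G` has more than one end: `G` minus some finite set of vertices has at least two infinite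
components. -/
def TwoEnds (G : SimpleGraph V) : Prop :=
  ∃ K : Set V, K.Finite ∧ ∃ C₁ ∈ Comps G K, ∃ C₂ ∈ Comps G K,
    C₁.Infinite ∧ C₂.Infinite ∧ C₁ ≠ C₂

/-- `G` minus some finite set of vertices has at least three infinite components. -/
def ThreeEnds (G : SimpleGraph V) : Prop :=
  ∃ K : Set V, K.Finite ∧ ∃ C₁ ∈ Comps G K, ∃ C₂ ∈ Comps G K, ∃ C₃ ∈ Comps G K,
    C₁.Infinite ∧ C₂.Infinite ∧ C₃.Infinite ∧ C₁ ≠ C₂ ∧ C₁ ≠ C₃ ∧ C₂ ≠ C₃

/-- `Γ` fixes an end of `G`. An end is a function `ξ` which picks, for every finite set `K`, an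
infinite component `ξ K` of `G - K`, in a consistent way; `Γ` acts on ends by
`(γ ξ) (γ K) = γ (ξ K)`. -/
def FixesEnd (G : SimpleGraph V) (Γ : Subgroup (Equiv.Perm V)) : Prop :=
  ∃ ξ : Set V → Set V,
    (∀ K : Set V, K.Finite → ξ K ∈ Comps G K ∧ (ξ K).Infinite) ∧
    (∀ K L : Set V, K ⊆ L → L.Finite → ξ L ⊆ ξ K) ∧
    (∀ γ ∈ Γ, ∀ K : Set V, K.Finite → ξ (γ '' K) = γ '' ξ K)

end Pool.Agent.Work.MP_c58d8b_pr
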