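import Pool.Agent.Work.MP_c58d8b_pr.Stmts2

/-!
# Item MTP: the tilted mass transport principle
-/

set_option autoImplicit false

namespace Pool.Agent.Work.MP_c58d8b_pr.NMTP

open MeasureTheory ProbabilityTheory Set
open scoped ENNReal unitInterval
open Pool.Agent.Work.MP_c58d8b_pr

universe u

variable {V : Type u} {G : SimpleGraph V} {Γ : Subgroup (Equiv.Perm V)}

theorem orb_finite (hb : Basics.{u}) (hG : G.Connected) (hl : LocFinite G) (hΓ : Preserves Γ G)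
    (x y : V) : (orb Γ x y).Finite := by
  refine (hb.ball_finite V G hG hl x (G.dist x y)).subset ?_
  rintro z ⟨γ, hγ, h1, rfl⟩
  have h2 := hb.dist_image V G γ (hΓ γ hγ) x y
  rw [h1] at h2
  exact h2.le

theorem mem_orb_self (x y : V) : y ∈ orb Γ x y := ⟨1, Γ.one_mem, rfl, rfl⟩

theorem orb_ncard_ne_zero (hb : Basics.{u}) (hG : G.Connected) (hl : LocFinite G)
    (hΓ : Preserves Γ G) (x y : V) : (orb Γ x y).ncard ≠ 0 :=
  ncard_ne_zero_of_mem (mem_orb_self x y) (orb_finite hb hG hl hΓ x y)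

theorem inv_self (γ : Equiv.Perm V) (x : V) : γ⁻¹ (γ x) = x := γ.symm_apply_apply x

theorem self_inv (γ : Equiv.Perm V) (x : V) : γ (γ⁻¹ x) = x := γ.apply_symm_apply x

/-- The points `γ o` with `γ y = o`. -/
def rel (Γ : Subgroup (Equiv.Perm V)) (o y : V) : Set V := {x | ∃ γ ∈ Γ, γ o = x ∧ γ y = o}

theorem rel_eq_orb {o y x : V} (hx : x ∈ rel Γ o y) : rel Γ o y = orb Γ o x := by
  obtain ⟨γ, hγ, rfl, h1⟩ := hx
  ext z
  constructor
  · rintro ⟨δ, hδ, rfl, h2⟩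
    refine ⟨δ * γ⁻¹, Γ.mul_mem hδ (Γ.inv_mem hγ), ?_, ?_⟩
    · rw [Equiv.Perm.mul_apply, ← h1, inv_self, h2, h1]
    · rw [Equiv.Perm.mul_apply, inv_self]
  · rintro ⟨δ, hδ, h2, rfl⟩
    refine ⟨δ * γ, Γ.mul_mem hδ hγ, rfl, ?_⟩
    rw [Equiv.Perm.mul_apply, h1, h2]

theorem encard_rel' (hT : Transitive Γ) (o x : V) :
    {y | x ∈ rel Γ o y}.encard = (orb Γ x o).encard := by
  obtain ⟨h, hh, hx⟩ := hT o x
  have e : orb Γ x o = h '' {y | x ∈ rel Γ o y} := by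
    ext z
    constructor
    · rintro ⟨δ, hδ, h1, rfl⟩
      refine ⟨h⁻¹ (δ o), ⟨δ⁻¹ * h, Γ.mul_mem (Γ.inv_mem hδ) hh, ?_, ?_⟩, ?_⟩
      · rw [Equiv.Perm.mul_apply, hx, Equiv.Perm.inv_eq_iff_eq, h1]
      · rw [Equiv.Perm.mul_apply, self_inv, inv_self]
      · rw [self_inv]
    · rintro ⟨y, ⟨γ, hγ, h1, h2⟩, rfl⟩
      refine ⟨h * γ⁻¹, Γ.mul_mem hh (Γ.inv_mem hγ), ?_, ?_⟩
      · rw [Equiv.Perm.mul_apply]
        have : γ⁻¹ x = o := by rw [Equiv.Perm.inv_eq_iff_eq, h1]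
        rw [this, hx]
      · rw [Equiv.Perm.mul_apply]
        have : γ⁻¹ o = y := by rw [Equiv.Perm.inv_eq_iff_eq, h2]
        rw [this]
  rw [e, h.injective.encard_image]

theorem prf (_hw : WeightStmt.{u}) (hb : Basics.{u}) : MtpStmt.{u} := by
  intro V G Γ hG hl hΓ hT f hf o
  have hfin : ∀ x y, (orb Γ x y).Finite := orb_finite hb hG hl hΓ
  have hne : ∀ x y, (orb Γ x y).ncard ≠ 0 := orb_ncard_ne_zero hb hG hl hΓ
  have h1 : ∀ y, f o y =
      ∑' x, (rel Γ o y).indicator (fun x => f x o * ((orb Γ o x).ncard : ℝ≥0∞)⁻¹) x := by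
    intro y
    obtain ⟨g, hg, hgy⟩ := hT y o
    have hx0 : g o ∈ rel Γ o y := ⟨g, hg, rfl, hgy⟩
    rw [← tsum_subtype]
    have h2 : ∀ x : rel Γ o y, f x o * ((orb Γ o (x : V)).ncard : ℝ≥0∞)⁻¹ =
        f o y * ((rel Γ o y).ncard : ℝ≥0∞)⁻¹ := by
      rintro ⟨x, hx⟩
      rw [← rel_eq_orb hx]
      obtain ⟨γ, hγ, h3, h4⟩ := hx
      have h5 := hf γ hγ o y
      rw [h3, h4] at h5
      rw [h5]
    rw [tsum_congr h2, ENNReal.tsum_set_const]
    have h6 : (rel Γ o y).Finite := by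
      rw [rel_eq_orb hx0]
      exact hfin _ _
    have h7 : (rel Γ o y).ncard ≠ 0 := by
      rw [rel_eq_orb hx0]
      exact hne _ _
    rw [← h6.cast_ncard_eq]
    have h8 : (((rel Γ o y).ncard : ℕ∞) : ℝ≥0∞) = ((rel Γ o y).ncard : ℝ≥0∞) := by
      simp
    rw [h8, mul_left_comm, ENNReal.mul_inv_cancel (by exact_mod_cast h7)
      (ENNReal.natCast_ne_top _), mul_one]
  rw [tsum_congr h1, ENNReal.tsum_comm]
  refine tsum_congr fun x => ?_
  have h2 : ∀ y, (rel Γ o y).indicator (fun x => f x o * ((orb Γ o x).ncard : ℝ≥0∞)⁻¹) x =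
      {y | x ∈ rel Γ o y}.indicator (fun _ => f x o * ((orb Γ o x).ncard : ℝ≥0∞)⁻¹) y := by
    intro y
    by_cases h : x ∈ rel Γ o y
    · rw [indicator_of_mem h, indicator_of_mem (show y ∈ {y | x ∈ rel Γ o y} from h)]
    · rw [indicator_of_notMem h, indicator_of_notMem (show y ∉ {y | x ∈ rel Γ o y} from h)]
  rw [tsum_congr h2, ← tsum_subtype, ENNReal.tsum_set_const, encard_rel' hT o x,
    ← (hfin x o).cast_ncard_eq]
  have h8 : (((orb Γ x o).ncard : ℕ∞) : ℝ≥0∞) = ((orb Γ x o).ncard : ℝ≥0∞) := by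
    simp
  have h9 : (0 : ℝ) < (orb Γ o x).ncard := by
    exact_mod_cast Nat.pos_of_ne_zero (hne o x)
  rw [h8, weight, ENNReal.ofReal_div_of_pos h9, ENNReal.ofReal_natCast, ENNReal.ofReal_natCast,
    div_eq_mul_inv, mul_left_comm]

end Pool.Agent.Work.MP_c58d8b_pr.NMTP
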