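import Pool.Agent.Work.MP_c58d8b_pr.Stmts

set_option autoImplicit false

namespace Pool.Agent.Work.MP_c58d8b_pr.NPH

open MeasureTheory ProbabilityTheory Set
open scoped ENNReal unitInterval

universe u

variable {V : Type u}

lemma word_cons (s : Bool → Equiv.Perm V) (i : Bool) (w : List Bool) (o : V) :
    word s (i :: w) o = s i (word s w o) := by
  simp [word, Equiv.Perm.mul_apply]

lemma word_weight (hw : WeightStmt.{u}) {G : SimpleGraph V} {Γ : Subgroup (Equiv.Perm V)}
    (hG : G.Connected) (hl : LocFinite G) (hP : Preserves Γ G)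
    (s : Bool → Equiv.Perm V) (hs : ∀ i, s i ∈ Γ) (o : V)
    (h1 : ∀ i, 1 ≤ weight Γ (s i o) o) (w : List Bool) :
    1 ≤ weight Γ (word s w o) o := by
  obtain ⟨hpos, hinv, hcoc⟩ := hw V G Γ hG hl hP
  induction w with
  | nil =>
    have h := hcoc o o o
    have hp := hpos o o
    have : weight Γ o o = 1 := by
      have : weight Γ o o * weight Γ o o = weight Γ o o * 1 := by rw [h, mul_one]
      exact mul_left_cancel₀ hp.ne' this
    simp [word, this]
  | cons i w ih =>
    rw [word_cons, ← hcoc (s i (word s w o)) (s i o) o, hinv (s i) (hs i)]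
    calc (1 : ℝ) = 1 * 1 := by norm_num
      _ ≤ _ := mul_le_mul ih (h1 i) zero_le_one (zero_le_one.trans ih)

theorem prf (hw : WeightStmt.{u}) (hp : PathsStmt.{u}) (hq : PeierlsStmt.{u})
    (hc : CutStmt.{u}) : PhStmt.{u} := by
  intro V _ G Γ hG hl hP hT s hs o hinj h1
  obtain ⟨L, M, E, hE, hEL, hEM, hreach⟩ := hp V G Γ hG hl hP hT s hs o hinj
  obtain ⟨hpos, hinv, hcoc⟩ := hw V G Γ hG hl hP
  -- the parameter
  set b : ℝ := 1 / (4 * ((L : ℝ) + 1)) with hb
  have hL0 : (0 : ℝ) ≤ L := Nat.cast_nonneg L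
  have hb0 : 0 < b := by positivity
  have hb1 : b ≤ 1 := by
    rw [hb, div_le_one (by positivity)]; linarith
  have hbM0 : 0 < b ^ (M + 1) := pow_pos hb0 _
  have hbM1 : b ^ (M + 1) ≤ 1 := pow_le_one₀ hb0.le hb1
  let p : I := ⟨1 - b ^ (M + 1), by constructor <;> linarith⟩
  have hpv : (p : ℝ) = 1 - b ^ (M + 1) := rfl
  have hcut := hc V G p E L (M + 1) (ENNReal.ofReal b) hE hEL
    (fun e B hB => (hEM e B hB).trans (Nat.le_succ M))
    (by rw [← ENNReal.ofReal_one]; exact ENNReal.ofReal_le_ofReal hb1)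
    (by
      rw [hpv, ← ENNReal.ofReal_pow hb0.le]
      apply ENNReal.ofReal_le_ofReal
      linarith)
  have hα : (L : ℝ≥0∞) * ENNReal.ofReal b ≤ 1 / 4 := by
    have h2 : (L : ℝ≥0∞) = ENNReal.ofReal (L : ℝ) := by simp
    rw [h2, ← ENNReal.ofReal_mul hL0]
    have h3 : (1 / 4 : ℝ≥0∞) = ENNReal.ofReal (1 / 4) := by
      rw [ENNReal.ofReal_div_of_pos (by norm_num)]
      simp
    rw [h3]
    apply ENNReal.ofReal_le_ofReal
    rw [hb, mul_one_div, div_le_div_iff₀ (by positivity) (by norm_num)]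
    linarith
  have hpei := hq (Set (Sym2 V)) (perc G p) (fun v => {t | ¬ (E v : Set (Sym2 V)) ⊆ t})
    ((L : ℝ≥0∞) * ENNReal.ofReal b) hα hcut
  set D : ℕ → Set (Set (Sym2 V)) := fun N =>
    {ω | ∀ w : List Bool, w.length = N → ∃ v, v <+: w ∧
      ω ∈ (fun v => {t : Set (Sym2 V) | ¬ (E v : Set (Sym2 V)) ⊆ t}) v} with hD
  have hDmono : Monotone D := by
    apply monotone_nat_of_le_succ
    intro N ω hω w hwl
    obtain ⟨v, hv, hv2⟩ := hω (w.take N) (by rw [List.length_take]; omega)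
    exact ⟨v, hv.trans (List.take_prefix N w), hv2⟩
  have hDU : perc G p (⋃ N, D N) ≤ 1 / 2 := by
    rw [hDmono.measure_iUnion]
    exact iSup_le hpei
  -- outside the union the cluster of `o` is heavy
  have hheavy : ∀ ω : Set (Sym2 V), ω ∉ ⋃ N, D N → ω ∈ HeavyEvent Γ := by
    intro ω hω
    have h2 : ∀ N : ℕ, ∃ w : List Bool, w.length = N ∧
        (SimpleGraph.fromEdgeSet ω).Reachable o (word s w o) := by
      intro N
      have h3 : ω ∉ D N := fun h => hω (mem_iUnion.2 ⟨N, h⟩)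
      simp only [hD, mem_setOf_eq, not_forall, not_exists, not_and, not_not] at h3
      obtain ⟨w, hwl, hw3⟩ := h3
      exact ⟨w, hwl, hreach ω w (fun v hv => hw3 v hv)⟩
    choose W hWl hWr using h2
    refine ⟨o, ?_⟩
    intro o'
    have hc0 : 0 < weight Γ o o' := hpos o o'
    let f : ℕ → Cluster ω o := fun N => ⟨word s (W N) o, hWr N⟩
    have hf : Function.Injective f := by
      intro N N' h
      have h4 : word s (W N) o = word s (W N') o := congrArg Subtype.val h
      have h5 := hinj h4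
      rw [← hWl N, ← hWl N', h5]
    have h6 : ∑' N : ℕ, ENNReal.ofReal (weight Γ (f N : V) o') ≤
        ∑' x : Cluster ω o, ENNReal.ofReal (weight Γ x o') :=
      ENNReal.tsum_comp_le_tsum_of_injective hf
        (fun x : Cluster ω o => ENNReal.ofReal (weight Γ x o'))
    have h7 : ∑' _ : ℕ, ENNReal.ofReal (weight Γ o o') ≤
        ∑' N : ℕ, ENNReal.ofReal (weight Γ (f N : V) o') := by
      apply ENNReal.tsum_le_tsum
      intro N
      apply ENNReal.ofReal_le_ofReal
      rw [← hcoc (f N : V) o o']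
      have h8 := word_weight hw hG hl hP s hs o h1 (W N)
      have h9 : (1 : ℝ) * weight Γ o o' ≤ weight Γ (f N : V) o * weight Γ o o' :=
        mul_le_mul_of_nonneg_right h8 hc0.le
      simpa using h9
    have h10 : ∑' _ : ℕ, ENNReal.ofReal (weight Γ o o') = ⊤ :=
      ENNReal.tsum_const_eq_top_of_ne_zero (by simpa using hc0)
    rw [h10] at h7
    exact top_le_iff.1 (h7.trans h6)
  -- positive probability
  have hprob : IsProbabilityMeasure (perc G p) := by unfold perc; infer_instance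
  have hpos2 : 0 < perc G p (HeavyEvent Γ) := by
    by_contra hcon
    have h0 : perc G p (HeavyEvent Γ) = 0 := by simpa using hcon
    have h11 : (univ : Set (Set (Sym2 V))) ⊆ HeavyEvent Γ ∪ ⋃ N, D N := by
      intro ω _
      by_cases h : ω ∈ ⋃ N, D N
      · exact Or.inr h
      · exact Or.inl (hheavy ω h)
    have h12 : (1 : ℝ≥0∞) ≤ 0 + 1 / 2 := by
      calc (1 : ℝ≥0∞) = perc G p univ := (measure_univ).symm
        _ ≤ perc G p (HeavyEvent Γ ∪ ⋃ N, D N) := measure_mono h11
        _ ≤ perc G p (HeavyEvent Γ) + perc G p (⋃ N, D N) := measure_union_le _ _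
        _ ≤ 0 + 1 / 2 := by rw [h0]; gcongr
    rw [zero_add] at h12
    have h13 : (1 / 2 : ℝ≥0∞) < 1 := by
      rw [one_div]; exact ENNReal.one_half_lt_one
    exact absurd h12 (not_le.2 h13)
  have hle : ph G Γ ≤ (p : ℝ) := by
    apply csInf_le
    · refine ⟨0, ?_⟩
      rintro t ⟨q, rfl, _⟩
      exact q.2.1
    · exact ⟨p, rfl, hpos2⟩
  rw [hpv] at hle
  linarith

end Pool.Agent.Work.MP_c58d8b_pr.NPH
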