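import Pool.Agent.Work.MP_c58d8b_pr.Defs

set_option autoImplicit false

namespace Pool.Agent.Work.MP_c58d8b_pr

open MeasureTheory ProbabilityTheory Set
open scoped ENNReal unitInterval

universe u

variable {V : Type u}

/-! ### Auxiliary definitions -/

/-- The set `A` of vertices is connected in `G`. -/
def Conn (G : SimpleGraph V) (A : Set V) : Prop := ∀ x ∈ A, ∀ y ∈ A, (within G A).Reachable x y

/-- The pairs with both endpoints in `A`. -/
def edgesIn (A : Set V) : Set (Sym2 V) := {e | ∀ v ∈ e, v ∈ A}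

/-- The event that the open edges inside `A` have an infinite cluster. -/
def InfIn (A : Set V) : Set (Set (Sym2 V)) := {s | ∃ x, (Cluster (s ∩ edgesIn A) x).Infinite}

/-- `T(D, R) = {g ∈ Γ : g (V - D) ⊆ R}`. -/
def T (Γ : Subgroup (Equiv.Perm V)) (D R : Set V) : Set (Equiv.Perm V) :=
  {g | g ∈ Γ ∧ g '' Dᶜ ⊆ R}

/-- The element of the semigroup generated by `s false`, `s true` coded by a word. -/
def word (s : Bool → Equiv.Perm V) (w : List Bool) : Equiv.Perm V := (w.map s).prod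

/-- `γ` is an automorphism of `G`. -/
def IsAut (G : SimpleGraph V) (γ : Equiv.Perm V) : Prop := ∀ x y, G.Adj (γ x) (γ y) ↔ G.Adj x y

/-! ### Elementary facts on components (item BASICS) -/

structure Basics : Prop where
  ball_finite : ∀ (V : Type u) (G : SimpleGraph V), G.Connected → LocFinite G →
    ∀ (x : V) (r : ℕ), {y | G.dist x y ≤ r}.Finite
  countable : ∀ (V : Type u) (G : SimpleGraph V), G.Connected → LocFinite G → Countable V
  comps_disjoint : ∀ (V : Type u) (G : SimpleGraph V) (K : Set V), ∀ C ∈ Comps G K, Disjoint C K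
  comps_eq : ∀ (V : Type u) (G : SimpleGraph V) (K : Set V), ∀ C ∈ Comps G K, ∀ C' ∈ Comps G K,
    (C ∩ C').Nonempty → C = C'
  exists_comp : ∀ (V : Type u) (G : SimpleGraph V) (K : Set V), ∀ x ∉ K, ∃ C ∈ Comps G K, x ∈ C
  comps_nonempty : ∀ (V : Type u) (G : SimpleGraph V) (K : Set V), ∀ C ∈ Comps G K, C.Nonempty
  comps_conn : ∀ (V : Type u) (G : SimpleGraph V) (K : Set V), ∀ C ∈ Comps G K, Conn G C
  comps_closed : ∀ (V : Type u) (G : SimpleGraph V) (K : Set V), ∀ C ∈ Comps G K,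
    ∀ x ∈ C, ∀ y, G.Adj x y → y ∉ K → y ∈ C
  conn_subset : ∀ (V : Type u) (G : SimpleGraph V) (K A : Set V), Conn G A → Disjoint A K →
    ∀ C ∈ Comps G K, (A ∩ C).Nonempty → A ⊆ C
  comps_mono : ∀ (V : Type u) (G : SimpleGraph V) (K L : Set V), K ⊆ L → ∀ C ∈ Comps G L,
    ∃ C' ∈ Comps G K, C ⊆ C'
  comps_adj : ∀ (V : Type u) (G : SimpleGraph V) (K : Set V), G.Connected → K.Nonempty →
    ∀ C ∈ Comps G K, ∃ x ∈ C, ∃ y ∈ K, G.Adj x y
  comps_finite : ∀ (V : Type u) (G : SimpleGraph V) (K : Set V), G.Connected → LocFinite G →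
    K.Finite → (Comps G K).Finite
  compl_conn : ∀ (V : Type u) (G : SimpleGraph V) (K : Set V), G.Connected → K.Nonempty →
    Conn G K → ∀ C ∈ Comps G K, Conn G Cᶜ
  comps_image : ∀ (V : Type u) (G : SimpleGraph V) (γ : Equiv.Perm V), IsAut G γ →
    ∀ (K : Set V), ∀ C ∈ Comps G K, γ '' C ∈ Comps G (γ '' K)
  conn_image : ∀ (V : Type u) (G : SimpleGraph V) (γ : Equiv.Perm V), IsAut G γ →
    ∀ (A : Set V), Conn G A → Conn G (γ '' A)
  dist_image : ∀ (V : Type u) (G : SimpleGraph V) (γ : Equiv.Perm V), IsAut G γ →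
    ∀ x y, G.dist (γ x) (γ y) = G.dist x y

/-! ### Probability items -/

/-- item CYL -/
def CylStmt : Prop := ∀ (V : Type u) [Countable V] (G : SimpleGraph V) (p : I)
  (B : Finset (Sym2 V)), (B : Set (Sym2 V)) ⊆ G.edgeSet →
    perc G p {s | Disjoint s (B : Set (Sym2 V))} = ENNReal.ofReal (1 - (p : ℝ)) ^ B.card

/-- item INDEP -/
def IndepStmt : Prop := ∀ (ι : Type u) (u : Set ι) (p : I) (S T : Set ι), Disjoint S T →
  ∀ A B : Set (Set ι), MeasurableSet A → MeasurableSet B →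
    setBernoulli u p {s | s ∩ S ∈ A ∧ s ∩ T ∈ B} =
      setBernoulli u p {s | s ∩ S ∈ A} * setBernoulli u p {s | s ∩ T ∈ B}

/-- item INV -/
def InvStmt : Prop := ∀ (V : Type u) (G : SimpleGraph V) (p : I) (γ : Equiv.Perm V), IsAut G γ →
  ∀ A : Set (Set (Sym2 V)), MeasurableSet A →
    perc G p {s | Sym2.map γ '' s ∈ A} = perc G p A

/-- item MEAS -/
def MeasStmt : Prop := ∀ (V : Type u) [Countable V],
  (∀ x y : V, MeasurableSet {s : Set (Sym2 V) | y ∈ Cluster s x}) ∧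
  (∀ x : V, MeasurableSet {s : Set (Sym2 V) | (Cluster s x).Infinite}) ∧
  MeasurableSet (UniqueEvent V) ∧ ∀ A : Set V, MeasurableSet (InfIn A)

/-- item LIVE: for `p < 1`, if there is a unique infinite cluster a.s., then exactly one component
of `G - K` contains an infinite cluster with positive probability. -/
def OneLiveStmt : Prop := ∀ (V : Type u) [Countable V] (G : SimpleGraph V), G.Connected →
  LocFinite G → ∀ p : I, (p : ℝ) < 1 → perc G p (UniqueEvent V) = 1 →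
    ∀ K : Set V, K.Finite → ∃! C : Set V, C ∈ Comps G K ∧ perc G p (InfIn C) ≠ 0

/-- item LIVEEND -/
def LiveEndStmt : Prop := ∀ (V : Type u) [Countable V] (G : SimpleGraph V)
  (Γ : Subgroup (Equiv.Perm V)), G.Connected → LocFinite G → Preserves Γ G →
    ∀ p : I, (p : ℝ) < 1 → perc G p (UniqueEvent V) = 1 → FixesEnd G Γ

/-- item PEIERLS -/
def PeierlsStmt : Prop := ∀ (Ω : Type u) [MeasurableSpace Ω] (μ : Measure Ω)
  (C : List Bool → Set Ω) (α : ℝ≥0∞), α ≤ 1 / 4 →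
    (∀ B : Finset (List Bool), μ (⋂ b ∈ B, C b) ≤ α ^ B.card) →
      ∀ N : ℕ, μ {ω | ∀ w : List Bool, w.length = N → ∃ v, v <+: w ∧ ω ∈ C v} ≤ 1 / 2

/-- item CUT -/
def CutStmt : Prop := ∀ (V : Type u) [Countable V] (G : SimpleGraph V) (p : I)
  (E : List Bool → Finset (Sym2 V)) (L M : ℕ) (β : ℝ≥0∞),
    (∀ v, (E v : Set (Sym2 V)) ⊆ G.edgeSet) → (∀ v, (E v).card ≤ L) →
    (∀ (e : Sym2 V) (B : Finset (List Bool)), (∀ b ∈ B, e ∈ E b) → B.card ≤ M) →
    β ≤ 1 → ENNReal.ofReal (1 - (p : ℝ)) ≤ β ^ M →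
      ∀ B : Finset (List Bool),
        perc G p (⋂ b ∈ B, {s | ¬ (E b : Set (Sym2 V)) ⊆ s}) ≤ (L * β) ^ B.card

/-- item PH -/
def PhStmt : Prop := ∀ (V : Type u) [Countable V] (G : SimpleGraph V)
  (Γ : Subgroup (Equiv.Perm V)), G.Connected → LocFinite G → Preserves Γ G → Transitive Γ →
    ∀ s : Bool → Equiv.Perm V, (∀ i, s i ∈ Γ) → ∀ o : V,
      Function.Injective (fun w : List Bool => word s w o) →
      (∀ i, 1 ≤ weight Γ (s i o) o) → ph G Γ < 1

/-! ### Graph items -/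

/-- item WEIGHT -/
def WeightStmt : Prop := ∀ (V : Type u) (G : SimpleGraph V) (Γ : Subgroup (Equiv.Perm V)),
  G.Connected → LocFinite G → Preserves Γ G →
    (∀ x y, 0 < weight Γ x y) ∧
    (∀ γ ∈ Γ, ∀ x y, weight Γ (γ x) (γ y) = weight Γ x y) ∧
    (∀ x y z, weight Γ x y * weight Γ y z = weight Γ x z)

/-- item PUSH -/
def PushStmt : Prop := ∀ (V : Type u) (G : SimpleGraph V) (Γ : Subgroup (Equiv.Perm V))
  (K : Set V), G.Connected → LocFinite G → Preserves Γ G → Transitive Γ → K.Finite →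
    K.Nonempty → Conn G K →
    (∀ g ∈ Γ, Disjoint (g '' K) K → ∃ D ∈ Comps G K, ∃ R ∈ Comps G K,
      K ⊆ g '' D ∧ g '' K ⊆ R ∧ g ∈ T Γ D R) ∧
    (∀ R ∈ Comps G K, R.Infinite → ∃ g ∈ Γ, Disjoint (g '' K) K ∧ g '' K ⊆ R)

/-- item FILL -/
def FillStmt : Prop := ∀ (V : Type u) (G : SimpleGraph V), G.Connected → LocFinite G →
  ThreeEnds G → ∃ K : Set V, K.Finite ∧ K.Nonempty ∧ Conn G K ∧ (∀ C ∈ Comps G K, C.Infinite) ∧
    ∃ C₁ ∈ Comps G K, ∃ C₂ ∈ Comps G K, ∃ C₃ ∈ Comps G K, C₁ ≠ C₂ ∧ C₁ ≠ C₃ ∧ C₂ ≠ C₃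

/-- item LOGIC -/
def LogicStmt : Prop := ∀ (J : Type u) (t : J → J → Prop), (∀ a b, t a b → t b a) →
  (∀ a b c d, t a b → t c d → b ≠ c → t a d) → (∀ b, ∃ a, t a b) →
    (∀ a, t a a) ∨ ∃ c, ∀ a b, t a b → a = c ∨ b = c

/-- item SPECIAL -/
def SpecialStmt : Prop := ∀ (V : Type u) (G : SimpleGraph V) (Γ : Subgroup (Equiv.Perm V))
  (K : Set V), G.Connected → LocFinite G → Preserves Γ G → Transitive Γ → K.Finite →
    K.Nonempty → Conn G K → (∀ C ∈ Comps G K, C.Infinite) →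
    ∀ c ∈ Comps G K, (∃ R₀ ∈ Comps G K, R₀ ≠ c) →
      (∀ D ∈ Comps G K, ∀ R ∈ Comps G K, (T Γ D R).Nonempty → D = c ∨ R = c) → FixesEnd G Γ

/-- item FREE -/
def FreeStmt : Prop := ∀ (V : Type u) (s : Bool → Equiv.Perm V) (A : Set V) (C : Bool → Set V)
  (o : V), o ∈ A → (∀ i, C i ⊆ A) → (∀ i, o ∉ C i) → Disjoint (C false) (C true) →
    (∀ i, s i '' A ⊆ C i) → Function.Injective (fun w : List Bool => word s w o)

/-- item PATHS -/
def PathsStmt : Prop := ∀ (V : Type u) (G : SimpleGraph V) (Γ : Subgroup (Equiv.Perm V)),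
  G.Connected → LocFinite G → Preserves Γ G → Transitive Γ →
    ∀ s : Bool → Equiv.Perm V, (∀ i, s i ∈ Γ) → ∀ o : V,
      Function.Injective (fun w : List Bool => word s w o) →
      ∃ (L M : ℕ) (E : List Bool → Finset (Sym2 V)),
        (∀ v, (E v : Set (Sym2 V)) ⊆ G.edgeSet) ∧ (∀ v, (E v).card ≤ L) ∧
        (∀ (e : Sym2 V) (B : Finset (List Bool)), (∀ b ∈ B, e ∈ E b) → B.card ≤ M) ∧
        ∀ (ω : Set (Sym2 V)) (w : List Bool), (∀ v, v <+: w → (E v : Set (Sym2 V)) ⊆ ω) →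
          (SimpleGraph.fromEdgeSet ω).Reachable o (word s w o)

/-- item LOOPS -/
def LoopsStmt : Prop := ∀ (V : Type u) (G : SimpleGraph V) (Γ : Subgroup (Equiv.Perm V))
  (K : Set V), G.Connected → LocFinite G → Preserves Γ G → Transitive Γ → K.Finite →
    K.Nonempty → Conn G K → ∀ C₁ ∈ Comps G K, ∀ C₂ ∈ Comps G K, ∀ C₃ ∈ Comps G K,
    C₁ ≠ C₂ → C₁ ≠ C₃ → C₂ ≠ C₃ →
    (T Γ C₁ C₁).Nonempty → (T Γ C₂ C₂).Nonempty → (T Γ C₃ C₃).Nonempty →
    ∃ (s : Bool → Equiv.Perm V) (o : V), (∀ i, s i ∈ Γ) ∧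
      Function.Injective (fun w : List Bool => word s w o) ∧ (∀ i, 1 ≤ weight Γ (s i o) o)

/-- item THREE -/
def ThreeStmt : Prop := ∀ (V : Type u) (G G' : SimpleGraph V) (Γ : Subgroup (Equiv.Perm V)),
  G.Connected → G'.Connected → LocFinite G → LocFinite G' → Preserves Γ G → Preserves Γ G' →
    Transitive Γ → ThreeEnds G → ThreeEnds G'

/-- item FIXED -/
def FixedStmt : Prop := ∀ (V : Type u) (G G' : SimpleGraph V) (Γ : Subgroup (Equiv.Perm V)),
  G.Connected → G'.Connected → LocFinite G → LocFinite G' → Preserves Γ G → Preserves Γ G' →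
    Transitive Γ → FixesEnd G' Γ → FixesEnd G Γ

end Pool.Agent.Work.MP_c58d8b_pr
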