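import Pool.Agent.Work.MP_c58d8b_pr.Stmts

set_option autoImplicit false

/-! Second part of the block: if `Γ` fixes an end then there is no heavy cluster for `p < 1`. -/

namespace Pool.Agent.Work.MP_c58d8b_pr

open MeasureTheory ProbabilityTheory Set
open scoped ENNReal unitInterval

universe u

variable {V : Type u}

/-- `ξ` is an end of `G` fixed by `Γ`. -/
structure IsFixedEnd (G : SimpleGraph V) (Γ : Subgroup (Equiv.Perm V)) (ξ : Set V → Set V) :
    Prop where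
  comps : ∀ K : Set V, K.Finite → ξ K ∈ Comps G K
  inf : ∀ K : Set V, K.Finite → (ξ K).Infinite
  mono : ∀ K L : Set V, K ⊆ L → L.Finite → ξ L ⊆ ξ K
  inv : ∀ γ ∈ Γ, ∀ K : Set V, K.Finite → ξ (γ '' K) = γ '' ξ K

/-- The ball of radius `r` around `v`. -/
def ball (G : SimpleGraph V) (r : ℕ) (v : V) : Set V := {y | G.dist v y ≤ r}

/-- The ball around `v` together with the component of its complement which contains `ξ`. -/
def hull (G : SimpleGraph V) (ξ : Set V → Set V) (r : ℕ) (v : V) : Set V :=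
  ball G r v ∪ ξ (ball G r v)

/-- No open edge touches the ball of radius `r` around `v`. -/
def closedAt (G : SimpleGraph V) (r : ℕ) (s : Set (Sym2 V)) (v : V) : Prop :=
  ∀ e ∈ s, ∀ y ∈ e, y ∉ ball G r v

/-- The elements of `A` which separate `x` from `ξ`. -/
def Up (G : SimpleGraph V) (ξ : Set V → Set V) (r : ℕ) (A : Set V) (x : V) : Set V :=
  {v | v ∈ A ∧ x ∉ hull G ξ r v}

/-- The lowest elements of `A` which separate `x` from `ξ`. -/
def Low (G : SimpleGraph V) (ξ : Set V → Set V) (r : ℕ) (A : Set V) (x : V) : Set V :=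
  {v | v ∈ Up G ξ r A x ∧ ∀ u ∈ Up G ξ r A x, ¬ Disjoint (ball G r u) (hull G ξ r v)}

/-- item MTP: the tilted mass transport principle. -/
def MtpStmt : Prop := ∀ (V : Type u) (G : SimpleGraph V) (Γ : Subgroup (Equiv.Perm V)),
  G.Connected → LocFinite G → Preserves Γ G → Transitive Γ →
    ∀ f : V → V → ℝ≥0∞, (∀ γ ∈ Γ, ∀ x y, f (γ x) (γ y) = f x y) →
      ∀ o : V, ∑' x, f x o * ENNReal.ofReal (weight Γ x o) = ∑' y, f o y

/-- item DYN -/
def DynStmt : Prop := ∀ (V : Type u) (G : SimpleGraph V) (Γ : Subgroup (Equiv.Perm V))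
  (K : Set V), G.Connected → LocFinite G → Preserves Γ G → K.Finite → K.Nonempty →
    ∀ c ∈ Comps G K, ∀ R₀ ∈ Comps G K, R₀ ≠ c → ∀ a ∈ Γ, a '' R₀ᶜ ⊆ c →
      (∀ n : ℕ, (a ^ (n + 1)) '' c ⊆ (a ^ n) '' c) ∧
      (∀ m n : ℕ, m ≠ n → Disjoint ((a ^ m) '' K) ((a ^ n) '' K)) ∧
      ∀ F : Set V, F.Finite → ∃ N : ℕ, ∀ n ≥ N, Disjoint ((a ^ n) '' c) F

/-- item ABOVE -/
def AboveStmt : Prop := ∀ (V : Type u) (G : SimpleGraph V) (Γ : Subgroup (Equiv.Perm V))
  (ξ : Set V → Set V), G.Connected → LocFinite G → Preserves Γ G → Transitive Γ → ThreeEnds G →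
    IsFixedEnd G Γ ξ →
      ∃ r : ℕ, ∀ (x : V) (F : Set V), F.Finite →
        ∃ v, x ∉ hull G ξ r v ∧ Disjoint (ball G (r + 1) v) F

/-- item CLOSED -/
def ClosedStmt : Prop := ∀ (V : Type u) [Countable V] (G : SimpleGraph V)
  (Γ : Subgroup (Equiv.Perm V)), G.Connected → LocFinite G → Preserves Γ G → Transitive Γ →
    ∀ p : I, (p : ℝ) < 1 → ∀ (r : ℕ) (W : Set V),
      (∀ F : Set V, F.Finite → ∃ v ∈ W, Disjoint (ball G (r + 1) v) F) →
        ∀ᵐ s ∂(perc G p), ∃ v ∈ W, closedAt G r s v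

/-- item LOW -/
def LowStmt : Prop := ∀ (V : Type u) (G : SimpleGraph V) (Γ : Subgroup (Equiv.Perm V))
  (ξ : Set V → Set V), G.Connected → LocFinite G → IsFixedEnd G Γ ξ →
    ∀ (r : ℕ) (A : Set V) (x : V), (Up G ξ r A x).Nonempty →
      (Low G ξ r A x).Nonempty ∧ (Low G ξ r A x).Finite

/-- item CONST -/
def ConstStmt : Prop := ∀ (V : Type u) (G : SimpleGraph V) (ξ : Set V → Set V), G.Connected →
  LocFinite G → (∀ K : Set V, K.Finite → ξ K ∈ Comps G K) →
    ∀ (r : ℕ) (s : Set (Sym2 V)), s ⊆ G.edgeSet → ∀ (x x' : V), x' ∈ Cluster s x →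
      Low G ξ r {v | closedAt G r s v} x = Low G ξ r {v | closedAt G r s v} x'

/-- item EQV -/
def EqvStmt : Prop := ∀ (V : Type u) (G : SimpleGraph V) (Γ : Subgroup (Equiv.Perm V))
  (ξ : Set V → Set V), G.Connected → LocFinite G → Preserves Γ G → IsFixedEnd G Γ ξ →
    ∀ γ ∈ Γ, ∀ (r : ℕ) (s : Set (Sym2 V)) (x : V),
      Low G ξ r {v | closedAt G r (Sym2.map γ '' s) v} (γ x) =
        γ '' Low G ξ r {v | closedAt G r s v} x

/-- item MEASLOW -/
def MeasLowStmt : Prop := ∀ (V : Type u) [Countable V] (G : SimpleGraph V) (ξ : Set V → Set V),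
  ∀ (r : ℕ) (x y : V) (m : ℕ),
    MeasurableSet {s : Set (Sym2 V) | y ∈ Low G ξ r {v | closedAt G r s v} x ∧
      (Low G ξ r {v | closedAt G r s v} x).encard ≤ m}

/-- item NOHEAVY -/
def NoHeavyStmt : Prop := ∀ (V : Type u) [Countable V] (G : SimpleGraph V)
  (Γ : Subgroup (Equiv.Perm V)), G.Connected → LocFinite G → Preserves Γ G → Transitive Γ →
    ThreeEnds G → FixesEnd G Γ → ∀ p : I, (p : ℝ) < 1 → perc G p (HeavyEvent Γ) = 0

/-- item TWO: graphs with exactly two ends. -/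
def TwoStmt : Prop := ∀ (V : Type u) [Countable V] (G : SimpleGraph V)
  (Γ : Subgroup (Equiv.Perm V)), G.Connected → LocFinite G → Preserves Γ G → Transitive Γ →
    TwoEnds G → ¬ ThreeEnds G → ∀ p : I, (p : ℝ) < 1 → perc G p (HeavyEvent Γ) = 0

end Pool.Agent.Work.MP_c58d8b_pr
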